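import Mathlib

/-!
# A positive product cubature with the Gaussian moments up to order six
-/

namespace Pool.Agent.L5helper93.Ein

open Finset

/-- The four nodes of the Gauss-Hermite rule. -/
noncomputable def node : Fin 4 → ℝ :=
  ![Real.sqrt (3 - Real.sqrt 6), - Real.sqrt (3 - Real.sqrt 6),
    Real.sqrt (3 + Real.sqrt 6), - Real.sqrt (3 + Real.sqrt 6)]

/-- The four weights of the Gauss-Hermite rule. -/
noncomputable def wt : Fin 4 → ℝ :=
  ![(3 + Real.sqrt 6) / 12, (3 + Real.sqrt 6) / 12, (3 - Real.sqrt 6) / 12,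
    (3 - Real.sqrt 6) / 12]

theorem sqrt6_sq : Real.sqrt 6 ^ 2 = 6 := Real.sq_sqrt (by norm_num)

theorem sqrt6_lt : Real.sqrt 6 < 3 := by
  rw [Real.sqrt_lt' (by norm_num)]
  norm_num

theorem wt_nonneg (j : Fin 4) : 0 ≤ wt j := by
  have h1 := sqrt6_lt
  have h2 := Real.sqrt_nonneg 6
  fin_cases j <;> simp [wt] <;> linarith

/-- The moments of the rule. -/
noncomputable def mom (k : ℕ) : ℝ := ∑ j, wt j * node j ^ k

theorem mom_zero : mom 0 = 1 := by
  simp [mom, Fin.sum_univ_four, wt]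
  ring

theorem mom_one : mom 1 = 0 := by
  simp [mom, Fin.sum_univ_four, wt, node]

theorem sqA : Real.sqrt (3 - Real.sqrt 6) ^ 2 = 3 - Real.sqrt 6 :=
  Real.sq_sqrt (by have := sqrt6_lt; linarith)

theorem sqB : Real.sqrt (3 + Real.sqrt 6) ^ 2 = 3 + Real.sqrt 6 :=
  Real.sq_sqrt (by have := Real.sqrt_nonneg 6; linarith)

theorem mom_two : mom 2 = 1 := by
  simp only [mom, Fin.sum_univ_four, wt, node]
  simp only [Matrix.cons_val_zero, Matrix.cons_val_one, Matrix.cons_val]
  have h := sqrt6_sq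
  have hA := sqA
  have hB := sqB
  rw [neg_sq, neg_sq, hA, hB]
  linear_combination (-1 / 3) * h

theorem mom_three : mom 3 = 0 := by
  simp only [mom, Fin.sum_univ_four, wt, node]
  simp only [Matrix.cons_val_zero, Matrix.cons_val_one, Matrix.cons_val]
  ring

theorem mom_four : mom 4 = 3 := by
  simp only [mom, Fin.sum_univ_four, wt, node]
  simp only [Matrix.cons_val_zero, Matrix.cons_val_one, Matrix.cons_val]
  have h := sqrt6_sq
  have hA := sqA
  have hB := sqB
  have e1 : Real.sqrt (3 - Real.sqrt 6) ^ 4 = (3 - Real.sqrt 6) ^ 2 := by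
    rw [show Real.sqrt (3 - Real.sqrt 6) ^ 4 = (Real.sqrt (3 - Real.sqrt 6) ^ 2) ^ 2 by ring, hA]
  have e2 : Real.sqrt (3 + Real.sqrt 6) ^ 4 = (3 + Real.sqrt 6) ^ 2 := by
    rw [show Real.sqrt (3 + Real.sqrt 6) ^ 4 = (Real.sqrt (3 + Real.sqrt 6) ^ 2) ^ 2 by ring, hB]
  have e3 : (-Real.sqrt (3 - Real.sqrt 6)) ^ 4 = (3 - Real.sqrt 6) ^ 2 := by
    rw [← e1]; ring
  have e4 : (-Real.sqrt (3 + Real.sqrt 6)) ^ 4 = (3 + Real.sqrt 6) ^ 2 := by
    rw [← e2]; ring
  rw [e1, e2, e3, e4]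
  linear_combination (-1) * h

theorem mom_five : mom 5 = 0 := by
  simp only [mom, Fin.sum_univ_four, wt, node]
  simp only [Matrix.cons_val_zero, Matrix.cons_val_one, Matrix.cons_val]
  ring

theorem mom_six : mom 6 = 15 := by
  simp only [mom, Fin.sum_univ_four, wt, node]
  simp only [Matrix.cons_val_zero, Matrix.cons_val_one, Matrix.cons_val]
  have h := sqrt6_sq
  have hA := sqA
  have hB := sqB
  have e1 : Real.sqrt (3 - Real.sqrt 6) ^ 6 = (3 - Real.sqrt 6) ^ 3 := by
    rw [show Real.sqrt (3 - Real.sqrt 6) ^ 6 = (Real.sqrt (3 - Real.sqrt 6) ^ 2) ^ 3 by ring, hA]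
  have e2 : Real.sqrt (3 + Real.sqrt 6) ^ 6 = (3 + Real.sqrt 6) ^ 3 := by
    rw [show Real.sqrt (3 + Real.sqrt 6) ^ 6 = (Real.sqrt (3 + Real.sqrt 6) ^ 2) ^ 3 by ring, hB]
  have e3 : (-Real.sqrt (3 - Real.sqrt 6)) ^ 6 = (3 - Real.sqrt 6) ^ 3 := by
    rw [← e1]; ring
  have e4 : (-Real.sqrt (3 + Real.sqrt 6)) ^ 6 = (3 + Real.sqrt 6) ^ 3 := by
    rw [← e2]; ring
  rw [e1, e2, e3, e4]
  linear_combination (-(1 / 3) * Real.sqrt 6 ^ 2 - 2) * h

theorem mom_succ (k : ℕ) (hk : k ≤ 5) : mom (k + 1) = k * mom (k - 1) := by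
  interval_cases k
  · rw [mom_one]; simp
  · rw [mom_two, mom_zero]; simp
  · rw [mom_three, mom_one]; simp
  · rw [mom_four, mom_two]; norm_num
  · rw [mom_five, mom_three]; simp
  · rw [mom_six, mom_four]; norm_num

set_option linter.unusedSectionVars false
set_option linter.unusedVariables false
set_option linter.unusedSimpArgs false

variable {ι : Type*} [Fintype ι] [DecidableEq ι]

/-- The product cubature. -/
noncomputable def Ex (F : (ι → ℝ) → ℝ) : ℝ :=
  ∑ σ : ι → Fin 4, (∏ i, wt (σ i)) * F (fun i => node (σ i))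

theorem Ex_nonneg (F : (ι → ℝ) → ℝ) (hF : ∀ x, 0 ≤ F x) : 0 ≤ Ex F :=
  Finset.sum_nonneg fun σ _ => mul_nonneg (Finset.prod_nonneg fun i _ => wt_nonneg _) (hF _)

theorem Ex_add (F G : (ι → ℝ) → ℝ) : Ex (fun x => F x + G x) = Ex F + Ex G := by
  simp only [Ex, mul_add, Finset.sum_add_distrib]

theorem Ex_smul (c : ℝ) (F : (ι → ℝ) → ℝ) : Ex (fun x => c * F x) = c * Ex F := by
  simp only [Ex, Finset.mul_sum]
  exact Finset.sum_congr rfl fun σ _ => by ring

theorem Ex_sub (F G : (ι → ℝ) → ℝ) : Ex (fun x => F x - G x) = Ex F - Ex G := by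
  simp only [Ex, mul_sub, Finset.sum_sub_distrib]

theorem Ex_sum {κ : Type*} (s : Finset κ) (F : κ → (ι → ℝ) → ℝ) :
    Ex (fun x => ∑ a ∈ s, F a x) = ∑ a ∈ s, Ex (F a) := by
  simp only [Ex, Finset.mul_sum]
  rw [Finset.sum_comm]

/-- The moment of the multi-index `c`. -/
noncomputable def mm (c : ι → ℕ) : ℝ := ∏ r, mom (c r)

theorem Ex_monomial (c : ι → ℕ) : Ex (fun x : ι → ℝ => ∏ r, x r ^ c r) = mm c := by
  unfold Ex mm mom
  rw [Finset.prod_univ_sum]
  simp only [Fintype.piFinset_univ]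
  refine Finset.sum_congr rfl fun σ _ => ?_
  rw [Finset.prod_mul_distrib]

/-- The unit multi-index. -/
def ev (i : ι) : ι → ℕ := Pi.single i 1

theorem mm_zero : mm (0 : ι → ℕ) = 1 := by
  simp [mm, mom_zero]

theorem mm_stein (a : ι) (c : ι → ℕ) (h : c a ≤ 5) :
    mm (ev a + c) = c a * mm (c - ev a) := by
  unfold mm
  rw [← Finset.mul_prod_erase Finset.univ _ (Finset.mem_univ a),
    ← Finset.mul_prod_erase Finset.univ (fun r => mom ((c - ev a) r)) (Finset.mem_univ a)]
  have h1 : (ev a + c) a = c a + 1 := by simp [ev, add_comm]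
  have h2 : (c - ev a) a = c a - 1 := by simp [ev]
  rw [h1, h2, mom_succ _ h, mul_assoc]
  congr 2
  refine Finset.prod_congr rfl fun r hr => ?_
  have hr' : r ≠ a := (Finset.mem_erase.1 hr).1
  have e1 : (ev a + c) r = c r := by simp [ev, hr']
  have e2 : (c - ev a) r = c r := by simp [ev, hr']
  rw [e1, e2]

/-- Kronecker delta. -/
def dl (i j : ι) : ℝ := if i = j then 1 else 0

theorem ev_apply (i j : ι) : ((ev i j : ℕ) : ℝ) = dl i j := by
  by_cases h : i = j
  · subst h; simp [ev, dl]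
  · simp [ev, dl, h, Pi.single_apply, Ne.symm h]

theorem mm_one (a : ι) : mm (ev a) = 0 := by
  have h := mm_stein a 0 (by simp)
  simpa using h

theorem mm_two (a b : ι) : mm (ev a + ev b) = dl a b := by
  have h := mm_stein a (ev b) (by simp only [ev, Pi.single_apply]; split_ifs <;> norm_num)
  rw [h, ev_apply]
  by_cases hab : a = b
  · subst hab
    have : ev a - ev a = (0 : ι → ℕ) := by ext r; simp
    rw [this, mm_zero, mul_one]
  · simp [dl, hab, Ne.symm hab]

theorem dl_mm (a j : ι) (c d : ι → ℕ) (h : c = ev j + d) :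
    dl j a * mm (c - ev a) = dl a j * mm d := by
  by_cases hja : a = j
  · subst hja
    have : c - ev a = d := by
      rw [h]; ext r; simp
    rw [this]
  · simp [dl, hja, Ne.symm hja]

theorem mm_four (a b c d : ι) : mm (ev a + (ev b + ev c + ev d)) =
    dl a b * dl c d + dl a c * dl b d + dl a d * dl b c := by
  have h := mm_stein a (ev b + ev c + ev d)
    (by simp only [ev, Pi.add_apply, Pi.single_apply]; split_ifs <;> norm_num)
  rw [h]
  have e1 := dl_mm a b (ev b + ev c + ev d) (ev c + ev d) (by abel)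
  have e2 := dl_mm a c (ev b + ev c + ev d) (ev b + ev d) (by abel)
  have e3 := dl_mm a d (ev b + ev c + ev d) (ev b + ev c) (by abel)
  rw [mm_two] at e1 e2 e3
  rw [← e1, ← e2, ← e3]
  simp only [Pi.add_apply, Nat.cast_add, ev_apply]
  ring

theorem mm_six (a b c d e f : ι) : mm (ev a + (ev b + ev c + ev d + ev e + ev f)) =
    dl a b * mm (ev c + (ev d + ev e + ev f)) + dl a c * mm (ev b + (ev d + ev e + ev f)) +
    dl a d * mm (ev b + (ev c + ev e + ev f)) + dl a e * mm (ev b + (ev c + ev d + ev f)) +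
    dl a f * mm (ev b + (ev c + ev d + ev e)) := by
  have h := mm_stein a (ev b + ev c + ev d + ev e + ev f)
    (by simp only [ev, Pi.add_apply, Pi.single_apply]; split_ifs <;> norm_num)
  rw [h]
  have e1 := dl_mm a b (ev b + ev c + ev d + ev e + ev f) (ev c + (ev d + ev e + ev f)) (by abel)
  have e2 := dl_mm a c (ev b + ev c + ev d + ev e + ev f) (ev b + (ev d + ev e + ev f)) (by abel)
  have e3 := dl_mm a d (ev b + ev c + ev d + ev e + ev f) (ev b + (ev c + ev e + ev f)) (by abel)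
  have e4 := dl_mm a e (ev b + ev c + ev d + ev e + ev f) (ev b + (ev c + ev d + ev f)) (by abel)
  have e5 := dl_mm a f (ev b + ev c + ev d + ev e + ev f) (ev b + (ev c + ev d + ev e)) (by abel)
  rw [← e1, ← e2, ← e3, ← e4, ← e5]
  simp only [Pi.add_apply, Nat.cast_add, ev_apply]
  ring

theorem prod_ev (x : ι → ℝ) (i : ι) : ∏ r, x r ^ ev i r = x i := by
  rw [Finset.prod_eq_single i]
  · simp [ev]
  · intro b _ hb
    simp [ev, hb]
  · intro h; exact absurd (Finset.mem_univ i) h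

theorem prod_add' (x : ι → ℝ) (c d : ι → ℕ) :
    ∏ r, x r ^ (c + d) r = (∏ r, x r ^ c r) * ∏ r, x r ^ d r := by
  rw [← Finset.prod_mul_distrib]
  exact Finset.prod_congr rfl fun r _ => by rw [Pi.add_apply, pow_add]

theorem Ex_two (i j : ι) : Ex (fun x : ι → ℝ => x i * x j) = dl i j := by
  rw [← mm_two, ← Ex_monomial]
  congr 1
  ext x
  rw [prod_add', prod_ev, prod_ev]

theorem Ex_four (a b c d : ι) : Ex (fun x : ι → ℝ => x a * x b * (x c * x d)) =
    dl a b * dl c d + dl a c * dl b d + dl a d * dl b c := by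
  rw [← mm_four, ← Ex_monomial]
  congr 1
  ext x
  simp only [prod_add', prod_ev]
  ring

theorem Ex_six (a b c d e f : ι) :
    Ex (fun x : ι → ℝ => x a * x b * (x c * x d) * (x e * x f)) =
    dl a b * (dl c d * dl e f + dl c e * dl d f + dl c f * dl d e) +
    dl a c * (dl b d * dl e f + dl b e * dl d f + dl b f * dl d e) +
    dl a d * (dl b c * dl e f + dl b e * dl c f + dl b f * dl c e) +
    dl a e * (dl b c * dl d f + dl b d * dl c f + dl b f * dl c d) +
    dl a f * (dl b c * dl d e + dl b d * dl c e + dl b e * dl c d) := by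
  rw [← mm_four, ← mm_four, ← mm_four, ← mm_four, ← mm_four, ← mm_six, ← Ex_monomial]
  congr 1
  ext x
  simp only [prod_add', prod_ev]
  ring

end Pool.Agent.L5helper93.Ein
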