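import Mathlib
import Pool.Agent.L5helper93.Ein.Quad

/-!
# Moments of quadratic forms
-/

namespace Pool.Agent.L5helper93.Ein

open Finset

set_option linter.unusedSectionVars false
set_option linter.unusedVariables false
set_option linter.unusedSimpArgs false

variable {ι : Type*} [Fintype ι] [DecidableEq ι]

/-- The quadratic form of a matrix. -/
def qf (P : ι → ι → ℝ) (x : ι → ℝ) : ℝ := ∑ i, ∑ j, P i j * (x i * x j)

/-- Trace of a product of two. -/
def t2 (P Q : ι → ι → ℝ) : ℝ := ∑ i, ∑ j, P i j * Q i j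

/-- Trace of a product of three. -/
def t3 (P Q S : ι → ι → ℝ) : ℝ := ∑ i, ∑ j, ∑ k, P i j * Q j k * S k i

theorem Ex_qf1 (P : ι → ι → ℝ) : Ex (qf P) = ∑ i, P i i := by
  have e : qf P = fun x => ∑ i, ∑ j, P i j * (x i * x j) := rfl
  rw [e]
  simp only [Ex_sum, Ex_smul, Ex_two]
  simp [dl]

theorem sum_dl (g : ι → ℝ) (e : ι) : ∑ f, g f * dl e f = g e := by
  simp [dl]

theorem sum_dl' (g : ι → ℝ) (e : ι) : ∑ f, g f * dl f e = g e := by
  simp [dl]

theorem Ex_qf2 (P Q : ι → ι → ℝ) (hP : ∀ i j, P i j = P j i) :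
    Ex (fun x => qf P x * qf Q x) = (∑ i, P i i) * (∑ i, Q i i) + 2 * t2 P Q := by
  have e : (fun x => qf P x * qf Q x) =
      fun x => ∑ i, ∑ j, ∑ k, ∑ l, P i j * Q k l * (x i * x j * (x k * x l)) := by
    ext x
    simp only [qf]
    rw [Finset.sum_mul]
    refine Finset.sum_congr rfl fun i _ => ?_
    rw [Finset.sum_mul]
    refine Finset.sum_congr rfl fun j _ => ?_
    rw [Finset.mul_sum]
    refine Finset.sum_congr rfl fun k _ => ?_
    rw [Finset.mul_sum]
    refine Finset.sum_congr rfl fun l _ => ?_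
    ring
  rw [e]
  simp only [Ex_sum, Ex_smul, Ex_four]
  have h : ∀ i j k l, P i j * Q k l * (dl i j * dl k l + dl i k * dl j l + dl i l * dl j k) =
      P i j * dl i j * (Q k l * dl k l) + P i j * (dl i k) * (Q k l * dl j l) +
      P i j * dl j k * (Q k l * dl i l) := by
    intro i j k l; ring
  simp only [h, Finset.sum_add_distrib, ← Finset.mul_sum, sum_dl, ← Finset.sum_mul]
  unfold t2
  have h2 : ∀ i j, ∑ k, P i j * dl i k * Q k j = P i j * Q i j := by
    intro i j
    have := sum_dl (fun k => P i j * Q k j) i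
    rw [← this]
    exact Finset.sum_congr rfl fun k _ => by ring
  have h3 : ∀ i j, ∑ k, P i j * dl j k * Q k i = P i j * Q j i := by
    intro i j
    have := sum_dl (fun k => P i j * Q k i) j
    rw [← this]
    exact Finset.sum_congr rfl fun k _ => by ring
  simp only [h2, h3]
  have h4 : ∑ i, ∑ j, P i j * Q j i = ∑ i, ∑ j, P i j * Q i j := by
    rw [Finset.sum_comm]
    exact Finset.sum_congr rfl fun i _ => Finset.sum_congr rfl fun j _ => by rw [hP]
  rw [h4]
  ring

theorem tri (f g h : ι → ι → ℝ) : (∑ i, ∑ j, f i j) * (∑ k, ∑ l, g k l) * (∑ m, ∑ p, h m p) =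
    ∑ i, ∑ j, ∑ k, ∑ l, ∑ m, ∑ p, f i j * g k l * h m p := by
  simp only [← Finset.mul_sum, ← Finset.sum_mul]

theorem Ex_qf3 (P Q S : ι → ι → ℝ) (hP : ∀ i j, P i j = P j i) (hQ : ∀ i j, Q i j = Q j i)
    (hS : ∀ i j, S i j = S j i) :
    Ex (fun x => qf P x * qf Q x * qf S x) =
      (∑ i, P i i) * (∑ i, Q i i) * (∑ i, S i i) +
      2 * ((∑ i, P i i) * t2 Q S + (∑ i, Q i i) * t2 P S + (∑ i, S i i) * t2 P Q) +
      8 * t3 P Q S := by
  have e : (fun x => qf P x * qf Q x * qf S x) =
      fun x => ∑ i, ∑ j, ∑ k, ∑ l, ∑ m, ∑ p, P i j * Q k l * S m p *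
        (x i * x j * (x k * x l) * (x m * x p)) := by
    ext x
    simp only [qf]
    rw [tri]
    refine Finset.sum_congr rfl fun i _ => ?_
    refine Finset.sum_congr rfl fun j _ => ?_
    refine Finset.sum_congr rfl fun k _ => ?_
    refine Finset.sum_congr rfl fun l _ => ?_
    refine Finset.sum_congr rfl fun m _ => ?_
    refine Finset.sum_congr rfl fun p _ => ?_
    ring
  rw [e]
  simp only [Ex_sum, Ex_smul, Ex_six]
  -- sum over p
  have hp : ∀ i j k l m, ∑ p, P i j * Q k l * S m p *
      (dl i j * (dl k l * dl m p + dl k m * dl l p + dl k p * dl l m) +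
      dl i k * (dl j l * dl m p + dl j m * dl l p + dl j p * dl l m) +
      dl i l * (dl j k * dl m p + dl j m * dl k p + dl j p * dl k m) +
      dl i m * (dl j k * dl l p + dl j l * dl k p + dl j p * dl k l) +
      dl i p * (dl j k * dl l m + dl j l * dl k m + dl j m * dl k l)) =
      P i j * Q k l * (dl i j * (dl k l * S m m + dl k m * S m l + S m k * dl l m) +
      dl i k * (dl j l * S m m + dl j m * S m l + S m j * dl l m) +
      dl i l * (dl j k * S m m + dl j m * S m k + S m j * dl k m) +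
      dl i m * (dl j k * S m l + dl j l * S m k + S m j * dl k l) +
      S m i * (dl j k * dl l m + dl j l * dl k m + dl j m * dl k l)) := by
    intro i j k l m
    rw [← sum_dl (S m) m, ← sum_dl (S m) l, ← sum_dl (S m) k, ← sum_dl (S m) j, ← sum_dl (S m) i]
    simp only [Finset.mul_sum, Finset.sum_mul, ← Finset.sum_add_distrib]
    refine Finset.sum_congr rfl fun p _ => ?_
    ring
  simp only [hp]
  have hm : ∀ i j k l, ∑ m, P i j * Q k l * (dl i j * (dl k l * S m m + dl k m * S m l +
      S m k * dl l m) +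
      dl i k * (dl j l * S m m + dl j m * S m l + S m j * dl l m) +
      dl i l * (dl j k * S m m + dl j m * S m k + S m j * dl k m) +
      dl i m * (dl j k * S m l + dl j l * S m k + S m j * dl k l) +
      S m i * (dl j k * dl l m + dl j l * dl k m + dl j m * dl k l)) =
      P i j * Q k l * (dl i j * (dl k l * (∑ m, S m m) + S k l + S l k) +
      dl i k * (dl j l * (∑ m, S m m) + S j l + S l j) +
      dl i l * (dl j k * (∑ m, S m m) + S j k + S k j) +
      (dl j k * S i l + dl j l * S i k + S i j * dl k l) +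
      (dl j k * S l i + dl j l * S k i + S j i * dl k l)) := by
    intro i j k l
    have g1 : ∀ a b, ∑ m, S m b * dl a m = S a b := fun a b => sum_dl (fun m => S m b) a
    rw [← g1 k l, ← g1 l k, ← g1 j l, ← g1 l j, ← g1 j k, ← g1 k j, ← g1 i l, ← g1 i k,
      ← g1 i j, ← g1 l i, ← g1 k i, ← g1 j i]
    simp only [Finset.mul_sum, Finset.sum_mul, ← Finset.sum_add_distrib]
    refine Finset.sum_congr rfl fun m _ => ?_
    ring
  simp only [hm]
  set T : ℝ := ∑ m, S m m with hT
  have hl : ∀ i j k, ∑ l, P i j * Q k l * (dl i j * (dl k l * T + S k l + S l k) +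
      dl i k * (dl j l * T + S j l + S l j) +
      dl i l * (dl j k * T + S j k + S k j) +
      (dl j k * S i l + dl j l * S i k + S i j * dl k l) +
      (dl j k * S l i + dl j l * S k i + S j i * dl k l)) =
      P i j * (dl i j * (Q k k * T + 2 * ∑ l, Q k l * S k l) +
        dl i k * (Q k j * T + 2 * ∑ l, Q k l * S l j) +
        Q k i * (dl j k * T + 2 * S j k) +
        2 * (dl j k * ∑ l, Q k l * S l i) + 2 * (Q k j * S i k) + 2 * (Q k k * S i j)) := by
    intro i j k
    have g1 : ∀ a b, ∑ l, Q b l * dl a l = Q b a := fun a b => sum_dl (fun l => Q b l) a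
    rw [← g1 k k, ← g1 j k, ← g1 i k]
    simp only [Finset.mul_sum, Finset.sum_mul, ← Finset.sum_add_distrib]
    refine Finset.sum_congr rfl fun l _ => ?_
    rw [hS l k, hS l j, hS k j, hS l i, hS k i, hS j i]
    ring
  simp only [hl]
  have hk : ∀ i j, ∑ k, P i j * (dl i j * (Q k k * T + 2 * ∑ l, Q k l * S k l) +
        dl i k * (Q k j * T + 2 * ∑ l, Q k l * S l j) +
        Q k i * (dl j k * T + 2 * S j k) +
        2 * (dl j k * ∑ l, Q k l * S l i) + 2 * (Q k j * S i k) + 2 * (Q k k * S i j)) =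
      P i j * dl i j * ((∑ k, Q k k) * T + 2 * ∑ k, ∑ l, Q k l * S k l) +
      2 * T * (P i j * Q i j) + 2 * (∑ k, Q k k) * (P i j * S i j) +
      4 * (P i j * ∑ l, Q j l * S l i) + 4 * (P i j * ∑ l, S j l * Q l i) := by
    intro i j
    have g2 : ∑ k, dl i k * (Q k j * T + 2 * ∑ l, Q k l * S l j) =
        Q i j * T + 2 * ∑ l, Q i l * S l j := by
      rw [← sum_dl (fun k => Q k j * T + 2 * ∑ l, Q k l * S l j) i]
      exact Finset.sum_congr rfl fun k _ => by ring
    have g3 : ∑ k, Q k i * (dl j k * T + 2 * S j k) = Q j i * T + 2 * ∑ k, S j k * Q k i := by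
      rw [← sum_dl (fun k => Q k i * T) j, Finset.mul_sum, ← Finset.sum_add_distrib]
      exact Finset.sum_congr rfl fun k _ => by ring
    have g4 : ∑ k, 2 * (dl j k * ∑ l, Q k l * S l i) = 2 * ∑ l, Q j l * S l i := by
      rw [← sum_dl (fun k => ∑ l, Q k l * S l i) j, Finset.mul_sum]
      exact Finset.sum_congr rfl fun k _ => by ring
    have g5 : ∑ k, 2 * (Q k j * S i k) = 2 * ∑ l, Q j l * S l i := by
      rw [Finset.mul_sum]
      exact Finset.sum_congr rfl fun k _ => by rw [hQ k j, hS i k]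
    have g6 : ∑ l, Q i l * S l j = ∑ l, S j l * Q l i := by
      exact Finset.sum_congr rfl fun k _ => by rw [hQ i k, hS k j]; ring
    rw [← Finset.mul_sum]
    simp only [Finset.sum_add_distrib, g2, g3, g4, g5, g6]
    rw [← Finset.mul_sum, Finset.sum_add_distrib, ← Finset.sum_mul, ← Finset.mul_sum,
      ← Finset.mul_sum, ← Finset.sum_mul, hQ j i]
    ring
  simp only [hk]
  have hfin : ∀ i, ∑ j, P i j * dl i j = P i i := fun i => sum_dl (P i) i
  simp only [Finset.sum_add_distrib, ← Finset.mul_sum, ← Finset.sum_mul, hfin]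
  have e1 : ∑ i, ∑ j, P i j * ∑ l, Q j l * S l i = t3 P Q S := by
    unfold t3
    refine Finset.sum_congr rfl fun i _ => Finset.sum_congr rfl fun j _ => ?_
    rw [Finset.mul_sum]
    exact Finset.sum_congr rfl fun k _ => by ring
  have e2 : ∑ i, ∑ j, P i j * ∑ l, S j l * Q l i = t3 P Q S := by
    rw [← e1, Finset.sum_comm]
    refine Finset.sum_congr rfl fun i _ => Finset.sum_congr rfl fun j _ => ?_
    rw [hP j i]
    congr 1
    exact Finset.sum_congr rfl fun k _ => by rw [hS i k, hQ k j]; ring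
  rw [e1, e2]
  unfold t2
  ring

end Pool.Agent.L5helper93.Ein
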