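import Mathlib
import Pool.Agent.L5helper93.Ein.QF

/-!
# Cubic invariants of algebraic curvature tensors and averages over vectors
-/

namespace Pool.Agent.L5helper93.Ein

open Finset Matrix

set_option linter.unusedSectionVars false
set_option linter.unusedVariables false
set_option linter.unusedSimpArgs false

variable {ι : Type*} [Fintype ι] [DecidableEq ι]

/-- Algebraic curvature tensors in components; `A a b a b` is the sectional curvature. -/
structure IsCurv (A : ι → ι → ι → ι → ℝ) : Prop where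
  a1 : ∀ a b c d, A a b c d = - A b a c d
  a2 : ∀ a b c d, A a b c d = - A a b d c
  bi : ∀ a b c d, A a b c d + A b c a d + A c a b d = 0

variable {A : ι → ι → ι → ι → ℝ}

theorem IsCurv.pair (h : IsCurv A) (a b c d : ι) : A a b c d = A c d a b := by
  have h1 := h.bi a b c d
  have h2 := h.bi b c d a
  have h3 := h.bi c d a b
  have h4 := h.bi d a b c
  have e1 := h.a1 d a b c
  have e2 := h.a2 a d b c
  have e3 := h.a1 c d b a
  have e4 := h.a2 c d a b
  have e5 := h.a1 b c a d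
  have e6 := h.a2 b c a d
  have e7 := h.a1 c a b d
  have e8 := h.a2 c a b d
  have e9 := h.a1 d b c a
  have e10 := h.a2 b d c a
  have e11 := h.a1 a c d b
  have e12 := h.a2 a c d b
  have e13 := h.a1 b d a c
  have e14 := h.a2 b d a c
  have e15 := h.a1 a b d c
  have e16 := h.a2 a b c d
  have e17 := h.a1 a d c b
  have e18 := h.a2 d a c b
  linarith [h.a1 a b c d, h.a2 a b c d, h.a1 c d a b, h.a2 c d a b, h.a2 c d b a, h.a1 d c a b,
    h.a2 b a c d, h.a2 b c d a, h.a1 d a c b, h.a2 d a b c, h.a1 b d c a, h.a2 d b c a,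
    h.a1 a c b d, h.a2 a c b d, h.a1 d b a c]

/-- The matrix `P`. -/
def Pm (A : ι → ι → ι → ι → ℝ) : Matrix (ι × ι) (ι × ι) ℝ :=
  Matrix.of fun p q => A p.1 q.1 p.2 q.2

/-- The flip. -/
def Tm : Matrix (ι × ι) (ι × ι) ℝ := Matrix.of fun p q => if q = p.swap then 1 else 0

theorem mul_T (B : Matrix (ι × ι) (ι × ι) ℝ) (p q : ι × ι) : (B * Tm : Matrix (ι × ι) (ι × ι) ℝ) p q = B p q.swap := by
  rw [Matrix.mul_apply, Finset.sum_eq_single q.swap]
  · simp [Tm]
  · intro r _ hr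
    have : q ≠ r.swap := by
      intro h; apply hr; rw [h, Prod.swap_swap]
    simp [Tm, this]
  · intro h; exact absurd (Finset.mem_univ _) h

theorem T_mul (B : Matrix (ι × ι) (ι × ι) ℝ) (p q : ι × ι) : (Tm * B : Matrix (ι × ι) (ι × ι) ℝ) p q = B p.swap q := by
  rw [Matrix.mul_apply, Finset.sum_eq_single p.swap]
  · simp [Tm]
  · intro r _ hr
    simp [Tm, hr]
  · intro h; exact absurd (Finset.mem_univ _) h

theorem T_sq : (Tm : Matrix (ι × ι) (ι × ι) ℝ) * Tm = 1 := by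
  ext p q
  rw [mul_T]
  simp only [Tm, Matrix.of_apply, Matrix.one_apply]
  by_cases h : p = q
  · subst h; simp
  · have : ¬ q.swap = p.swap := fun h' => h (Prod.swap_injective h').symm
    simp [h, this]

theorem P_comm (h : IsCurv A) : Pm A * Tm = Tm * Pm A := by
  ext ⟨a, b⟩ ⟨c, d⟩
  rw [mul_T, T_mul]
  simp only [Pm, Matrix.of_apply, Prod.swap, Prod.fst_swap, Prod.snd_swap]
  exact h.pair a d b c

theorem P_symm (h : IsCurv A) (p q : ι × ι) : Pm A p q = Pm A q p := by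
  obtain ⟨a, b⟩ := p
  obtain ⟨c, d⟩ := q
  simp only [Pm, Matrix.of_apply]
  rw [h.a1 a c b d, h.a2 c a b d, neg_neg]

/-- The squared norm of the curvature tensor. -/
def nS (A : ι → ι → ι → ι → ℝ) : ℝ := ∑ a, ∑ b, ∑ c, ∑ d, A a b c d ^ 2

theorem sum4 (f : ι → ι → ι → ι → ℝ) :
    ∑ p : ι × ι, ∑ q : ι × ι, f p.1 p.2 q.1 q.2 = ∑ a, ∑ b, ∑ c, ∑ d, f a b c d := by
  rw [Fintype.sum_prod_type]
  refine Finset.sum_congr rfl fun a _ => Finset.sum_congr rfl fun b _ => ?_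
  rw [Fintype.sum_prod_type]

theorem tr_P2 (h : IsCurv A) : (Pm A * Pm A).trace = nS A := by
  rw [Matrix.trace]
  simp only [Matrix.diag_apply, Matrix.mul_apply]
  have e : ∀ p q, Pm A p q * Pm A q p = A p.1 q.1 p.2 q.2 ^ 2 := by
    intro p q
    rw [P_symm h q p]
    simp only [Pm, Matrix.of_apply]
    ring
  simp only [e]
  rw [sum4 (fun a b c d => A a c b d ^ 2)]
  unfold nS
  refine Finset.sum_congr rfl fun a _ => ?_
  rw [Finset.sum_comm]

theorem tr_P2T (h : IsCurv A) : (Pm A * Pm A * Tm).trace = nS A / 2 := by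
  have h1 : (((Pm A - Pm A * Tm) * (Pm A - Pm A * Tm)).trace) = nS A := by
    rw [Matrix.trace]
    simp only [Matrix.diag_apply]
    have e0 : ∀ p : ι × ι, ((Pm A - Pm A * Tm) * (Pm A - Pm A * Tm) :
        Matrix (ι × ι) (ι × ι) ℝ) p p = ∑ q, (Pm A p q - Pm A p q.swap) *
        (Pm A q p - Pm A q p.swap) := by
      intro p
      rw [Matrix.mul_apply]
      refine Finset.sum_congr rfl fun q _ => ?_
      rw [Matrix.sub_apply, Matrix.sub_apply, mul_T, mul_T]
    simp only [e0]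
    have e : ∀ p q : ι × ι, (Pm A p q - Pm A p q.swap) * (Pm A q p - Pm A q p.swap) =
        A p.1 p.2 q.1 q.2 ^ 2 := by
      rintro ⟨a, b⟩ ⟨c, d⟩
      simp only [Pm, Matrix.of_apply, Prod.swap, Prod.fst_swap, Prod.snd_swap]
      have b1 := h.bi a b c d
      have b2 := h.bi c d a b
      have p1 := h.pair a b c d
      have e1 : A a c b d - A a d b c = A a b c d := by
        have i1 := h.a1 c a b d
        have i2 := h.pair b c a d
        linarith
      have e2 : A c a d b - A c b d a = A a b c d := by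
        rw [p1]
        have i1 := h.a1 a c d b
        have i2 := h.pair d a c b
        linarith
      rw [e1, e2]; ring
    simp only [e]
    rw [sum4 (fun a b c d => A a b c d ^ 2)]
    rfl
  have h2 : (Pm A - Pm A * Tm) * (Pm A - Pm A * Tm) = 2 • (Pm A * Pm A) -
      2 • (Pm A * Pm A * Tm) := by
    have c := P_comm h
    have t := T_sq (ι := ι)
    have e1 : Pm A * Tm * Pm A = Pm A * Pm A * Tm := by
      rw [mul_assoc, ← c, mul_assoc]
    have e2 : Pm A * Tm * (Pm A * Tm) = Pm A * Pm A := by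
      rw [← mul_assoc, e1, mul_assoc, t, mul_one]
    rw [sub_mul, mul_sub, mul_sub, e1, e2, ← mul_assoc]
    abel
  rw [h2, Matrix.trace_sub, Matrix.trace_smul, Matrix.trace_smul, tr_P2 h] at h1
  simp only [nsmul_eq_mul, Nat.cast_ofNat] at h1
  linarith

/-- First cubic invariant. -/
def X3 (A : ι → ι → ι → ι → ℝ) : ℝ := (Pm A * Pm A * Pm A).trace

/-- Second cubic invariant. -/
def Y3 (A : ι → ι → ι → ι → ℝ) : ℝ := (Pm A * Pm A * Pm A * Tm).trace

/-- Symmetrized Jacobi coefficients. -/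
noncomputable def Sy (A : ι → ι → ι → ι → ℝ) (a b i j : ι) : ℝ := (A a i b j + A a j b i) / 2

theorem Sy_symm (a b i j : ι) : Sy A a b i j = Sy A a b j i := by
  unfold Sy; ring

theorem Sy_comm (h : IsCurv A) (a b i j : ι) : Sy A a b i j = Sy A b a i j := by
  unfold Sy
  rw [h.pair a i b j, h.pair a j b i]
  ring

/-- The Jacobi operator `J_x` in components. -/
noncomputable def Jf (A : ι → ι → ι → ι → ℝ) (x : ι → ℝ) (a b : ι) : ℝ := qf (Sy A a b) x

theorem Jf_eq (x : ι → ℝ) (a b : ι) : Jf A x a b = ∑ i, ∑ j, A a i b j * (x i * x j) := by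
  unfold Jf qf Sy
  have h1 : ∑ i, ∑ j, (A a i b j + A a j b i) / 2 * (x i * x j) =
      (∑ i, ∑ j, A a i b j * (x i * x j) + ∑ i, ∑ j, A a j b i * (x i * x j)) / 2 := by
    rw [← Finset.sum_add_distrib, Finset.sum_div]
    refine Finset.sum_congr rfl fun i _ => ?_
    rw [← Finset.sum_add_distrib, Finset.sum_div]
    refine Finset.sum_congr rfl fun j _ => ?_
    ring
  have h2 : ∑ i, ∑ j, A a j b i * (x i * x j) = ∑ i, ∑ j, A a i b j * (x i * x j) := by
    rw [Finset.sum_comm]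
    exact Finset.sum_congr rfl fun i _ => Finset.sum_congr rfl fun j _ => by rw [mul_comm (x j)]
  rw [h1, h2]
  ring

/-- Squared length. -/
def n2 (x : ι → ℝ) : ℝ := ∑ i, x i ^ 2

theorem n2_eq (x : ι → ℝ) : n2 x = qf (fun i j => dl i j) x := by
  unfold n2 qf
  refine Finset.sum_congr rfl fun i _ => ?_
  have := sum_dl (fun j => x i * x j) i
  rw [show x i ^ 2 = x i * x i by ring, ← this]
  exact Finset.sum_congr rfl fun j _ => by ring

/-- `tr J²`. -/
noncomputable def tJ2 (A : ι → ι → ι → ι → ℝ) (x : ι → ℝ) : ℝ :=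
  ∑ a, ∑ b, Jf A x a b * Jf A x a b

/-- `tr J³`. -/
noncomputable def tJ3 (A : ι → ι → ι → ι → ℝ) (x : ι → ℝ) : ℝ :=
  ∑ a, ∑ b, ∑ c, Jf A x a b * Jf A x b c * Jf A x c a

/-- `R(J,J)`. -/
noncomputable def WJ (A : ι → ι → ι → ι → ℝ) (x : ι → ℝ) : ℝ :=
  ∑ a, ∑ b, ∑ c, ∑ d, A a c b d * (Jf A x a b * Jf A x c d)

/-- The Einstein condition with constant `n - 1`. -/
def IsEin (A : ι → ι → ι → ι → ℝ) : Prop :=
  ∀ a b, ∑ i, A a i b i = ((Fintype.card ι : ℝ) - 1) * dl a b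

theorem tr_Sy (hE : IsEin A) (a b : ι) :
    ∑ i, Sy A a b i i = ((Fintype.card ι : ℝ) - 1) * dl a b := by
  rw [← hE a b]
  exact Finset.sum_congr rfl fun i _ => by unfold Sy; ring

theorem dl_self (a : ι) : dl a a = 1 := by simp [dl]

theorem dl_comm (a b : ι) : dl a b = dl b a := by
  unfold dl
  by_cases h : a = b
  · subst h; rfl
  · simp [h, Ne.symm h]

theorem tr_dl : ∑ i : ι, dl i i = (Fintype.card ι : ℝ) := by
  simp [dl_self]

theorem t2_dl (Q : ι → ι → ℝ) : t2 (fun i j => dl i j) Q = ∑ i, Q i i := by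
  unfold t2
  refine Finset.sum_congr rfl fun i _ => ?_
  have := sum_dl (Q i) i
  rw [← this]
  exact Finset.sum_congr rfl fun j _ => by ring

theorem t3_dl (Q S : ι → ι → ℝ) (hS : ∀ i j, S i j = S j i) :
    t3 (fun i j => dl i j) Q S = t2 Q S := by
  unfold t3 t2
  refine Finset.sum_congr rfl fun i _ => ?_
  rw [Finset.sum_comm]
  refine Finset.sum_congr rfl fun k _ => ?_
  have := sum_dl (fun j => Q j k * S k i) i
  rw [hS i k, ← this]
  exact Finset.sum_congr rfl fun j _ => by ring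

theorem Ex_n2qf (Q S : ι → ι → ℝ) (hQ : ∀ i j, Q i j = Q j i) (hS : ∀ i j, S i j = S j i) :
    Ex (fun x => n2 x * qf Q x * qf S x) =
      ((Fintype.card ι : ℝ) + 4) * ((∑ i, Q i i) * (∑ i, S i i) + 2 * t2 Q S) := by
  have e : (fun x : ι → ℝ => n2 x * qf Q x * qf S x) =
      fun x => qf (fun i j => dl i j) x * qf Q x * qf S x := by
    ext x; rw [n2_eq]
  rw [e, Ex_qf3 _ _ _ (fun i j => dl_comm i j) hQ hS, tr_dl, t2_dl, t2_dl, t3_dl _ _ hS]
  ring

theorem Sy_P (h : IsCurv A) (a b i j : ι) :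
    Sy A a b i j = (Pm A + Pm A * Tm : Matrix (ι × ι) (ι × ι) ℝ) (a, b) (i, j) / 2 := by
  rw [Matrix.add_apply, mul_T]
  simp only [Pm, Matrix.of_apply, Prod.swap, Prod.fst_swap, Prod.snd_swap]
  rfl

theorem Sy_K (h : IsCurv A) (a b i j : ι) :
    Sy A a b i j = (Pm A - 2 • (Pm A * Tm) : Matrix (ι × ι) (ι × ι) ℝ) (a, i) (b, j) / 2 := by
  rw [Matrix.sub_apply, Matrix.smul_apply, mul_T]
  simp only [Pm, Matrix.of_apply, Prod.swap, Prod.fst_swap, Prod.snd_swap]
  unfold Sy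
  have b1 := h.bi a b i j
  have i1 := h.a1 b i a j
  have i2 := h.a2 a j b i
  have i3 := h.a1 i a b j
  have i4 := h.pair b i a j
  have i5 := h.pair a j b i
  simp only [nsmul_eq_mul, Nat.cast_ofNat]
  linarith

theorem sum_t2 (h : IsCurv A) : ∑ a, ∑ b, t2 (Sy A a b) (Sy A a b) = 3 / 4 * nS A := by
  have e0 : ∀ a b, t2 (Sy A a b) (Sy A a b) = ∑ q : ι × ι,
      (Pm A + Pm A * Tm : Matrix (ι × ι) (ι × ι) ℝ) (a, b) q *
      (Pm A + Pm A * Tm : Matrix (ι × ι) (ι × ι) ℝ) q (a, b) / 4 := by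
    intro a b
    unfold t2
    rw [Fintype.sum_prod_type]
    refine Finset.sum_congr rfl fun i _ => Finset.sum_congr rfl fun j _ => ?_
    rw [Sy_P h]
    have : (Pm A + Pm A * Tm : Matrix (ι × ι) (ι × ι) ℝ) (i, j) (a, b) =
      (Pm A + Pm A * Tm : Matrix (ι × ι) (ι × ι) ℝ) (a, b) (i, j) := by
      rw [Matrix.add_apply, Matrix.add_apply, P_comm h, T_mul, ← P_comm h,
        mul_T, P_symm h (i, j) (a, b), P_symm h (i, j).swap (a, b)]
    rw [this]; ring
  have e1 : ∑ a, ∑ b, t2 (Sy A a b) (Sy A a b) =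
      ((Pm A + Pm A * Tm) * (Pm A + Pm A * Tm)).trace / 4 := by
    rw [Matrix.trace, Fintype.sum_prod_type, Finset.sum_div]
    refine Finset.sum_congr rfl fun a _ => ?_
    rw [Finset.sum_div]
    refine Finset.sum_congr rfl fun b _ => ?_
    rw [e0, Matrix.diag_apply, Matrix.mul_apply, Finset.sum_div]
  have h2 : (Pm A + Pm A * Tm) * (Pm A + Pm A * Tm) = 2 • (Pm A * Pm A) +
      2 • (Pm A * Pm A * Tm) := by
    have c := P_comm h
    have t := T_sq (ι := ι)
    have e1 : Pm A * Tm * Pm A = Pm A * Pm A * Tm := by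
      rw [mul_assoc, ← c, mul_assoc]
    have e2 : Pm A * Tm * (Pm A * Tm) = Pm A * Pm A := by
      rw [← mul_assoc, e1, mul_assoc, t, mul_one]
    rw [add_mul, mul_add, mul_add, e1, e2, ← mul_assoc]
    abel
  rw [e1, h2, Matrix.trace_add, Matrix.trace_smul, Matrix.trace_smul, tr_P2 h, tr_P2T h]
  simp only [nsmul_eq_mul, Nat.cast_ofNat]
  ring

theorem K_cube (h : IsCurv A) : (Pm A - 2 • (Pm A * Tm)) * (Pm A - 2 • (Pm A * Tm)) *
    (Pm A - 2 • (Pm A * Tm)) = 13 • (Pm A * Pm A * Pm A) - 14 • (Pm A * Pm A * Pm A * Tm) := by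
  have c := P_comm h
  have t := T_sq (ι := ι)
  have e1 : ∀ B : Matrix (ι × ι) (ι × ι) ℝ, B * Tm * Pm A = B * Pm A * Tm := by
    intro B
    rw [mul_assoc, ← c, mul_assoc]
  have e2 : ∀ B : Matrix (ι × ι) (ι × ι) ℝ, B * Tm * Tm = B := by
    intro B
    rw [mul_assoc, t, mul_one]
  simp only [sub_mul, mul_sub, smul_mul_assoc, mul_smul_comm, ← mul_assoc, e1, e2]
  simp only [smul_sub, smul_smul]
  abel

theorem sum_t3 (h : IsCurv A) :
    8 * ∑ a, ∑ b, ∑ c, t3 (Sy A a b) (Sy A b c) (Sy A c a) = 13 * X3 A - 14 * Y3 A := by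
  set K : Matrix (ι × ι) (ι × ι) ℝ := Pm A - 2 • (Pm A * Tm) with hK
  have e0 : 8 * ∑ a, ∑ b, ∑ c, t3 (Sy A a b) (Sy A b c) (Sy A c a) = (K * K * K).trace := by
    have e1 : (K * K * K).trace = ∑ p : ι × ι, ∑ q : ι × ι, ∑ r : ι × ι, K p q * K q r * K r p := by
      rw [Matrix.trace]
      refine Finset.sum_congr rfl fun p _ => ?_
      rw [Matrix.diag_apply, Matrix.mul_apply]
      have e2 : ∀ r, (K * K : Matrix (ι × ι) (ι × ι) ℝ) p r * K r p =
          ∑ q, K p q * K q r * K r p := by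
        intro r
        rw [Matrix.mul_apply, Finset.sum_mul]
      simp only [e2]
      rw [Finset.sum_comm]
    rw [e1]
    simp only [Fintype.sum_prod_type]
    have e3 : ∀ a b c, t3 (Sy A a b) (Sy A b c) (Sy A c a) =
        ∑ i, ∑ j, ∑ k, K (a, i) (b, j) * K (b, j) (c, k) * K (c, k) (a, i) / 8 := by
      intro a b c
      unfold t3
      refine Finset.sum_congr rfl fun i _ => Finset.sum_congr rfl fun j _ =>
        Finset.sum_congr rfl fun k _ => ?_
      rw [Sy_K h, Sy_K h, Sy_K h]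
      ring
    simp only [e3, Finset.mul_sum]
    have e4 : ∀ a b c i j k, 8 * (K (a, i) (b, j) * K (b, j) (c, k) * K (c, k) (a, i) / 8) =
        K (a, i) (b, j) * K (b, j) (c, k) * K (c, k) (a, i) := by
      intro a b c i j k; ring
    simp only [e4]
    -- reorder  a b c i j k  to  a i b j c k
    refine Finset.sum_congr rfl fun a _ => ?_
    have r1 : ∀ b : ι, ∑ c, ∑ i, ∑ j, ∑ k, K (a, i) (b, j) * K (b, j) (c, k) * K (c, k) (a, i) =
        ∑ i, ∑ j, ∑ c, ∑ k, K (a, i) (b, j) * K (b, j) (c, k) * K (c, k) (a, i) := by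
      intro b
      rw [Finset.sum_comm]
      refine Finset.sum_congr rfl fun i _ => ?_
      rw [Finset.sum_comm]
    simp only [r1]
    rw [Finset.sum_comm]
  rw [e0, hK, K_cube h, Matrix.trace_sub, Matrix.trace_smul, Matrix.trace_smul]
  unfold X3 Y3
  simp only [nsmul_eq_mul, Nat.cast_ofNat]

theorem sum_PS (h : IsCurv A) :
    2 * ∑ a, ∑ b, ∑ c, ∑ d, A a c b d * t2 (Sy A a b) (Sy A c d) = X3 A + Y3 A := by
  set L : Matrix (ι × ι) (ι × ι) ℝ := Pm A + Pm A * Tm with hL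
  have hLs : ∀ p q, L p q = L q p := by
    intro p q
    rw [hL, Matrix.add_apply, Matrix.add_apply, P_comm h, T_mul, ← P_comm h,
        mul_T, P_symm h p q, P_symm h p.swap q]
  have e0 : 2 * ∑ a, ∑ b, ∑ c, ∑ d, A a c b d * t2 (Sy A a b) (Sy A c d) =
      (Pm A * L * L).trace / 2 := by
    have e1 : (Pm A * L * L).trace = ∑ p : ι × ι, ∑ q : ι × ι, ∑ r : ι × ι,
        Pm A p q * L q r * L r p := by
      rw [Matrix.trace]
      refine Finset.sum_congr rfl fun p _ => ?_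
      rw [Matrix.diag_apply, Matrix.mul_apply]
      have e2 : ∀ r, (Pm A * L : Matrix (ι × ι) (ι × ι) ℝ) p r * L r p =
          ∑ q, Pm A p q * L q r * L r p := by
        intro r
        rw [Matrix.mul_apply, Finset.sum_mul]
      simp only [e2]
      rw [Finset.sum_comm]
    rw [e1]
    simp only [Fintype.sum_prod_type, Finset.mul_sum, Finset.sum_div]
    refine Finset.sum_congr rfl fun a _ => Finset.sum_congr rfl fun b _ =>
        Finset.sum_congr rfl fun c _ => Finset.sum_congr rfl fun d _ => ?_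
    unfold t2
    rw [Finset.mul_sum, Finset.mul_sum]
    refine Finset.sum_congr rfl fun i _ => ?_
    rw [Finset.mul_sum, Finset.mul_sum]
    refine Finset.sum_congr rfl fun j _ => ?_
    rw [Sy_P h, Sy_P h, ← hL, hLs (i, j) (a, b)]
    simp only [Pm, Matrix.of_apply]
    ring
  have e5 : Pm A * L * L = 2 • (Pm A * Pm A * Pm A) + 2 • (Pm A * Pm A * Pm A * Tm) := by
    have c := P_comm h
    have t := T_sq (ι := ι)
    have e1 : ∀ B : Matrix (ι × ι) (ι × ι) ℝ, B * Tm * Pm A = B * Pm A * Tm := by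
      intro B
      rw [mul_assoc, ← c, mul_assoc]
    have e2 : ∀ B : Matrix (ι × ι) (ι × ι) ℝ, B * Tm * Tm = B := by
      intro B
      rw [mul_assoc, t, mul_one]
    rw [hL]
    simp only [add_mul, mul_add, ← mul_assoc, e1, e2]
    abel
  rw [e0, e5, Matrix.trace_add, Matrix.trace_smul, Matrix.trace_smul]
  unfold X3 Y3
  simp only [nsmul_eq_mul, Nat.cast_ofNat]
  ring

/-- The Weitzenboeck cubic `2(n-1)|R|² - I₇ - 4 I₈`. -/
noncomputable def Qp (A : ι → ι → ι → ι → ℝ) : ℝ :=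
  2 * ((Fintype.card ι : ℝ) - 1) * nS A - 8 * X3 A + 4 * Y3 A

theorem Ex_tJ2 (h : IsCurv A) (hE : IsEin A) :
    Ex (fun x => n2 x * tJ2 A x) = ((Fintype.card ι : ℝ) + 4) *
      ((Fintype.card ι : ℝ) * ((Fintype.card ι : ℝ) - 1) ^ 2 + 3 / 2 * nS A) := by
  have e : (fun x : ι → ℝ => n2 x * tJ2 A x) =
      fun x => ∑ a, ∑ b, n2 x * qf (Sy A a b) x * qf (Sy A a b) x := by
    ext x
    unfold tJ2 Jf
    rw [Finset.mul_sum]
    refine Finset.sum_congr rfl fun a _ => ?_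
    rw [Finset.mul_sum]
    exact Finset.sum_congr rfl fun b _ => by ring
  rw [e]
  simp only [Ex_sum]
  have e1 : ∀ a b, Ex (fun x => n2 x * qf (Sy A a b) x * qf (Sy A a b) x) =
      ((Fintype.card ι : ℝ) + 4) * ((((Fintype.card ι : ℝ) - 1) ^ 2 * dl a b * dl a b) +
        2 * t2 (Sy A a b) (Sy A a b)) := by
    intro a b
    rw [Ex_n2qf _ _ (Sy_symm a b) (Sy_symm a b), tr_Sy hE]
    ring
  simp only [e1]
  simp only [← Finset.mul_sum, Finset.sum_add_distrib, sum_t2 h]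
  have e2 : ∑ a : ι, ∑ b, ((Fintype.card ι : ℝ) - 1) ^ 2 * dl a b * dl a b =
      (Fintype.card ι : ℝ) * ((Fintype.card ι : ℝ) - 1) ^ 2 := by
    have : ∀ a : ι, ∑ b, ((Fintype.card ι : ℝ) - 1) ^ 2 * dl a b * dl a b =
        ((Fintype.card ι : ℝ) - 1) ^ 2 := by
      intro a
      rw [sum_dl (fun b => ((Fintype.card ι : ℝ) - 1) ^ 2 * dl a b) a, dl_self, mul_one]
    simp only [this]
    simp
  rw [e2]
  ring

theorem Ex_tJ3 (h : IsCurv A) (hE : IsEin A) :
    Ex (fun x => tJ3 A x) = (Fintype.card ι : ℝ) * ((Fintype.card ι : ℝ) - 1) ^ 3 +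
      9 / 2 * ((Fintype.card ι : ℝ) - 1) * nS A + 13 * X3 A - 14 * Y3 A := by
  unfold tJ3 Jf
  simp only [Ex_sum]
  set n : ℝ := (Fintype.card ι : ℝ) with hn
  have e1 : ∀ a b c, Ex (fun x => qf (Sy A a b) x * qf (Sy A b c) x * qf (Sy A c a) x) =
      (n - 1) ^ 3 * (dl a b * dl b c * dl c a) +
      2 * ((n - 1) * (dl a b * t2 (Sy A b c) (Sy A c a)) +
        (n - 1) * (dl b c * t2 (Sy A a b) (Sy A c a)) +
        (n - 1) * (dl c a * t2 (Sy A a b) (Sy A b c))) +
      8 * t3 (Sy A a b) (Sy A b c) (Sy A c a) := by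
    intro a b c
    rw [Ex_qf3 _ _ _ (Sy_symm a b) (Sy_symm b c) (Sy_symm c a), tr_Sy hE, tr_Sy hE, tr_Sy hE]
    ring
  simp only [e1]
  simp only [Finset.sum_add_distrib, ← Finset.mul_sum, mul_add]
  have hSy : ∀ a b, Sy A a b = Sy A b a := by
    intro a b; ext i j; exact Sy_comm h a b i j
  have f1 : ∑ a : ι, ∑ b : ι, ∑ c : ι, dl a b * dl b c * dl c a = n := by
    have g1 : ∀ a b : ι, ∑ c, dl a b * dl b c * dl c a = dl a b * dl b a := by
      intro a b
      rw [← sum_dl' (fun c => dl a b * dl b c) a]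
    simp only [g1]
    have g2 : ∀ a : ι, ∑ b, dl a b * dl b a = 1 := by
      intro a
      rw [sum_dl' (fun b => dl a b) a, dl_self]
    simp only [g2]
    simp [hn]
  have f2 : ∑ a : ι, ∑ b : ι, ∑ c : ι, dl a b * t2 (Sy A b c) (Sy A c a) = 3 / 4 * nS A := by
    have g1 : ∀ a b, ∑ c, dl a b * t2 (Sy A b c) (Sy A c a) =
        (∑ c, t2 (Sy A b c) (Sy A c a)) * dl a b := by
      intro a b; rw [← Finset.mul_sum, mul_comm]
    simp only [g1]
    have g2 : ∀ a, ∑ b, (∑ c, t2 (Sy A b c) (Sy A c a)) * dl a b =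
        ∑ c, t2 (Sy A a c) (Sy A c a) := fun a =>
      sum_dl (fun b => ∑ c, t2 (Sy A b c) (Sy A c a)) a
    simp only [g2]
    rw [← sum_t2 h]
    exact Finset.sum_congr rfl fun a _ => Finset.sum_congr rfl fun b _ => by rw [hSy b a]
  have f3 : ∑ a : ι, ∑ b : ι, ∑ c : ι, dl b c * t2 (Sy A a b) (Sy A c a) = 3 / 4 * nS A := by
    have g1 : ∀ a b, ∑ c, dl b c * t2 (Sy A a b) (Sy A c a) = t2 (Sy A a b) (Sy A b a) := by
      intro a b
      rw [← sum_dl (fun c => t2 (Sy A a b) (Sy A c a)) b]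
      exact Finset.sum_congr rfl fun c _ => mul_comm _ _
    simp only [g1]
    rw [← sum_t2 h]
    exact Finset.sum_congr rfl fun a _ => Finset.sum_congr rfl fun b _ => by rw [hSy b a]
  have f4 : ∑ a : ι, ∑ b : ι, ∑ c : ι, dl c a * t2 (Sy A a b) (Sy A b c) = 3 / 4 * nS A := by
    have g1 : ∀ a b, ∑ c, dl c a * t2 (Sy A a b) (Sy A b c) = t2 (Sy A a b) (Sy A b a) := by
      intro a b
      rw [← sum_dl' (fun c => t2 (Sy A a b) (Sy A b c)) a]
      exact Finset.sum_congr rfl fun c _ => mul_comm _ _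
    simp only [g1]
    rw [← sum_t2 h]
    exact Finset.sum_congr rfl fun a _ => Finset.sum_congr rfl fun b _ => by rw [hSy b a]
  have f5 := sum_t3 h
  simp only [← Finset.mul_sum] at f2
  rw [f1, f2, f3, f4]
  linarith

theorem Ex_WJ (h : IsCurv A) (hE : IsEin A) :
    Ex (fun x => n2 x * WJ A x) = ((Fintype.card ι : ℝ) + 4) *
      ((Fintype.card ι : ℝ) * ((Fintype.card ι : ℝ) - 1) ^ 3 + X3 A + Y3 A) := by
  have e : (fun x : ι → ℝ => n2 x * WJ A x) =
      fun x => ∑ a, ∑ b, ∑ c, ∑ d, A a c b d * (n2 x * qf (Sy A a b) x * qf (Sy A c d) x) := by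
    ext x
    unfold WJ Jf
    simp only [Finset.mul_sum]
    refine Finset.sum_congr rfl fun a _ => Finset.sum_congr rfl fun b _ =>
      Finset.sum_congr rfl fun c _ => Finset.sum_congr rfl fun d _ => ?_
    ring
  rw [e]
  simp only [Ex_sum, Ex_smul]
  set n : ℝ := (Fintype.card ι : ℝ) with hn
  have e1 : ∀ a b c d, A a c b d * Ex (fun x => n2 x * qf (Sy A a b) x * qf (Sy A c d) x) =
      (n + 4) * ((n - 1) ^ 2 * (A a c b d * dl c d * dl a b) +
        2 * (A a c b d * t2 (Sy A a b) (Sy A c d))) := by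
    intro a b c d
    rw [Ex_n2qf _ _ (Sy_symm a b) (Sy_symm c d), tr_Sy hE, tr_Sy hE]
    ring
  simp only [e1, ← Finset.mul_sum, Finset.sum_add_distrib]
  rw [mul_add, sum_PS h]
  have f1 : ∑ a : ι, ∑ b : ι, ∑ c : ι, ∑ d : ι, A a c b d * dl c d * dl a b = n * (n - 1) := by
    have g1 : ∀ a b, ∑ c, ∑ d, A a c b d * dl c d * dl a b = (∑ c, A a c b c) * dl a b := by
      intro a b
      rw [Finset.sum_mul]
      refine Finset.sum_congr rfl fun c _ => ?_
      rw [← Finset.sum_mul, sum_dl (fun d => A a c b d) c]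
    simp only [g1]
    have g2 : ∀ a, ∑ b, (∑ c, A a c b c) * dl a b = n - 1 := by
      intro a
      rw [sum_dl (fun b => ∑ c, A a c b c) a, hE a a, dl_self, mul_one]
    simp only [g2]
    rw [Finset.sum_const, Finset.card_univ, nsmul_eq_mul]
  rw [f1]
  ring

/-- The pointwise functional. -/
noncomputable def Phi (A : ι → ι → ι → ι → ℝ) (x : ι → ℝ) : ℝ :=
  6 / 5 * ((Fintype.card ι : ℝ) - 1) * (n2 x * tJ2 A x) -
    ((Fintype.card ι : ℝ) + 4) / 5 * tJ3 A x - n2 x * WJ A x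

theorem Ex_Phi (h : IsCurv A) (hE : IsEin A) :
    Ex (Phi A) = ((Fintype.card ι : ℝ) + 4) * (9 / 20 * Qp A) := by
  have e : Phi A = fun x => (6 / 5 * ((Fintype.card ι : ℝ) - 1)) * (n2 x * tJ2 A x) -
    (((Fintype.card ι : ℝ) + 4) / 5) * tJ3 A x - n2 x * WJ A x := rfl
  rw [e, Ex_sub, Ex_sub, Ex_smul, Ex_smul, Ex_tJ2 h hE, Ex_tJ3 h hE, Ex_WJ h hE]
  unfold Qp
  ring

/-- The deviation functional. -/
noncomputable def Dev (A : ι → ι → ι → ι → ℝ) (x : ι → ℝ) : ℝ :=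
  n2 x * tJ2 A x - ((Fintype.card ι : ℝ) - 1) * (n2 x * n2 x * n2 x)

theorem Ex_n2cube : Ex (fun x : ι → ℝ => n2 x * n2 x * n2 x) =
    (Fintype.card ι : ℝ) * ((Fintype.card ι : ℝ) + 2) * ((Fintype.card ι : ℝ) + 4) := by
  have e : (fun x : ι → ℝ => n2 x * n2 x * n2 x) =
      fun x => n2 x * qf (fun i j => dl i j) x * qf (fun i j => dl i j) x := by
    ext x; rw [n2_eq]
  rw [e, Ex_n2qf _ _ (fun i j => dl_comm i j) (fun i j => dl_comm i j), tr_dl, t2_dl, tr_dl]
  ring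

theorem Ex_Dev (h : IsCurv A) (hE : IsEin A) :
    Ex (Dev A) = ((Fintype.card ι : ℝ) + 4) * (3 / 2 * (nS A -
      2 * (Fintype.card ι : ℝ) * ((Fintype.card ι : ℝ) - 1))) := by
  have e : Dev A = fun x => n2 x * tJ2 A x -
    ((Fintype.card ι : ℝ) - 1) * (n2 x * n2 x * n2 x) := rfl
  rw [e, Ex_sub, Ex_smul, Ex_tJ2 h hE, Ex_n2cube]
  ring

/-- Main averaged inequality: pointwise positivity of `Phi - c Dev` bounds the cubic `Qp`. -/
theorem Qp_ge (h : IsCurv A) (hE : IsEin A) {c : ℝ}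
    (hpt : ∀ x, 0 ≤ Phi A x - c * Dev A x) :
    10 / 3 * c * (nS A - 2 * (Fintype.card ι : ℝ) * ((Fintype.card ι : ℝ) - 1)) ≤ Qp A := by
  have h1 := Ex_nonneg _ hpt
  rw [Ex_sub, Ex_smul, Ex_Phi h hE, Ex_Dev h hE] at h1
  have hn : (0:ℝ) < (Fintype.card ι : ℝ) + 4 := by positivity
  have h2 : 0 ≤ ((Fintype.card ι : ℝ) + 4) * (9 / 20 * Qp A - c * (3 / 2 * (nS A -
      2 * (Fintype.card ι : ℝ) * ((Fintype.card ι : ℝ) - 1)))) := by
    linarith
  have h3 := nonneg_of_mul_nonneg_right h2 hn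
  linarith

end Pool.Agent.L5helper93.Ein
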