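import Mathlib

/-!
# Spectral decomposition of a symmetric matrix with a unit vector in its kernel
-/

set_option linter.unusedVariables false

namespace Pool.Agent.L5helper93.Ein

variable {m : ℕ}

theorem lin_apply (J : Matrix (Fin (m + 1)) (Fin (m + 1)) ℝ) (v : EuclideanSpace ℝ (Fin (m + 1))) (a : Fin (m + 1)) :
    (Matrix.toEuclideanLin J v).ofLp a = ∑ b, J a b * v.ofLp b := by
  have h : Matrix.toEuclideanLin J v = WithLp.toLp 2 (J.mulVec v.ofLp) := rfl
  rw [h]
  rfl

theorem exists_eig (J : Matrix (Fin (m + 1)) (Fin (m + 1)) ℝ) (hJ : J.transpose = J) (x : Fin (m + 1) → ℝ)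
    (hx : ∑ a, x a ^ 2 = 1) (hJx : ∀ a, ∑ b, J a b * x b = 0) :
    ∃ (w : Fin m → Fin (m + 1) → ℝ) (l : Fin m → ℝ),
      (∀ i j, ∑ a, w i a * w j a = if i = j then 1 else 0) ∧
      (∀ i, ∑ a, w i a * x a = 0) ∧
      (∀ i a, ∑ b, J a b * w i b = l i * w i a) := by
  classical
  let E := EuclideanSpace ℝ (Fin (m + 1))
  let T : E →ₗ[ℝ] E := Matrix.toEuclideanLin J
  have hsym : T.IsSymmetric := by
    refine Matrix.isSymmetric_toEuclideanLin_iff.2 ?_
    unfold Matrix.IsHermitian
    rw [Matrix.conjTranspose_eq_transpose_of_trivial, hJ]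
  let xE : E := WithLp.toLp 2 x
  have hTx : T xE = 0 := by
    ext a
    change (Matrix.toEuclideanLin J xE).ofLp a = 0
    rw [lin_apply]
    exact hJx a
  have hxE : xE ≠ 0 := by
    intro h
    have h1 : ∀ a, x a = 0 := fun a => by
      have := congrArg (fun v : E => v a) h
      simpa [xE] using this
    rw [Finset.sum_eq_zero (fun a _ => by rw [h1 a]; norm_num)] at hx
    norm_num at hx
  let K0 : Submodule ℝ E := (ℝ ∙ xE)ᗮ
  have hinv : ∀ v ∈ K0, T v ∈ K0 := by
    intro v hv
    rw [Submodule.mem_orthogonal_singleton_iff_inner_right] at hv ⊢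
    rw [← hsym, hTx, inner_zero_left]
  have : Fact (Module.finrank ℝ E = m + 1) := ⟨by simp [E]⟩
  have hn : Module.finrank ℝ K0 = m := Submodule.finrank_orthogonal_span_singleton hxE
  have hr := hsym.restrict_invariant hinv
  let B := hr.eigenvectorBasis hn
  let l := hr.eigenvalues hn
  refine ⟨fun i a => ((B i : K0) : E) a, l, ?_, ?_, ?_⟩
  · intro i j
    have h1 := B.orthonormal
    rw [orthonormal_iff_ite] at h1
    have h2 := h1 i j
    rw [Submodule.coe_inner, PiLp.inner_apply] at h2
    simp only [RCLike.inner_apply, conj_trivial] at h2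
    rw [← h2]
    exact Finset.sum_congr rfl fun a _ => mul_comm _ _
  · intro i
    have h1 := (B i).2
    rw [Submodule.mem_orthogonal_singleton_iff_inner_right, PiLp.inner_apply] at h1
    simp only [RCLike.inner_apply, conj_trivial] at h1
    rw [← h1]
  · intro i a
    have h1 := hr.apply_eigenvectorBasis hn i
    have h2 : T ((B i : K0) : E) = l i • ((B i : K0) : E) := by
      have := congrArg (fun v : K0 => (v : E)) h1
      exact this
    have h3 := congrArg (fun v : E => v.ofLp a) h2
    change (Matrix.toEuclideanLin J ((B i : K0) : E)).ofLp a = l i * ((B i : K0) : E).ofLp a at h3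
    rw [lin_apply] at h3
    exact h3

theorem exists_frame (J : Matrix (Fin (m + 1)) (Fin (m + 1)) ℝ) (hJ : J.transpose = J) (x : Fin (m + 1) → ℝ)
    (hx : ∑ a, x a ^ 2 = 1) (hJx : ∀ a, ∑ b, J a b * x b = 0) :
    ∃ (w : Fin m → Fin (m + 1) → ℝ) (l : Fin m → ℝ),
      (∀ i j, ∑ a, w i a * w j a = if i = j then 1 else 0) ∧
      (∀ i, ∑ a, w i a * x a = 0) ∧
      (∀ a b, (∑ i, w i a * w i b) + x a * x b = if a = b then 1 else 0) ∧
      (∀ a b, J a b = ∑ i, l i * (w i a * w i b)) := by
  classical
  obtain ⟨w, l, h1, h2, h3⟩ := exists_eig J hJ x hx hJx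
  have hc : ∀ a b, (∑ i, w i a * w i b) + x a * x b = if a = b then 1 else 0 := by
    let U : Matrix (Fin (m + 1)) (Fin (m + 1)) ℝ := Matrix.of (Fin.cons x w : Fin (m + 1) → Fin (m + 1) → ℝ)
    have hU : U * U.transpose = 1 := by
      ext i j
      rw [Matrix.mul_apply]
      simp only [Matrix.transpose_apply, U, Matrix.of_apply]
      rw [Matrix.one_apply]
      refine Fin.cases ?_ (fun i => ?_) i <;> refine Fin.cases ?_ (fun j => ?_) j
      · simp only [Fin.cons_zero, if_true]
        rw [← hx]
        exact Finset.sum_congr rfl fun a _ => (pow_two _).symm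
      · simp only [Fin.cons_zero, Fin.cons_succ]
        rw [if_neg (Fin.succ_ne_zero j).symm, ← h2 j]
        exact Finset.sum_congr rfl fun a _ => mul_comm _ _
      · simp only [Fin.cons_zero, Fin.cons_succ]
        rw [if_neg (Fin.succ_ne_zero i), ← h2 i]
      · simp only [Fin.cons_succ]
        rw [h1 i j]
        by_cases h : i = j
        · simp [h]
        · rw [if_neg h, if_neg (fun h' => h (Fin.succ_injective _ h'))]
    have hU' : U.transpose * U = 1 := by
      rw [mul_eq_one_comm] at hU
      exact hU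
    intro a b
    have h := congrFun (congrFun hU' a) b
    rw [Matrix.mul_apply, Matrix.one_apply] at h
    simp only [Matrix.transpose_apply, U, Matrix.of_apply] at h
    rw [Fin.sum_univ_succ] at h
    simp only [Fin.cons_zero, Fin.cons_succ] at h
    rw [← h]
    ring
  refine ⟨w, l, h1, h2, hc, ?_⟩
  intro a b
  have e1 : J a b = ∑ c, J a c * (if c = b then 1 else 0) := by simp
  rw [e1]
  have e2 : ∀ c, J a c * (if c = b then (1 : ℝ) else 0) =
      (∑ i, J a c * w i c * w i b) + J a c * x c * x b := by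
    intro c
    rw [← hc c b, mul_add, Finset.mul_sum]
    congr 1
    · exact Finset.sum_congr rfl fun i _ => by ring
    · ring
  rw [Finset.sum_congr rfl fun c _ => e2 c, Finset.sum_add_distrib, Finset.sum_comm,
    ← Finset.sum_mul, hJx a, zero_mul, add_zero]
  refine Finset.sum_congr rfl fun i _ => ?_
  rw [← Finset.sum_mul, h3 i a]
  ring

end Pool.Agent.L5helper93.Ein
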