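import Mathlib

/-!
# The two-variable inequality behind the pinching theorem
-/

namespace Pool.Agent.L5helper93.Ein

/-- The Bernstein form of the discriminant. -/
theorem disc_id (M X Y : ℝ) (h : Y = 1 - X) :
    6250000 * (4 * (M + 3 + X) * ((3 * (M + 4) - 1 / 20) * (7 * (M + 4) - 3) + 5 * (4 * (M + 5)) +
      10 * X * (4 * (M + 5))) * ((M + 3) * (((3 * (M + 4) - 1 / 20) * (7 * (M + 4) - 3) +
      5 * (4 * (M + 5))) - (M + 9) * (4 * (M + 5)) * X) -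
      2 * (29 / 50) ^ 3 * ((M + 9) * (4 * (M + 5))) * (M + 3 + X) * X) -
      (X * (((3 * (M + 4) - 1 / 20) * (7 * (M + 4) - 3) + 5 * (4 * (M + 5))) -
        (M + 9) * (4 * (M + 5)) * X) + 10 * (4 * (M + 5)) * (M + 3) * (M + 3 + X) -
        3 * (29 / 50) ^ 2 * ((M + 9) * (4 * (M + 5))) * (M + 3 + X) * X) ^ 2) =
    15525351562500 * (M ^ 0 * X ^ 0 * Y ^ 4) +
    59308929727500 * (M ^ 0 * X ^ 1 * Y ^ 3) +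
    76761013120475 * (M ^ 0 * X ^ 2 * Y ^ 2) +
    34240637805850 * (M ^ 0 * X ^ 3 * Y ^ 1) +
    94532110775 * (M ^ 0 * X ^ 4 * Y ^ 0) +
    20806743750000 * (M ^ 1 * X ^ 0 * Y ^ 4) +
    77300624652700 * (M ^ 1 * X ^ 1 * Y ^ 3) +
    97945303981790 * (M ^ 1 * X ^ 2 * Y ^ 2) +
    43929521326240 * (M ^ 1 * X ^ 3 * Y ^ 1) +
    1789947742510 * (M ^ 1 * X ^ 4 * Y ^ 0) +
    11185292875000 * (M ^ 2 * X ^ 0 * Y ^ 4) +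
    40384250337540 * (M ^ 2 * X ^ 1 * Y ^ 3) +
    49937217762979 * (M ^ 2 * X ^ 2 * Y ^ 2) +
    22306363732194 * (M ^ 2 * X ^ 3 * Y ^ 1) +
    1422991507051 * (M ^ 2 * X ^ 4 * Y ^ 0) +
    3069575250000 * (M ^ 3 * X ^ 0 * Y ^ 4) +
    10749971101220 * (M ^ 3 * X ^ 1 * Y ^ 3) +
    12911936203428 * (M ^ 3 * X ^ 2 * Y ^ 2) +
    5662975297476 * (M ^ 3 * X ^ 3 * Y ^ 1) +
    418570772276 * (M ^ 3 * X ^ 4 * Y ^ 0) +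
    451303062500 * (M ^ 4 * X ^ 0 * Y ^ 4) +
    1527404817600 * (M ^ 4 * X ^ 1 * Y ^ 3) +
    1768540790848 * (M ^ 4 * X ^ 2 * Y ^ 2) +
    745694531728 * (M ^ 4 * X ^ 3 * Y ^ 1) +
    52851807516 * (M ^ 4 * X ^ 4 * Y ^ 0) +
    33732500000 * (M ^ 5 * X ^ 0 * Y ^ 4) +
    109744440240 * (M ^ 5 * X ^ 1 * Y ^ 3) +
    121172096144 * (M ^ 5 * X ^ 2 * Y ^ 2) +
    47635334640 * (M ^ 5 * X ^ 3 * Y ^ 1) +
    2475178736 * (M ^ 5 * X ^ 4 * Y ^ 0) +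
    1025000000 * (M ^ 6 * X ^ 0 * Y ^ 4) +
    3198929600 * (M ^ 6 * X ^ 1 * Y ^ 3) +
    3344940336 * (M ^ 6 * X ^ 2 * Y ^ 2) +
    1193091872 * (M ^ 6 * X ^ 3 * Y ^ 1) +
    22081136 * (M ^ 6 * X ^ 4 * Y ^ 0) := by
  subst h
  ring

theorem disc_nonneg (M X Y : ℝ) (hM : 0 ≤ M) (hX : 0 ≤ X) (hY : 0 ≤ Y) :
    0 ≤ 15525351562500 * (M ^ 0 * X ^ 0 * Y ^ 4) +
    59308929727500 * (M ^ 0 * X ^ 1 * Y ^ 3) +
    76761013120475 * (M ^ 0 * X ^ 2 * Y ^ 2) +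
    34240637805850 * (M ^ 0 * X ^ 3 * Y ^ 1) +
    94532110775 * (M ^ 0 * X ^ 4 * Y ^ 0) +
    20806743750000 * (M ^ 1 * X ^ 0 * Y ^ 4) +
    77300624652700 * (M ^ 1 * X ^ 1 * Y ^ 3) +
    97945303981790 * (M ^ 1 * X ^ 2 * Y ^ 2) +
    43929521326240 * (M ^ 1 * X ^ 3 * Y ^ 1) +
    1789947742510 * (M ^ 1 * X ^ 4 * Y ^ 0) +
    11185292875000 * (M ^ 2 * X ^ 0 * Y ^ 4) +
    40384250337540 * (M ^ 2 * X ^ 1 * Y ^ 3) +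
    49937217762979 * (M ^ 2 * X ^ 2 * Y ^ 2) +
    22306363732194 * (M ^ 2 * X ^ 3 * Y ^ 1) +
    1422991507051 * (M ^ 2 * X ^ 4 * Y ^ 0) +
    3069575250000 * (M ^ 3 * X ^ 0 * Y ^ 4) +
    10749971101220 * (M ^ 3 * X ^ 1 * Y ^ 3) +
    12911936203428 * (M ^ 3 * X ^ 2 * Y ^ 2) +
    5662975297476 * (M ^ 3 * X ^ 3 * Y ^ 1) +
    418570772276 * (M ^ 3 * X ^ 4 * Y ^ 0) +
    451303062500 * (M ^ 4 * X ^ 0 * Y ^ 4) +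
    1527404817600 * (M ^ 4 * X ^ 1 * Y ^ 3) +
    1768540790848 * (M ^ 4 * X ^ 2 * Y ^ 2) +
    745694531728 * (M ^ 4 * X ^ 3 * Y ^ 1) +
    52851807516 * (M ^ 4 * X ^ 4 * Y ^ 0) +
    33732500000 * (M ^ 5 * X ^ 0 * Y ^ 4) +
    109744440240 * (M ^ 5 * X ^ 1 * Y ^ 3) +
    121172096144 * (M ^ 5 * X ^ 2 * Y ^ 2) +
    47635334640 * (M ^ 5 * X ^ 3 * Y ^ 1) +
    2475178736 * (M ^ 5 * X ^ 4 * Y ^ 0) +
    1025000000 * (M ^ 6 * X ^ 0 * Y ^ 4) +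
    3198929600 * (M ^ 6 * X ^ 1 * Y ^ 3) +
    3344940336 * (M ^ 6 * X ^ 2 * Y ^ 2) +
    1193091872 * (M ^ 6 * X ^ 3 * Y ^ 1) +
    22081136 * (M ^ 6 * X ^ 4 * Y ^ 0) := by
  positivity

end Pool.Agent.L5helper93.Ein
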