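import Mathlib
import Pool.Agent.L5helper93.Ein.Disc

/-!
# The two-variable inequality and the finite sum inequality
-/

namespace Pool.Agent.L5helper93.Ein

theorem disc_t {N t X : ℝ} (hN : 4 ≤ N) (ht : t * (7 * N - 3) = 4 * (N + 1)) (hX : 0 ≤ X)
    (hX1 : X ≤ 1) :
    0 ≤ 4 * (N - 1 + X) * (3 * N - 1 / 20 + 5 * t + 10 * X * t) * ((N - 1) * (3 * N - 1 / 20 +
      5 * t - (N + 5) * t * X) - 2 * (29 / 50) ^ 3 * ((N + 5) * t) * (N - 1 + X) * X) -
      (X * (3 * N - 1 / 20 + 5 * t - (N + 5) * t * X) + 10 * t * (N - 1) * (N - 1 + X) -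
        3 * (29 / 50) ^ 2 * ((N + 5) * t) * (N - 1 + X) * X) ^ 2 := by
  obtain ⟨M, rfl⟩ : ∃ M, N = M + 4 := ⟨N - 4, by ring⟩
  have hM : 0 ≤ M := by linarith
  have hD : 0 < 7 * (M + 4) - 3 := by linarith
  have h4 : 4 * (M + 5) = t * (7 * (M + 4) - 3) := by rw [ht]; ring
  have h := disc_nonneg M X (1 - X) hM hX (by linarith)
  rw [← disc_id M X (1 - X) rfl, h4] at h
  have h2 : 0 ≤ (6250000 * (7 * (M + 4) - 3) ^ 2) *
      (4 * (M + 4 - 1 + X) * (3 * (M + 4) - 1 / 20 + 5 * t + 10 * X * t) *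
      ((M + 4 - 1) * (3 * (M + 4) - 1 / 20 +
      5 * t - (M + 4 + 5) * t * X) - 2 * (29 / 50) ^ 3 * ((M + 4 + 5) * t) *
      (M + 4 - 1 + X) * X) -
      (X * (3 * (M + 4) - 1 / 20 + 5 * t - (M + 4 + 5) * t * X) + 10 * t * (M + 4 - 1) *
        (M + 4 - 1 + X) -
        3 * (29 / 50) ^ 2 * ((M + 4 + 5) * t) * (M + 4 - 1 + X) * X) ^ 2) := by
    refine h.trans (le_of_eq ?_)
    ring
  exact nonneg_of_mul_nonneg_right h2 (by positivity)

theorem two_scaled {N t X U : ℝ} (hN : 4 ≤ N) (ht : t * (7 * N - 3) = 4 * (N + 1)) (hX : 0 ≤ X)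
    (hX1 : X ≤ 1) (hU : 0 ≤ U) :
    0 ≤ X ^ 2 * (3 * N - 1 / 20 + 5 * t - (N + 5) * t * X) * (N - 1 - U) +
      U ^ 2 * (3 * N - 1 / 20 + 5 * t + (N + 5) * t * U) * (N - 1 + X) -
      10 * t * X * U * (N - 1 + X) * (N - 1 - U) := by
  have hD : 0 < 7 * N - 3 := by linarith
  have ht0 : 0 < t := by
    by_contra h
    have : t * (7 * N - 3) ≤ 0 := mul_nonpos_of_nonpos_of_nonneg (by linarith) hD.le
    linarith
  have hd := disc_t hN ht hX hX1
  set m : ℝ := N - 1 with hm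
  have hm0 : 3 ≤ m := by rw [hm]; linarith
  set al : ℝ := 3 * N - 1 / 20 + 5 * t with hal
  have hal0 : 0 < al := by rw [hal]; linarith
  set be : ℝ := (N + 5) * t with hbe
  have hbe0 : 0 < be := by rw [hbe]; exact mul_pos (by linarith) ht0
  have hc0 : (0:ℝ) ≤ be * (m + X) * ((U - 29 / 50 * X) ^ 2 * (U + 2 * (29 / 50) * X)) := by
    have : 0 ≤ m + X := by linarith
    positivity
  have ha2 : 0 < 4 * ((m + X) * (al + 10 * X * t)) := by
    have : 0 < m + X := by linarith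
    positivity
  have key : 0 ≤ (4 * ((m + X) * (al + 10 * X * t))) *
      ((m + X) * (al + 10 * X * t) * U ^ 2 -
        (X * (X * (al - be * X) + 10 * t * m * (m + X) - 3 * (29 / 50) ^ 2 * be * (m + X) * X)) * U
        + X ^ 2 * (m * (al - be * X) - 2 * (29 / 50) ^ 3 * be * (m + X) * X)) := by
    have e : (4 * ((m + X) * (al + 10 * X * t))) *
      ((m + X) * (al + 10 * X * t) * U ^ 2 -
        (X * (X * (al - be * X) + 10 * t * m * (m + X) - 3 * (29 / 50) ^ 2 * be * (m + X) * X)) * U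
        + X ^ 2 * (m * (al - be * X) - 2 * (29 / 50) ^ 3 * be * (m + X) * X)) =
        (2 * ((m + X) * (al + 10 * X * t)) * U - X * (X * (al - be * X) + 10 * t * m * (m + X) -
          3 * (29 / 50) ^ 2 * be * (m + X) * X)) ^ 2 + X ^ 2 *
        (4 * (m + X) * (al + 10 * X * t) * (m * (al - be * X) - 2 * (29 / 50) ^ 3 * be *
          (m + X) * X) - (X * (al - be * X) + 10 * t * m * (m + X) - 3 * (29 / 50) ^ 2 * be *
          (m + X) * X) ^ 2) := by ring
    rw [e]
    have := mul_nonneg (sq_nonneg X) hd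
    positivity
  have key2 := nonneg_of_mul_nonneg_right key ha2
  refine (add_nonneg hc0 key2).trans (le_of_eq ?_)
  ring

theorem two_var {N t x u : ℝ} (hN : 4 ≤ N) (ht : t * (7 * N - 3) = 4 * (N + 1)) (hx0 : 0 ≤ x)
    (hx : x ≤ t) (hu : 0 ≤ u) :
    0 ≤ x ^ 2 * (3 * N - 1 / 20 + 5 * t - (N + 5) * x) * ((N - 1) * t - u) +
      u ^ 2 * (3 * N - 1 / 20 + 5 * t + (N + 5) * u) * ((N - 1) * t + x) -
      10 * x * u * ((N - 1) * t + x) * ((N - 1) * t - u) := by
  have hD : 0 < 7 * N - 3 := by linarith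
  have ht0 : 0 < t := by
    by_contra h
    have : t * (7 * N - 3) ≤ 0 := mul_nonpos_of_nonpos_of_nonneg (by linarith) hD.le
    linarith
  have h := two_scaled hN ht (X := x / t) (U := u / t) (by positivity)
    ((div_le_one ht0).2 hx) (by positivity)
  have h3 := mul_nonneg (pow_pos ht0 3).le h
  refine h3.trans (le_of_eq ?_)
  field_simp

/-- The cubic `α ε² - (N+5) ε³`. -/
noncomputable def cub (N t e : ℝ) : ℝ := (3 * N - 1 / 20 + 5 * t) * e ^ 2 - (N + 5) * e ^ 3

theorem t_le_one {N t : ℝ} (hN : 4 ≤ N) (ht : t * (7 * N - 3) = 4 * (N + 1)) :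
    0 < t ∧ t ≤ 1 := by
  have hD : 0 < 7 * N - 3 := by linarith
  constructor
  · by_contra h
    have : t * (7 * N - 3) ≤ 0 := mul_nonpos_of_nonpos_of_nonneg (by linarith) hD.le
    linarith
  · by_contra h
    push Not at h
    have : (7 * N - 3) < t * (7 * N - 3) := by nlinarith
    linarith

theorem pair_ineq {N t x y : ℝ} (hN : 4 ≤ N) (ht : t * (7 * N - 3) = 4 * (N + 1))
    (hx : x ≤ t) (hy : y ≤ t) (hBx : 0 ≤ (N - 1) * t + x) (hBy : 0 ≤ (N - 1) * t + y) :
    0 ≤ cub N t x * ((N - 1) * t + y) + cub N t y * ((N - 1) * t + x) +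
      10 * x * y * (((N - 1) * t + x) * ((N - 1) * t + y)) := by
  obtain ⟨ht0, ht1⟩ := t_le_one hN ht
  have hcub : ∀ z, z ≤ t → 0 ≤ cub N t z := by
    intro z hz
    have e : cub N t z = z ^ 2 * (3 * N - 1 / 20 + 5 * t - (N + 5) * z) := by
      unfold cub; ring
    rw [e]
    apply mul_nonneg (sq_nonneg z)
    nlinarith
  rcases le_total 0 x with h1 | h1 <;> rcases le_total 0 y with h2 | h2
  · have a1 := mul_nonneg (hcub x hx) hBy
    have a2 := mul_nonneg (hcub y hy) hBx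
    have a3 := mul_nonneg (mul_nonneg h1 h2) (mul_nonneg hBx hBy)
    nlinarith
  · have h := two_var hN ht h1 hx (u := -y) (by linarith)
    unfold cub
    refine h.trans (le_of_eq ?_)
    ring
  · have h := two_var hN ht h2 hy (u := -x) (by linarith)
    unfold cub
    refine h.trans (le_of_eq ?_)
    ring
  · have a1 := mul_nonneg (hcub x hx) hBy
    have a2 := mul_nonneg (hcub y hy) hBx
    have a3 := mul_nonneg (mul_nonneg_of_nonpos_of_nonpos h1 h2) (mul_nonneg hBx hBy)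
    nlinarith

theorem sum_ineq {κ : Type*} [Fintype κ] {N t : ℝ} (hN : 4 ≤ N)
    (ht : t * (7 * N - 3) = 4 * (N + 1)) (e : κ → ℝ) (he : ∀ a, e a ≤ t) (s : κ → κ → ℝ)
    (hs : ∀ a b, 0 ≤ s a b) (hsym : ∀ a b, s a b = s b a)
    (hrow : ∀ a, ∑ b, s a b = (N - 1) * t + e a) :
    0 ≤ ∑ a, cub N t (e a) + 5 * ∑ a, ∑ b, s a b * (e a * e b) := by
  obtain ⟨ht0, ht1⟩ := t_le_one hN ht
  have hB : ∀ a, 0 ≤ (N - 1) * t + e a := fun a => by
    rw [← hrow a]; exact Finset.sum_nonneg fun b _ => hs a b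
  have hcub : ∀ z, z ≤ t → 0 ≤ cub N t z := by
    intro z hz
    have e : cub N t z = z ^ 2 * (3 * N - 1 / 20 + 5 * t - (N + 5) * z) := by
      unfold cub; ring
    rw [e]
    apply mul_nonneg (sq_nonneg z)
    nlinarith
  set f : κ → ℝ := fun a => cub N t (e a) / ((N - 1) * t + e a) with hf
  have h1 : ∀ a, ∑ b, s a b * f a ≤ cub N t (e a) := by
    intro a
    rw [← Finset.sum_mul, hrow a]
    rcases eq_or_lt_of_le (hB a) with h | h
    · rw [← h, zero_mul]
      exact hcub _ (he a)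
    · rw [hf]
      simp only
      rw [mul_div_cancel₀ _ h.ne']
  have h2 : ∑ a, ∑ b, s a b * f a = ∑ a, ∑ b, s a b * ((f a + f b) / 2) := by
    have h3 : ∑ a, ∑ b, s a b * f b = ∑ a, ∑ b, s a b * f a := by
      rw [Finset.sum_comm]
      refine Finset.sum_congr rfl fun a _ => Finset.sum_congr rfl fun b _ => ?_
      rw [hsym b a]
    have h4 : ∑ a, ∑ b, s a b * ((f a + f b) / 2) =
        (∑ a, ∑ b, s a b * f a + ∑ a, ∑ b, s a b * f b) / 2 := by
      rw [← Finset.sum_add_distrib, Finset.sum_div]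
      refine Finset.sum_congr rfl fun a _ => ?_
      rw [← Finset.sum_add_distrib, Finset.sum_div]
      refine Finset.sum_congr rfl fun b _ => ?_
      ring
    rw [h4, h3]; ring
  have h5 : 0 ≤ ∑ a, ∑ b, s a b * ((f a + f b) / 2 + 5 * (e a * e b)) := by
    refine Finset.sum_nonneg fun a _ => Finset.sum_nonneg fun b _ => ?_
    rcases eq_or_lt_of_le (hs a b) with h | h
    · rw [← h, zero_mul]
    · have ha : 0 < (N - 1) * t + e a := by
        rw [← hrow a]
        exact lt_of_lt_of_le h (Finset.single_le_sum (f := s a) (fun b _ => hs a b)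
          (Finset.mem_univ b))
      have hb : 0 < (N - 1) * t + e b := by
        rw [← hrow b]
        rw [hsym] at h
        exact lt_of_lt_of_le h (Finset.single_le_sum (f := s b) (fun c _ => hs b c)
          (Finset.mem_univ a))
      refine mul_nonneg h.le ?_
      have hp := pair_ineq hN ht (he a) (he b) ha.le hb.le
      have e1 : (f a + f b) / 2 + 5 * (e a * e b) =
          (cub N t (e a) * ((N - 1) * t + e b) + cub N t (e b) * ((N - 1) * t + e a) +
      10 * e a * e b * (((N - 1) * t + e a) * ((N - 1) * t + e b))) /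
        (2 * (((N - 1) * t + e a) * ((N - 1) * t + e b))) := by
        rw [hf]
        field_simp
        ring
      rw [e1]
      positivity
  have h6 : ∑ a, ∑ b, s a b * f a ≤ ∑ a, cub N t (e a) := Finset.sum_le_sum fun a _ => h1 a
  have h7 : ∑ a, ∑ b, s a b * ((f a + f b) / 2 + 5 * (e a * e b)) =
      ∑ a, ∑ b, s a b * ((f a + f b) / 2) + 5 * ∑ a, ∑ b, s a b * (e a * e b) := by
    rw [Finset.mul_sum, ← Finset.sum_add_distrib]
    refine Finset.sum_congr rfl fun a _ => ?_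
    rw [Finset.mul_sum, ← Finset.sum_add_distrib]
    refine Finset.sum_congr rfl fun b _ => ?_
    ring
  rw [h7, ← h2] at h5
  linarith

end Pool.Agent.L5helper93.Ein
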