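import Mathlib
import Pool.Agent.L5helper93.Ein.Alg
import Pool.Agent.L5helper93.Ein.Frame
import Pool.Agent.L5helper93.Ein.TwoVar

/-!
# The pointwise inequality
-/

namespace Pool.Agent.L5helper93.Ein

open Finset

set_option linter.unusedSectionVars false
set_option linter.unusedVariables false
set_option linter.unusedSimpArgs false

variable {m : ℕ} {A : Fin (m + 1) → Fin (m + 1) → Fin (m + 1) → Fin (m + 1) → ℝ}

/-- The sectional curvature numerator `A(u,v,u,v)`. -/
def Kf (A : Fin (m + 1) → Fin (m + 1) → Fin (m + 1) → Fin (m + 1) → ℝ)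
    (u v : Fin (m + 1) → ℝ) : ℝ :=
  ∑ a, ∑ b, ∑ c, ∑ d, A a b c d * (u a * v b * (u c * v d))

/-- All sectional curvatures are at most `k`. -/
def SecLE (A : Fin (m + 1) → Fin (m + 1) → Fin (m + 1) → Fin (m + 1) → ℝ) (k : ℝ) : Prop :=
  ∀ u v : Fin (m + 1) → ℝ, ∑ a, u a ^ 2 = 1 → ∑ a, v a ^ 2 = 1 → ∑ a, u a * v a = 0 →
    Kf A u v ≤ k

theorem Kf_symm (h : IsCurv A) (u v : Fin (m + 1) → ℝ) : Kf A u v = Kf A v u := by
  unfold Kf
  rw [Finset.sum_comm]
  refine Finset.sum_congr rfl fun b _ => Finset.sum_congr rfl fun a _ => ?_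
  rw [Finset.sum_comm]
  refine Finset.sum_congr rfl fun d _ => Finset.sum_congr rfl fun c _ => ?_
  rw [h.a1 a b c d, h.a2 b a c d]
  ring

theorem Kf_Jf (x v : Fin (m + 1) → ℝ) :
    Kf A v x = ∑ a, ∑ b, Jf A x a b * (v a * v b) := by
  unfold Kf
  refine Finset.sum_congr rfl fun a _ => ?_
  rw [Finset.sum_comm]
  refine Finset.sum_congr rfl fun c _ => ?_
  rw [Jf_eq, Finset.sum_mul]
  refine Finset.sum_congr rfl fun b _ => ?_
  rw [Finset.sum_mul]
  refine Finset.sum_congr rfl fun d _ => ?_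
  ring

theorem Jf_symm (h : IsCurv A) (x : Fin (m + 1) → ℝ) (a b : Fin (m + 1)) :
    Jf A x a b = Jf A x b a := by
  unfold Jf
  congr 1
  ext i j
  exact Sy_comm h a b i j

theorem Jf_ker (h : IsCurv A) (x : Fin (m + 1) → ℝ) (a : Fin (m + 1)) :
    ∑ b, Jf A x a b * x b = 0 := by
  have e : ∑ b, Jf A x a b * x b = ∑ b, ∑ i, ∑ j, A a i b j * (x i * x j) * x b := by
    refine Finset.sum_congr rfl fun b _ => ?_
    rw [Jf_eq, Finset.sum_mul]
    exact Finset.sum_congr rfl fun i _ => Finset.sum_mul _ _ _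
  have e2 : ∑ b, ∑ i, ∑ j, A a i b j * (x i * x j) * x b =
      - ∑ b, ∑ i, ∑ j, A a i b j * (x i * x j) * x b := by
    have s1 : ∑ b, ∑ i, ∑ j, A a i b j * (x i * x j) * x b =
        ∑ i, ∑ b, ∑ j, A a i b j * (x i * x j) * x b := Finset.sum_comm
    have s2 : ∑ i, ∑ b, ∑ j, A a i b j * (x i * x j) * x b =
        ∑ i, ∑ j, ∑ b, A a i b j * (x i * x j) * x b :=
      Finset.sum_congr rfl fun i _ => Finset.sum_comm
    have s3 : ∑ i, ∑ j, ∑ b, A a i b j * (x i * x j) * x b =
        - ∑ i, ∑ b, ∑ j, A a i b j * (x i * x j) * x b := by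
      rw [← Finset.sum_neg_distrib]
      refine Finset.sum_congr rfl fun i _ => ?_
      rw [← Finset.sum_neg_distrib]
      refine Finset.sum_congr rfl fun j _ => ?_
      rw [← Finset.sum_neg_distrib]
      refine Finset.sum_congr rfl fun b _ => ?_
      rw [h.a2 a i b j]
      ring
    linarith
  rw [e]
  linarith

theorem sum_delta {κ : Type*} [Fintype κ] [DecidableEq κ] (f : κ → ℝ) (a : κ) :
    ∑ b, f b * (if a = b then (1 : ℝ) else 0) = f a := by simp

/-- Traces in an adapted frame. -/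
theorem tJ2_frame {x : Fin (m + 1) → ℝ} {w : Fin m → Fin (m + 1) → ℝ} {l : Fin m → ℝ}
    (h1 : ∀ i j, ∑ a, w i a * w j a = if i = j then 1 else 0)
    (h4 : ∀ a b, Jf A x a b = ∑ i, l i * (w i a * w i b)) :
    tJ2 A x = ∑ i, l i ^ 2 := by
  have e : tJ2 A x = ∑ i, ∑ j, l i * l j * ((∑ a, w i a * w j a) * (∑ b, w i b * w j b)) := by
    unfold tJ2
    simp only [h4, Finset.sum_mul_sum]
    simp only [Finset.mul_sum]
    have r1 : ∀ a : Fin (m + 1), ∑ b, ∑ i, ∑ j, l i * (w i a * w i b) * (l j * (w j a * w j b)) =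
        ∑ i, ∑ j, ∑ b, l i * (w i a * w i b) * (l j * (w j a * w j b)) := by
      intro a
      rw [Finset.sum_comm]
      exact Finset.sum_congr rfl fun i _ => Finset.sum_comm
    simp only [r1]
    rw [Finset.sum_comm]
    refine Finset.sum_congr rfl fun i _ => ?_
    rw [Finset.sum_comm]
    refine Finset.sum_congr rfl fun j _ => Finset.sum_congr rfl fun a _ =>
      Finset.sum_congr rfl fun b _ => ?_
    ring
  rw [e]
  refine Finset.sum_congr rfl fun i _ => ?_
  have : ∀ j, l i * l j * ((∑ a, w i a * w j a) * (∑ b, w i b * w j b)) =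
      (l i * l j) * (if i = j then (1 : ℝ) else 0) := by
    intro j
    rw [h1]
    split_ifs <;> ring
  simp only [this]
  rw [sum_delta (fun j => l i * l j) i]
  ring

theorem tJ3_frame {x : Fin (m + 1) → ℝ} {w : Fin m → Fin (m + 1) → ℝ} {l : Fin m → ℝ}
    (h1 : ∀ i j, ∑ a, w i a * w j a = if i = j then 1 else 0)
    (h4 : ∀ a b, Jf A x a b = ∑ i, l i * (w i a * w i b)) :
    tJ3 A x = ∑ i, l i ^ 3 := by
  -- J² in the frame
  have hJ2 : ∀ a c, ∑ b, Jf A x a b * Jf A x b c = ∑ i, l i ^ 2 * (w i a * w i c) := by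
    intro a c
    have e : ∑ b, Jf A x a b * Jf A x b c =
        ∑ i, ∑ j, l i * l j * (w i a * w j c) * (∑ b, w i b * w j b) := by
      simp only [h4, Finset.sum_mul_sum]
      simp only [Finset.mul_sum]
      rw [Finset.sum_comm]
      refine Finset.sum_congr rfl fun i _ => ?_
      rw [Finset.sum_comm]
      refine Finset.sum_congr rfl fun j _ => Finset.sum_congr rfl fun b _ => ?_
      ring
    rw [e]
    refine Finset.sum_congr rfl fun i _ => ?_
    simp only [h1]
    rw [sum_delta (fun j => l i * l j * (w i a * w j c)) i]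
    ring
  have e : tJ3 A x = ∑ a, ∑ c, (∑ b, Jf A x a b * Jf A x b c) * Jf A x c a := by
    unfold tJ3
    refine Finset.sum_congr rfl fun a _ => ?_
    rw [Finset.sum_comm]
    refine Finset.sum_congr rfl fun c _ => ?_
    rw [Finset.sum_mul]
  have e2 : ∑ a, ∑ c, (∑ b, Jf A x a b * Jf A x b c) * Jf A x c a =
      ∑ i, ∑ j, l i ^ 2 * l j * ((∑ a, w i a * w j a) * (∑ b, w i b * w j b)) := by
    simp only [hJ2]
    simp only [h4, Finset.sum_mul_sum]
    simp only [Finset.mul_sum]
    have r1 : ∀ a : Fin (m + 1), ∑ b, ∑ i, ∑ j, l i ^ 2 * (w i a * w i b) *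
        (l j * (w j b * w j a)) =
        ∑ i, ∑ j, ∑ b, l i ^ 2 * (w i a * w i b) * (l j * (w j b * w j a)) := by
      intro a
      rw [Finset.sum_comm]
      exact Finset.sum_congr rfl fun i _ => Finset.sum_comm
    simp only [r1]
    rw [Finset.sum_comm]
    refine Finset.sum_congr rfl fun i _ => ?_
    rw [Finset.sum_comm]
    refine Finset.sum_congr rfl fun j _ => Finset.sum_congr rfl fun a _ =>
      Finset.sum_congr rfl fun b _ => ?_
    ring
  rw [e, e2]
  refine Finset.sum_congr rfl fun i _ => ?_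
  have : ∀ j, l i ^ 2 * l j * ((∑ a, w i a * w j a) * (∑ b, w i b * w j b)) =
      (l i ^ 2 * l j) * (if i = j then (1 : ℝ) else 0) := by
    intro j
    rw [h1]
    split_ifs <;> ring
  simp only [this]
  rw [sum_delta (fun j => l i ^ 2 * l j) i]
  ring

theorem WJ_frame {x : Fin (m + 1) → ℝ} {w : Fin m → Fin (m + 1) → ℝ} {l : Fin m → ℝ}
    (h4 : ∀ a b, Jf A x a b = ∑ i, l i * (w i a * w i b)) :
    WJ A x = ∑ i, ∑ j, l i * l j * Kf A (w i) (w j) := by
  unfold WJ Kf
  simp only [h4, Finset.sum_mul_sum]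
  simp only [Finset.mul_sum]
  -- LHS: a b c d i j ; RHS: i j a c b d
  have r1 : ∀ a b c d : Fin (m + 1),
      ∑ i, ∑ j, A a c b d * (l i * (w i a * w i b) * (l j * (w j c * w j d))) =
      ∑ i, ∑ j, l i * l j * (A a c b d * (w i a * w j c * (w i b * w j d))) := by
    intro a b c d
    exact Finset.sum_congr rfl fun i _ => Finset.sum_congr rfl fun j _ => by ring
  simp only [r1]
  have r2 : ∀ F : Fin (m + 1) → Fin (m + 1) → Fin (m + 1) → Fin (m + 1) → Fin m → Fin m → ℝ,
      ∑ a, ∑ b, ∑ c, ∑ d, ∑ i, ∑ j, F a b c d i j =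
      ∑ i, ∑ j, ∑ a, ∑ c, ∑ b, ∑ d, F a b c d i j := by
    intro F
    have s1 : ∀ a b c, ∑ d, ∑ i, ∑ j, F a b c d i j = ∑ i, ∑ j, ∑ d, F a b c d i j := by
      intro a b c
      rw [Finset.sum_comm]
      exact Finset.sum_congr rfl fun i _ => Finset.sum_comm
    simp only [s1]
    have s2 : ∀ a b, ∑ c, ∑ i, ∑ j, ∑ d, F a b c d i j = ∑ i, ∑ j, ∑ c, ∑ d, F a b c d i j := by
      intro a b
      rw [Finset.sum_comm]
      exact Finset.sum_congr rfl fun i _ => Finset.sum_comm
    simp only [s2]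
    have s3 : ∀ a, ∑ b, ∑ i, ∑ j, ∑ c, ∑ d, F a b c d i j =
        ∑ i, ∑ j, ∑ b, ∑ c, ∑ d, F a b c d i j := by
      intro a
      rw [Finset.sum_comm]
      exact Finset.sum_congr rfl fun i _ => Finset.sum_comm
    simp only [s3]
    rw [Finset.sum_comm]
    refine Finset.sum_congr rfl fun i _ => ?_
    rw [Finset.sum_comm]
    refine Finset.sum_congr rfl fun j _ => Finset.sum_congr rfl fun a _ => ?_
    rw [Finset.sum_comm]
  rw [r2]

theorem Kf_self (h : IsCurv A) (u : Fin (m + 1) → ℝ) : Kf A u u = 0 := by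
  have e : Kf A u u = - Kf A u u := by
    conv_lhs => unfold Kf
    rw [Finset.sum_comm]
    unfold Kf
    rw [← Finset.sum_neg_distrib]
    refine Finset.sum_congr rfl fun b _ => ?_
    rw [← Finset.sum_neg_distrib]
    refine Finset.sum_congr rfl fun a _ => ?_
    rw [← Finset.sum_neg_distrib]
    refine Finset.sum_congr rfl fun c _ => ?_
    rw [← Finset.sum_neg_distrib]
    refine Finset.sum_congr rfl fun d _ => ?_
    rw [h.a1 a b c d]
    ring
  linarith

theorem Kf_rowsum (h : IsCurv A) (hE : IsEin A) {x : Fin (m + 1) → ℝ}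
    {w : Fin m → Fin (m + 1) → ℝ}
    (h3 : ∀ a b, (∑ i, w i a * w i b) + x a * x b = if a = b then 1 else 0)
    (u : Fin (m + 1) → ℝ) :
    (∑ j, Kf A u (w j)) + Kf A u x = m * ∑ a, u a ^ 2 := by
  have e : (∑ j, Kf A u (w j)) + Kf A u x =
      ∑ a, ∑ b, ∑ c, ∑ d, A a b c d * (u a * u c) * ((∑ i, w i b * w i d) + x b * x d) := by
    unfold Kf
    have s : ∑ j, ∑ a, ∑ b, ∑ c, ∑ d, A a b c d * (u a * w j b * (u c * w j d)) =
        ∑ a, ∑ b, ∑ c, ∑ d, ∑ j, A a b c d * (u a * w j b * (u c * w j d)) := by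
      rw [Finset.sum_comm]
      refine Finset.sum_congr rfl fun a _ => ?_
      rw [Finset.sum_comm]
      refine Finset.sum_congr rfl fun b _ => ?_
      rw [Finset.sum_comm]
      refine Finset.sum_congr rfl fun c _ => ?_
      rw [Finset.sum_comm]
    rw [s]
    simp only [← Finset.sum_add_distrib]
    refine Finset.sum_congr rfl fun a _ => Finset.sum_congr rfl fun b _ =>
      Finset.sum_congr rfl fun c _ => Finset.sum_congr rfl fun d _ => ?_
    rw [mul_add, Finset.mul_sum]
    congr 1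
    · exact Finset.sum_congr rfl fun j _ => by ring
    · ring
  rw [e]
  simp only [h3]
  have e2 : ∀ a b c, ∑ d, A a b c d * (u a * u c) * (if b = d then (1 : ℝ) else 0) =
      A a b c b * (u a * u c) := fun a b c => sum_delta (fun d => A a b c d * (u a * u c)) b
  simp only [e2]
  have e3 : ∀ a, ∑ b, ∑ c, A a b c b * (u a * u c) = m * u a ^ 2 := by
    intro a
    rw [Finset.sum_comm]
    have : ∀ c, ∑ b, A a b c b * (u a * u c) = (m * u a * u c) * (if a = c then (1:ℝ) else 0) := by
      intro c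
      rw [← Finset.sum_mul, hE a c]
      simp only [Fintype.card_fin, dl]
      push_cast
      ring
    simp only [this]
    rw [sum_delta (fun c => m * u a * u c) a]
    ring
  simp only [e3, ← Finset.mul_sum]

/-- The pointwise inequality for unit vectors. -/
theorem Phi_unit (h : IsCurv A) (hE : IsEin A) {t : ℝ} (hm : 4 ≤ m)
    (ht : t * (7 * (m : ℝ) - 3) = 4 * ((m : ℝ) + 1)) (hK : SecLE A (1 + t))
    {x : Fin (m + 1) → ℝ} (hx : ∑ a, x a ^ 2 = 1) :
    0 ≤ Phi A x - 1 / 100 * Dev A x := by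
  have hN : (4 : ℝ) ≤ m := by exact_mod_cast hm
  obtain ⟨w, l, h1, h2, h3, h4⟩ := exists_frame (Matrix.of (fun a b => Jf A x a b))
    (by ext a b; exact Jf_symm h x b a) x hx (fun a => Jf_ker h x a)
  simp only [Matrix.of_apply] at h4
  -- unit vectors
  have hw : ∀ i, ∑ a, w i a ^ 2 = 1 := by
    intro i
    have := h1 i i
    rw [if_pos rfl] at this
    rw [← this]
    exact Finset.sum_congr rfl fun a _ => pow_two _
  -- eigenvalues are sectional curvatures
  have hl : ∀ i, l i = Kf A (w i) x := by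
    intro i
    rw [Kf_Jf]
    simp only [h4]
    have e : ∑ a, ∑ b, (∑ j, l j * (w j a * w j b)) * (w i a * w i b) =
        ∑ j, l j * ((∑ a, w j a * w i a) * (∑ b, w j b * w i b)) := by
      simp only [Finset.sum_mul_sum]
      simp only [Finset.mul_sum, Finset.sum_mul]
      have s : ∀ a : Fin (m + 1), ∑ b, ∑ j, l j * (w j a * w j b) * (w i a * w i b) =
          ∑ j, ∑ b, l j * (w j a * w j b) * (w i a * w i b) := fun b => Finset.sum_comm
      simp only [s]
      rw [Finset.sum_comm]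
      refine Finset.sum_congr rfl fun j _ => ?_
      refine Finset.sum_congr rfl fun a _ => Finset.sum_congr rfl fun b _ => ?_
      ring
    rw [e]
    have e2 : ∀ j, l j * ((∑ a, w j a * w i a) * (∑ b, w j b * w i b)) =
        l j * (if i = j then (1:ℝ) else 0) := by
      intro j
      rw [h1]
      by_cases hij : i = j
      · subst hij; simp
      · simp [hij, Ne.symm hij]
    simp only [e2]
    exact (sum_delta l i).symm
  have hle : ∀ i, l i ≤ 1 + t := by
    intro i
    rw [hl]
    exact hK _ _ (hw i) hx (by rw [← h2 i])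
  -- the pair curvatures
  set K : Fin m → Fin m → ℝ := fun i j => Kf A (w i) (w j) with hKd
  have hKs : ∀ i j, K i j = K j i := fun i j => Kf_symm h _ _
  have hKd0 : ∀ i, K i i = 0 := fun i => Kf_self h _
  have hKle : ∀ i j, i ≠ j → K i j ≤ 1 + t := by
    intro i j hij
    exact hK _ _ (hw i) (hw j) (by rw [h1, if_neg hij])
  have hKrow : ∀ i, ∑ j, K i j = m - l i := by
    intro i
    have e := Kf_rowsum h hE h3 (w i)
    rw [hw i, ← hl i] at e
    linarith
  have hlsum : ∑ i, l i = m := by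
    have e := Kf_rowsum h hE h3 x
    rw [hx, Kf_self h x] at e
    have e2 : ∑ i, l i = ∑ j, Kf A x (w j) := Finset.sum_congr rfl fun i _ => by
      rw [hl, Kf_symm h]
    rw [e2]
    linarith
  set e : Fin m → ℝ := fun i => l i - 1 with he
  set s : Fin m → Fin m → ℝ := fun i j => if i = j then 0 else 1 + t - K i j with hs
  have hm1 : (Finset.univ : Finset (Fin m)).card = m := by simp
  have hssum : ∀ (g : Fin m → ℝ) i, ∑ j, s i j * g j = (1 + t) * ((∑ j, g j) - g i) -
      ∑ j, K i j * g j := by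
    intro g i
    have e1 : ∀ j, s i j * g j = (1 + t) * g j - K i j * g j -
        (1 + t) * g j * (if i = j then (1:ℝ) else 0) := by
      intro j
      by_cases hij : i = j
      · subst hij
        simp only [hs, if_true, hKd0]
        ring
      · simp only [hs, hij, if_false]
        ring
    simp only [e1]
    rw [Finset.sum_sub_distrib, Finset.sum_sub_distrib, sum_delta (fun j => (1 + t) * g j) i,
      ← Finset.mul_sum]
    ring
  have hrow : ∀ a, ∑ b, s a b = ((m : ℝ) - 1) * t + e a := by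
    intro a
    have e1 := hssum (fun _ => 1) a
    simp only [mul_one] at e1
    rw [e1, hKrow a, Finset.sum_const, hm1, nsmul_eq_mul]
    simp only [he]
    ring
  have hmain := sum_ineq hN ht e (fun a => by simp only [he]; linarith [hle a]) s
    (fun a b => by
      by_cases hab : a = b
      · simp [hs, hab]
      · simp only [hs, hab, if_false]; linarith [hKle a b hab])
    (fun a b => by
      by_cases hab : a = b
      · simp [hs, hab]
      · simp only [hs, hab, Ne.symm hab, if_false, hKs a b]) hrow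
  -- moments
  have esum : ∑ i, e i = 0 := by
    simp only [he, Finset.sum_sub_distrib, hlsum, Finset.sum_const, hm1]
    simp
  have l2 : ∑ i, l i ^ 2 = m + ∑ i, e i ^ 2 := by
    have : ∀ i, l i ^ 2 = 1 + 2 * e i + e i ^ 2 := fun i => by simp only [he]; ring
    simp only [this, Finset.sum_add_distrib, ← Finset.mul_sum, esum, Finset.sum_const, hm1]
    simp
  have l3 : ∑ i, l i ^ 3 = m + 3 * ∑ i, e i ^ 2 + ∑ i, e i ^ 3 := by
    have : ∀ i, l i ^ 3 = 1 + 3 * e i + 3 * e i ^ 2 + e i ^ 3 := fun i => by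
      simp only [he]; ring
    simp only [this, Finset.sum_add_distrib, ← Finset.mul_sum, esum, Finset.sum_const, hm1]
    simp
  have hW : ∑ i, ∑ j, l i * l j * K i j = (m:ℝ) * (m - 1) - (3 + t) * ∑ i, e i ^ 2 -
      ∑ a, ∑ b, s a b * (e a * e b) := by
    have q1 : ∑ a, ∑ b, s a b * (e a * e b) = - (1 + t) * ∑ i, e i ^ 2 -
        ∑ i, ∑ j, e i * e j * K i j := by
      have q0 : ∀ a, ∑ b, s a b * (e a * e b) = - (1 + t) * e a ^ 2 - ∑ j, e a * e j * K a j := by
        intro a
        have := hssum e a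
        have r : ∑ b, s a b * (e a * e b) = e a * ∑ b, s a b * e b := by
          rw [Finset.mul_sum]; exact Finset.sum_congr rfl fun b _ => by ring
        rw [r, this, esum, mul_sub, Finset.mul_sum]
        congr 1
        · ring
        · exact Finset.sum_congr rfl fun b _ => by ring
      simp only [q0, Finset.sum_sub_distrib, ← Finset.mul_sum]
    have q2 : ∑ i, ∑ j, l i * l j * K i j = ∑ i, ∑ j, K i j + 2 * ∑ i, e i * ∑ j, K i j +
        ∑ i, ∑ j, e i * e j * K i j := by
      have r1 : ∀ i j, l i * l j * K i j = K i j + e i * K i j + e j * K i j +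
          e i * e j * K i j := by
        intro i j; simp only [he]; ring
      simp only [r1, Finset.sum_add_distrib]
      have r2 : ∑ i, ∑ j, e j * K i j = ∑ i, ∑ j, e i * K i j := by
        rw [Finset.sum_comm]
        exact Finset.sum_congr rfl fun i _ => Finset.sum_congr rfl fun j _ => by rw [hKs]
      rw [r2]
      simp only [Finset.mul_sum]
      have r3 : ∑ i, ∑ j, 2 * (e i * K i j) = ∑ i, ∑ j, e i * K i j +
          ∑ i, ∑ j, e i * K i j := by
        simp only [← Finset.sum_add_distrib]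
        exact Finset.sum_congr rfl fun i _ => Finset.sum_congr rfl fun j _ => by ring
      rw [r3]
      ring
    have q3 : ∑ i, ∑ j, K i j = (m:ℝ) * (m - 1) := by
      simp only [hKrow, Finset.sum_sub_distrib, hlsum, Finset.sum_const, hm1, nsmul_eq_mul]
      ring
    have q4 : ∑ i, e i * ∑ j, K i j = - ∑ i, e i ^ 2 := by
      have r : ∀ i, e i * ∑ j, K i j = (m - 1) * e i - e i ^ 2 := by
        intro i
        rw [hKrow]
        simp only [he]
        ring
      simp only [r, Finset.sum_sub_distrib, ← Finset.mul_sum, esum]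
      ring
    rw [q2, q3, q4, q1]
    ring
  have hcub : ∑ a, cub m t (e a) = (3 * m - 1 / 20 + 5 * t) * ∑ i, e i ^ 2 -
      (m + 5) * ∑ i, e i ^ 3 := by
    unfold cub
    rw [Finset.sum_sub_distrib, ← Finset.mul_sum, ← Finset.mul_sum]
  have hn2 : n2 x = 1 := hx
  have hcard : (Fintype.card (Fin (m + 1)) : ℝ) = m + 1 := by simp
  unfold Phi Dev
  rw [tJ2_frame h1 h4, tJ3_frame h1 h4, WJ_frame h4, hn2, hcard, l2, l3]
  change 0 ≤ 6 / 5 * ((m:ℝ) + 1 - 1) * (1 * ((m:ℝ) + ∑ i, e i ^ 2)) -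
    ((m:ℝ) + 1 + 4) / 5 * ((m:ℝ) + 3 * ∑ i, e i ^ 2 + ∑ i, e i ^ 3) -
    1 * ∑ i, ∑ j, l i * l j * K i j - _
  rw [hW]
  rw [hcub] at hmain
  linarith

end Pool.Agent.L5helper93.Ein
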