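import Mathlib
import Pool.Agent.L5helper93.Ein.Point

/-!
# The algebraic theorem
-/

namespace Pool.Agent.L5helper93.Ein

open Finset

set_option linter.unusedSectionVars false
set_option linter.unusedVariables false
set_option linter.unusedSimpArgs false

variable {m : ℕ} {A : Fin (m + 1) → Fin (m + 1) → Fin (m + 1) → Fin (m + 1) → ℝ}

theorem Jf_smul (r : ℝ) (x : Fin (m + 1) → ℝ) (a b : Fin (m + 1)) :
    Jf A (fun i => r * x i) a b = r ^ 2 * Jf A x a b := by
  unfold Jf qf
  rw [Finset.mul_sum]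
  refine Finset.sum_congr rfl fun i _ => ?_
  rw [Finset.mul_sum]
  refine Finset.sum_congr rfl fun j _ => ?_
  ring

theorem n2_smul (r : ℝ) (x : Fin (m + 1) → ℝ) : n2 (fun i => r * x i) = r ^ 2 * n2 x := by
  unfold n2
  rw [Finset.mul_sum]
  exact Finset.sum_congr rfl fun i _ => by ring

theorem Phi_smul (r : ℝ) (x : Fin (m + 1) → ℝ) :
    Phi A (fun i => r * x i) = r ^ 6 * Phi A x := by
  have e1 : tJ2 A (fun i => r * x i) = r ^ 4 * tJ2 A x := by
    unfold tJ2
    simp only [Jf_smul, Finset.mul_sum]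
    exact Finset.sum_congr rfl fun a _ => Finset.sum_congr rfl fun b _ => by ring
  have e2 : tJ3 A (fun i => r * x i) = r ^ 6 * tJ3 A x := by
    unfold tJ3
    simp only [Jf_smul, Finset.mul_sum]
    exact Finset.sum_congr rfl fun a _ => Finset.sum_congr rfl fun b _ =>
      Finset.sum_congr rfl fun c _ => by ring
  have e3 : WJ A (fun i => r * x i) = r ^ 4 * WJ A x := by
    unfold WJ
    simp only [Jf_smul, Finset.mul_sum]
    exact Finset.sum_congr rfl fun a _ => Finset.sum_congr rfl fun b _ =>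
      Finset.sum_congr rfl fun c _ => Finset.sum_congr rfl fun d _ => by ring
  unfold Phi
  rw [e1, e2, e3, n2_smul]
  ring

theorem Dev_smul (r : ℝ) (x : Fin (m + 1) → ℝ) :
    Dev A (fun i => r * x i) = r ^ 6 * Dev A x := by
  have e1 : tJ2 A (fun i => r * x i) = r ^ 4 * tJ2 A x := by
    unfold tJ2
    simp only [Jf_smul, Finset.mul_sum]
    exact Finset.sum_congr rfl fun a _ => Finset.sum_congr rfl fun b _ => by ring
  unfold Dev
  rw [e1, n2_smul]
  ring

theorem Phi_all (h : IsCurv A) (hE : IsEin A) {t : ℝ} (hm : 4 ≤ m)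
    (ht : t * (7 * (m : ℝ) - 3) = 4 * ((m : ℝ) + 1)) (hK : SecLE A (1 + t))
    (x : Fin (m + 1) → ℝ) :
    0 ≤ Phi A x - 1 / 100 * Dev A x := by
  -- write x = r u
  obtain ⟨r, u, hu, hx⟩ : ∃ (r : ℝ) (u : Fin (m + 1) → ℝ), ∑ a, u a ^ 2 = 1 ∧
      x = fun i => r * u i := by
    by_cases h0 : ∑ a, x a ^ 2 = 0
    · refine ⟨0, fun i => if i = 0 then 1 else 0, ?_, ?_⟩
      · simp
      · ext i
        have := (Finset.sum_eq_zero_iff_of_nonneg (fun a _ => sq_nonneg (x a))).1 h0 i
          (Finset.mem_univ i)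
        simpa using this
    · have hpos : 0 < ∑ a, x a ^ 2 := lt_of_le_of_ne (Finset.sum_nonneg fun a _ => sq_nonneg _)
        (Ne.symm h0)
      have hs : 0 < Real.sqrt (∑ a, x a ^ 2) := Real.sqrt_pos.2 hpos
      refine ⟨Real.sqrt (∑ a, x a ^ 2), fun i => x i / Real.sqrt (∑ a, x a ^ 2), ?_, ?_⟩
      · simp only [div_pow, Real.sq_sqrt hpos.le]
        rw [← Finset.sum_div, div_self h0]
      · ext i
        field_simp
  rw [hx, Phi_smul, Dev_smul]
  have h1 := Phi_unit h hE hm ht hK hu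
  have h2 : 0 ≤ r ^ 6 := by positivity
  nlinarith [mul_nonneg h2 h1]

/-- The algebraic theorem: for Einstein curvature tensors with sectional curvature at most
`1 + t` the Weitzenboeck cubic controls the distance to constant curvature. -/
theorem Qp_lower (h : IsCurv A) (hE : IsEin A) {t : ℝ} (hm : 4 ≤ m)
    (ht : t * (7 * (m : ℝ) - 3) = 4 * ((m : ℝ) + 1)) (hK : SecLE A (1 + t)) :
    1 / 30 * (nS A - 2 * ((m : ℝ) + 1) * m) ≤ Qp A := by
  have h1 := Qp_ge h hE (Phi_all h hE hm ht hK)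
  have hcard : (Fintype.card (Fin (m + 1)) : ℝ) = m + 1 := by simp
  rw [hcard] at h1
  linarith

end Pool.Agent.L5helper93.Ein
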