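import Mathlib

/-!
# A cubic form which is nonnegative on the positive orthant
-/

namespace Pool.Agent.L5helper93.Ein

/-- The cubic form in the gaps of the eigenvalues. -/
def G7 (a b c d e f : ℝ) : ℝ :=
  12 * (a * a * a) + 20 * (a * a * b) + 4 * (a * a * c) - 12 * (a * a * d) - 28 * (a * a *
  e) - 34 * (a * a * f) + 30 * (a * b * b) + 16 * (a * b * c) - 28 * (a * b * d) - 62 * (a *
  b * e) - 46 * (a * b * f) + 12 * (a * c * c) - 22 * (a * c * d) - 28 * (a * c * e) - 24 *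
  (a * c * f) + 12 * (a * d * d) + 6 * (a * d * e) - 2 * (a * d * f) + 20 * (a * e * e) + 20
  * (a * e * f) + 26 * (a * f * f) + 10 * (b * b * b) + 4 * (b * b * c) - 22 * (b * b * d) -
  28 * (b * b * e) - 14 * (b * b * f) + 6 * (b * c * c) - 26 * (b * c * d) - 24 * (b * c *
  e) - 12 * (b * c * f) + 6 * (b * d * d) + 8 * (b * d * e) + 4 * (b * d * f) + 30 * (b * e
  * e) + 30 * (b * e * f) + 28 * (b * f * f) + 30 * (c * d * d) + 40 * (c * d * e) + 20 * (c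
  * d * f) + 40 * (c * e * e) + 40 * (c * e * f) + 30 * (c * f * f) + 18 * (d * d * d) + 36
  * (d * d * e) + 18 * (d * d * f) + 50 * (d * e * e) + 50 * (d * e * f) + 32 * (d * f * f)
  + 20 * (e * e * e) + 30 * (e * e * f) + 34 * (e * f * f) + 12 * (f * f * f)

theorem G7_ge (a b c d e f : ℝ) (ha : 0 ≤ a) (hb : 0 ≤ b) (hc : 0 ≤ c) (hd : 0 ≤ d) (he : 0 ≤ e)
    (hf : 0 ≤ f) : 1 / 4 * (a ^ 3 + b ^ 3 + d ^ 3 + e ^ 3 + f ^ 3) ≤ G7 a b c d e f := by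
  have q1 : 0 ≤ a * (39 / 50 * (a - 2 * d - 2 * e) ^ 2 +
      1 / 10 * (3 * a - 3 * b - 4 * c - 3 * d - 4 * e - 2 * f) ^ 2 +
      49 / 50 * (c - d) ^ 2 +
      13 / 100 * (a - 4 * b) ^ 2 +
      223 / 100 * (a - 2 * e - 2 * f) ^ 2 +
      3 / 50 * (b - 4 * c) ^ 2 +
      83 / 100 * (a - 2 * c - 2 * f) ^ 2 +
      8 / 5 * (c + e - f) ^ 2 +
      33 / 10 * (a - e - 2 * f) ^ 2 +
      11 / 100 * (2 * a + b - 2 * c - 3 * d - 3 * e - 4 * f) ^ 2 +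
      39 / 100 * (b + 2 * c - 2 * e) ^ 2 +
      17 / 25 * (2 * a + 3 * b + c - 3 * d - 4 * e - 3 * f) ^ 2 +
      29 / 100 * (d + e - f) ^ 2 +
      19 / 100 * (a - 4 * e) ^ 2 +
      9 / 100 * (2 * b - 2 * c - e) ^ 2 +
      207 / 100 * (b - e) ^ 2 +
      101 / 100 * (2 * b - 2 * d - e) ^ 2) := by
    positivity
  have q2 : 0 ≤ b * (3 / 10 * (2 * c - f) ^ 2 +
      22 / 25 * (b - c - 2 * d) ^ 2 +
      84 / 25 * (b - 2 * d - e) ^ 2 +
      1 / 25 * (a + 2 * b + c - 2 * d - 2 * e - 4 * f) ^ 2 +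
      11 / 25 * (2 * a + 2 * b - c - d - 4 * e - 2 * f) ^ 2 +
      7 / 25 * (3 * c - 2 * d) ^ 2 +
      1 / 50 * (3 * c - 2 * f) ^ 2 +
      89 / 100 * (b - 2 * d - f) ^ 2 +
      62 / 25 * (2 * a + b - d - 4 * e - 2 * f) ^ 2 +
      11 / 5 * (a - 3 * f) ^ 2) := by
    positivity
  have q3 : 0 ≤ c * (11 / 25 * (b - 3 * e) ^ 2 +
      59 / 100 * (a - b + 3 * d - e - 4 * f) ^ 2 +
      19 / 25 * (a - 3 * f) ^ 2 +
      141 / 100 * (2 * a + 2 * b - 4 * d - 4 * e - 3 * f) ^ 2 +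
      3 / 20 * (a - 2 * e - 2 * f) ^ 2 +
      21 / 50 * (a + b - d - 4 * e) ^ 2 +
      32 / 25 * (d - 2 * e) ^ 2) := by
    positivity
  have q4 : 0 ≤ d * (17 / 100 * (a - 2 * e - 2 * f) ^ 2 +
      49 / 100 * (a + 2 * b - 3 * d - 4 * e - 4 * f) ^ 2 +
      51 / 50 * (a - 3 * f) ^ 2 +
      283 / 100 * (b - 2 * d) ^ 2 +
      11 / 25 * (a + b - 2 * d - 4 * e) ^ 2) := by
    positivity
  have q5 : 0 ≤ e * (33 / 100 * (2 * a + b - 4 * d - 2 * e - 4 * f) ^ 2 +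
      24 / 25 * (b - d - e) ^ 2 +
      93 / 100 * (2 * a + 2 * b - 3 * d - 4 * e - 3 * f) ^ 2 +
      7 / 50 * (a + 2 * b - 4 * d - 4 * e + f) ^ 2 +
      32 / 25 * (a - 3 * f) ^ 2) := by
    positivity
  have q6 : 0 ≤ f * (7 / 20 * (2 * a + 2 * b - 3 * d - 3 * e - 4 * f) ^ 2 +
      19 / 100 * (a - 4 * f) ^ 2 +
      7 / 10 * (a - 2 * d - 2 * f) ^ 2) := by
    positivity
  have s : 0 ≤ 23 / 100 * (a * a * a) + 8 / 25 * (a * a * b) + 8 / 25 * (a * a * c) + 7 / 25 * (a * a *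
    d) + 3 / 10 * (a * a * e) + 27 / 100 * (a * a * f) + 27 / 100 * (a * b * b) + 17 / 50 *
    (a * b * c) + 9 / 50 * (a * b * d) + 6 / 25 * (a * b * e) + 1 / 2 * (a * c * c) + 9 / 50
    * (a * c * d) + 9 / 50 * (a * c * e) + 2 / 25 * (a * c * f) + 13 / 50 * (a * d * d) + 3
    / 25 * (a * d * e) + 11 / 50 * (a * d * f) + 17 / 100 * (a * e * e) + 11 / 50 * (a * e *
    f) + 31 / 100 * (a * f * f) + 11 / 50 * (b * b * b) + 27 / 100 * (b * b * c) + 33 / 100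
    * (b * b * d) + 7 / 20 * (b * b * e) + 23 / 50 * (b * b * f) + 37 / 50 * (b * c * c) + 3
    / 50 * (b * c * d) + 1 / 50 * (b * c * e) + 1 / 5 * (b * c * f) + 6 / 25 * (b * d * d) +
    1 / 5 * (b * d * e) + 4 / 25 * (b * d * f) + 3 / 25 * (b * e * e) + 2 / 25 * (b * e * f)
    + 21 / 100 * (b * f * f) + 43 / 100 * (c * d * d) + 9 / 50 * (c * d * e) + 8 / 25 * (c *
    d * f) + 9 / 20 * (c * e * e) + 6 / 25 * (c * e * f) + 43 / 100 * (c * f * f) + 13 / 50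
    * (d * d * d) + 7 / 20 * (d * d * e) + 29 / 100 * (d * d * f) + 11 / 25 * (d * e * e) +
    12 / 25 * (d * e * f) + 3 / 10 * (d * f * f) + 7 / 20 * (e * e * e) + 37 / 100 * (e * e
    * f) + 29 / 100 * (e * f * f) + 31 / 100 * (f * f * f) := by
    positivity
  unfold G7
  linarith

end Pool.Agent.L5helper93.Ein
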