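import Mathlib
import Pool.Agent.L5helper93.Ein.Seven

/-!
# The sharp finite inequality for seven eigenvalues
-/

namespace Pool.Agent.L5helper93.Ein

open Finset

theorem path7 (z1 z2 z3 z4 z5 z6 z7 : ℝ) (hs : z1 + z2 + z3 + z4 + z5 + z6 + z7 = 0)
    (p1 p2 p3 p4 p5 p6 p7 : ℝ) (h4 : p4 = 5 * z4 ^ 2) (h3 : p3 = 10 * (z3 * z4) - p4)
    (h5 : p5 = 10 * (z3 * z5) - p3) (h2 : p2 = 10 * (z2 * z5) - p5)
    (h6 : p6 = 10 * (z2 * z6) - p2) (h1 : p1 = 10 * (z1 * z6) - p6)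
    (h7 : p7 = 10 * (z1 * z7) - p1) :
    99 / 4 * (z1 ^ 2 + z2 ^ 2 + z3 ^ 2 + z4 ^ 2 + z5 ^ 2 + z6 ^ 2 + z7 ^ 2) -
      12 * (z1 ^ 3 + z2 ^ 3 + z3 ^ 3 + z4 ^ 3 + z5 ^ 3 + z6 ^ 3 + z7 ^ 3) +
      (p1 * (9 / 2 + z1) + p2 * (9 / 2 + z2) + p3 * (9 / 2 + z3) + p4 * (9 / 2 + z4) +
        p5 * (9 / 2 + z5) + p6 * (9 / 2 + z6) + p7 * (9 / 2 + z7)) =
    (3 / 4 - z1) * (33 * (z1 ^ 2 + z2 ^ 2 + z3 ^ 2 + z4 ^ 2 + z5 ^ 2 + z6 ^ 2 + z7 ^ 2) +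
      60 * (z1 * z7 + z2 * z6 + z3 * z5) + 30 * z4 ^ 2) +
      G7 (z1 - z2) (z2 - z3) (z3 - z4) (z4 - z5) (z5 - z6) (z6 - z7) := by
  obtain rfl : z7 = - (z1 + z2 + z3 + z4 + z5 + z6) := by linarith
  subst h4; subst h3; subst h5; subst h2; subst h6; subst h1; subst h7
  unfold G7
  ring

theorem quad7 (z1 z2 z3 z4 z5 z6 z7 : ℝ) :
    3 * (z1 ^ 2 + z2 ^ 2 + z3 ^ 2 + z4 ^ 2 + z5 ^ 2 + z6 ^ 2 + z7 ^ 2) ≤
    33 * (z1 ^ 2 + z2 ^ 2 + z3 ^ 2 + z4 ^ 2 + z5 ^ 2 + z6 ^ 2 + z7 ^ 2) +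
      60 * (z1 * z7 + z2 * z6 + z3 * z5) + 30 * z4 ^ 2 := by
  nlinarith [sq_nonneg (z1 + z7), sq_nonneg (z2 + z6), sq_nonneg (z3 + z5), sq_nonneg z4]

theorem sorted7 (g : Fin 7 → ℝ) (hg : Monotone g) (hsum : ∑ i, g i = 0) (hcap : g 6 ≤ 3 / 4)
    (s : Fin 7 → Fin 7 → ℝ) (hs0 : ∀ a b, 0 ≤ s a b) (hsym : ∀ a b, s a b = s b a)
    (hdiag : ∀ a, s a a = 0) (hrow : ∀ a, ∑ b, s a b = 9 / 2 + g a) :
    (3 / 4 - g 6) * (3 * ∑ i, g i ^ 2) + 1 / 4 * ((g 6 - g 5) ^ 3 + (g 5 - g 4) ^ 3 +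
      (g 3 - g 2) ^ 3 + (g 2 - g 1) ^ 3 + (g 1 - g 0) ^ 3) ≤
      99 / 4 * ∑ i, g i ^ 2 - 12 * ∑ i, g i ^ 3 + 5 * ∑ a, ∑ b, s a b * (g a * g b) := by
  have m01 : g 0 ≤ g 1 := hg (by decide)
  have m12 : g 1 ≤ g 2 := hg (by decide)
  have m23 : g 2 ≤ g 3 := hg (by decide)
  have m34 : g 3 ≤ g 4 := hg (by decide)
  have m45 : g 4 ≤ g 5 := hg (by decide)
  have m56 : g 5 ≤ g 6 := hg (by decide)
  obtain ⟨p4, h4⟩ : ∃ p, p = 5 * g 3 ^ 2 := ⟨_, rfl⟩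
  obtain ⟨p3, h3⟩ : ∃ p, p = 10 * (g 4 * g 3) - p4 := ⟨_, rfl⟩
  obtain ⟨p5, h5⟩ : ∃ p, p = 10 * (g 4 * g 2) - p3 := ⟨_, rfl⟩
  obtain ⟨p2, h2⟩ : ∃ p, p = 10 * (g 5 * g 2) - p5 := ⟨_, rfl⟩
  obtain ⟨p6, h6⟩ : ∃ p, p = 10 * (g 5 * g 1) - p2 := ⟨_, rfl⟩
  obtain ⟨p1, h1⟩ : ∃ p, p = 10 * (g 6 * g 1) - p6 := ⟨_, rfl⟩
  obtain ⟨p7, h7⟩ : ∃ p, p = 10 * (g 6 * g 0) - p1 := ⟨_, rfl⟩
  set φ : Fin 7 → ℝ := ![p7, p6, p5, p4, p3, p2, p1] with hφ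
  have f0 : φ 0 = p7 := rfl
  have f1 : φ 1 = p6 := rfl
  have f2 : φ 2 = p5 := rfl
  have f3 : φ 3 = p4 := rfl
  have f4 : φ 4 = p3 := rfl
  have f5 : φ 5 = p2 := rfl
  have f6 : φ 6 = p1 := rfl
  -- products of gaps
  have d1 := sub_nonneg.2 m01
  have d2 := sub_nonneg.2 m12
  have d3 := sub_nonneg.2 m23
  have d4 := sub_nonneg.2 m34
  have d5 := sub_nonneg.2 m45
  have d6 := sub_nonneg.2 m56
  have dd11 := mul_nonneg d1 d1
  have dd12 := mul_nonneg d1 d2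
  have dd13 := mul_nonneg d1 d3
  have dd14 := mul_nonneg d1 d4
  have dd15 := mul_nonneg d1 d5
  have dd16 := mul_nonneg d1 d6
  have dd22 := mul_nonneg d2 d2
  have dd23 := mul_nonneg d2 d3
  have dd24 := mul_nonneg d2 d4
  have dd25 := mul_nonneg d2 d5
  have dd26 := mul_nonneg d2 d6
  have dd33 := mul_nonneg d3 d3
  have dd34 := mul_nonneg d3 d4
  have dd35 := mul_nonneg d3 d5
  have dd36 := mul_nonneg d3 d6
  have dd44 := mul_nonneg d4 d4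
  have dd45 := mul_nonneg d4 d5
  have dd46 := mul_nonneg d4 d6
  have dd55 := mul_nonneg d5 d5
  have dd56 := mul_nonneg d5 d6
  have dd66 := mul_nonneg d6 d6
  have k01 : φ 0 + φ 1 ≤ 10 * (g 0 * g 1) := by rw [f0, f1]; linarith
  have k02 : φ 0 + φ 2 ≤ 10 * (g 0 * g 2) := by rw [f0, f2]; linarith
  have k03 : φ 0 + φ 3 ≤ 10 * (g 0 * g 3) := by rw [f0, f3]; linarith
  have k04 : φ 0 + φ 4 ≤ 10 * (g 0 * g 4) := by rw [f0, f4]; linarith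
  have k05 : φ 0 + φ 5 ≤ 10 * (g 0 * g 5) := by rw [f0, f5]; linarith
  have k06 : φ 0 + φ 6 ≤ 10 * (g 0 * g 6) := by rw [f0, f6]; linarith
  have k12 : φ 1 + φ 2 ≤ 10 * (g 1 * g 2) := by rw [f1, f2]; linarith
  have k13 : φ 1 + φ 3 ≤ 10 * (g 1 * g 3) := by rw [f1, f3]; linarith
  have k14 : φ 1 + φ 4 ≤ 10 * (g 1 * g 4) := by rw [f1, f4]; linarith
  have k15 : φ 1 + φ 5 ≤ 10 * (g 1 * g 5) := by rw [f1, f5]; linarith
  have k16 : φ 1 + φ 6 ≤ 10 * (g 1 * g 6) := by rw [f1, f6]; linarith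
  have k23 : φ 2 + φ 3 ≤ 10 * (g 2 * g 3) := by rw [f2, f3]; linarith
  have k24 : φ 2 + φ 4 ≤ 10 * (g 2 * g 4) := by rw [f2, f4]; linarith
  have k25 : φ 2 + φ 5 ≤ 10 * (g 2 * g 5) := by rw [f2, f5]; linarith
  have k26 : φ 2 + φ 6 ≤ 10 * (g 2 * g 6) := by rw [f2, f6]; linarith
  have k34 : φ 3 + φ 4 ≤ 10 * (g 3 * g 4) := by rw [f3, f4]; linarith
  have k35 : φ 3 + φ 5 ≤ 10 * (g 3 * g 5) := by rw [f3, f5]; linarith
  have k36 : φ 3 + φ 6 ≤ 10 * (g 3 * g 6) := by rw [f3, f6]; linarith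
  have k45 : φ 4 + φ 5 ≤ 10 * (g 4 * g 5) := by rw [f4, f5]; linarith
  have k46 : φ 4 + φ 6 ≤ 10 * (g 4 * g 6) := by rw [f4, f6]; linarith
  have k56 : φ 5 + φ 6 ≤ 10 * (g 5 * g 6) := by rw [f5, f6]; linarith
  have hfeas : ∀ a b, a ≠ b → φ a + φ b ≤ 10 * (g a * g b) := by
    intro a b hab
    fin_cases a <;> fin_cases b <;> first
      | exact absurd rfl hab
      | assumption
      | (rw [add_comm, mul_comm (g _)]; assumption)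
  -- duality
  have hdual : ∑ a, φ a * (9 / 2 + g a) ≤ 5 * ∑ a, ∑ b, s a b * (g a * g b) := by
    have e1 : ∑ a, φ a * (9 / 2 + g a) = ∑ a, ∑ b, s a b * φ a := by
      refine Finset.sum_congr rfl fun a _ => ?_
      rw [← hrow a, Finset.mul_sum]
      exact Finset.sum_congr rfl fun b _ => mul_comm _ _
    have e2 : ∑ a, ∑ b, s a b * φ a = ∑ a, ∑ b, s a b * φ b := by
      rw [Finset.sum_comm]
      refine Finset.sum_congr rfl fun a _ => Finset.sum_congr rfl fun b _ => ?_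
      rw [hsym]
    have e3 : 2 * ∑ a, ∑ b, s a b * φ a = ∑ a, ∑ b, s a b * (φ a + φ b) := by
      simp only [mul_add, Finset.sum_add_distrib]
      rw [← e2]; ring
    have e4 : ∑ a, ∑ b, s a b * (φ a + φ b) ≤ ∑ a, ∑ b, s a b * (10 * (g a * g b)) := by
      refine Finset.sum_le_sum fun a _ => Finset.sum_le_sum fun b _ => ?_
      by_cases hab : a = b
      · subst hab
        rw [hdiag, zero_mul, zero_mul]
      · exact mul_le_mul_of_nonneg_left (hfeas a b hab) (hs0 a b)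
    have e5 : ∑ a, ∑ b, s a b * (10 * (g a * g b)) = 10 * ∑ a, ∑ b, s a b * (g a * g b) := by
      simp only [Finset.mul_sum]
      refine Finset.sum_congr rfl fun a _ => Finset.sum_congr rfl fun b _ => ?_
      ring
    linarith
  have hP := path7 (g 6) (g 5) (g 4) (g 3) (g 2) (g 1) (g 0) (by
    rw [Fin.sum_univ_seven] at hsum; linarith) p1 p2 p3 p4 p5 p6 p7 h4 h3 h5 h2 h6 h1 h7
  have hQ := quad7 (g 6) (g 5) (g 4) (g 3) (g 2) (g 1) (g 0)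
  have hQ2 := mul_le_mul_of_nonneg_left hQ (sub_nonneg.2 hcap)
  have hG := G7_ge (g 6 - g 5) (g 5 - g 4) (g 4 - g 3) (g 3 - g 2) (g 2 - g 1) (g 1 - g 0)
    d6 d5 d4 d3 d2 d1
  rw [Fin.sum_univ_seven] at hdual
  rw [f0, f1, f2, f3, f4, f5, f6] at hdual
  rw [Fin.sum_univ_seven (fun i => g i ^ 2), Fin.sum_univ_seven (fun i => g i ^ 3)]
  linarith

/-- The eigenvalue pattern of the quaternionic projective plane. -/
def Pat7 (e : Fin 7 → ℝ) : Prop := ∀ a, e a = 3 / 4 ∨ e a = - (9 / 16)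

theorem ineq7 (e : Fin 7 → ℝ) (hsum : ∑ i, e i = 0) {T : ℝ} (hT : ∀ a, e a ≤ T)
    (hT2 : T ≤ 3 / 4)
    (s : Fin 7 → Fin 7 → ℝ) (hs0 : ∀ a b, 0 ≤ s a b) (hsym : ∀ a b, s a b = s b a)
    (hdiag : ∀ a, s a a = 0) (hrow : ∀ a, ∑ b, s a b = 9 / 2 + e a) :
    (3 / 4 - T) * (3 * ∑ i, e i ^ 2) ≤
      99 / 4 * ∑ i, e i ^ 2 - 12 * ∑ i, e i ^ 3 + 5 * ∑ a, ∑ b, s a b * (e a * e b) ∧
    (99 / 4 * ∑ i, e i ^ 2 - 12 * ∑ i, e i ^ 3 + 5 * ∑ a, ∑ b, s a b * (e a * e b) ≤ 0 →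
      (∀ a, e a = 0) ∨ Pat7 e) := by
  set σ := Tuple.sort e with hσ
  have hmono : Monotone (e ∘ σ) := Tuple.monotone_sort e
  set g : Fin 7 → ℝ := e ∘ σ with hg
  have c1 : ∑ i, g i = ∑ i, e i := Equiv.sum_comp σ e
  have c2 : ∑ i, g i ^ 2 = ∑ i, e i ^ 2 := Equiv.sum_comp σ (fun i => e i ^ 2)
  have c3 : ∑ i, g i ^ 3 = ∑ i, e i ^ 3 := Equiv.sum_comp σ (fun i => e i ^ 3)
  have c4 : ∑ a, ∑ b, s (σ a) (σ b) * (g a * g b) = ∑ a, ∑ b, s a b * (e a * e b) := by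
    rw [← Equiv.sum_comp σ (fun a => ∑ b, s a b * (e a * e b))]
    refine Finset.sum_congr rfl fun a _ => ?_
    rw [← Equiv.sum_comp σ (fun b => s (σ a) b * (e (σ a) * e b))]
    rfl
  have c5 : ∀ a, ∑ b, s (σ a) (σ b) = 9 / 2 + g a := by
    intro a
    rw [Equiv.sum_comp σ (fun b => s (σ a) b), hrow]
    rfl
  have key := sorted7 g hmono (by rw [c1, hsum]) ((hT _).trans hT2) (fun a b => s (σ a) (σ b))
    (fun a b => hs0 _ _) (fun a b => hsym _ _) (fun a => hdiag _) c5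
  rw [c2, c3, c4] at key
  have m01 : g 0 ≤ g 1 := hmono (by decide)
  have m12 : g 1 ≤ g 2 := hmono (by decide)
  have m23 : g 2 ≤ g 3 := hmono (by decide)
  have m34 : g 3 ≤ g 4 := hmono (by decide)
  have m45 : g 4 ≤ g 5 := hmono (by decide)
  have m56 : g 5 ≤ g 6 := hmono (by decide)
  have p1 := pow_nonneg (sub_nonneg.2 m01) 3
  have p2 := pow_nonneg (sub_nonneg.2 m12) 3
  have p3 := pow_nonneg (sub_nonneg.2 m23) 3
  have p5 := pow_nonneg (sub_nonneg.2 m45) 3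
  have p6 := pow_nonneg (sub_nonneg.2 m56) 3
  have hP2 : 0 ≤ ∑ i, e i ^ 2 := Finset.sum_nonneg fun i _ => sq_nonneg _
  have hg6 : g 6 ≤ T := hT _
  constructor
  · nlinarith [mul_nonneg (sub_nonneg.2 hg6) hP2]
  · intro hle
    have hprod : 0 ≤ (3 / 4 - g 6) * (3 * ∑ i, e i ^ 2) :=
      mul_nonneg (by linarith) (by linarith)
    have z1 : (g 1 - g 0) ^ 3 = 0 := by linarith
    have z2 : (g 2 - g 1) ^ 3 = 0 := by linarith
    have z3 : (g 3 - g 2) ^ 3 = 0 := by linarith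
    have z5 : (g 5 - g 4) ^ 3 = 0 := by linarith
    have z6 : (g 6 - g 5) ^ 3 = 0 := by linarith
    have y1 := pow_eq_zero_iff (three_ne_zero) |>.1 z1
    have y2 := pow_eq_zero_iff (three_ne_zero) |>.1 z2
    have y3 := pow_eq_zero_iff (three_ne_zero) |>.1 z3
    have y5 := pow_eq_zero_iff (three_ne_zero) |>.1 z5
    have y6 := pow_eq_zero_iff (three_ne_zero) |>.1 z6
    have hz : (3 / 4 - g 6) * (3 * ∑ i, e i ^ 2) = 0 := le_antisymm (by linarith) hprod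
    rcases mul_eq_zero.1 hz with h0 | h0
    · right
      have s7 : g 0 + g 1 + g 2 + g 3 + g 4 + g 5 + g 6 = 0 := by
        rw [← Fin.sum_univ_seven, c1, hsum]
      have all : ∀ a, g a = 3 / 4 ∨ g a = - (9 / 16) := by
        intro a
        fin_cases a
        · right; change g 0 = _; linarith
        · right; change g 1 = _; linarith
        · right; change g 2 = _; linarith
        · right; change g 3 = _; linarith
        · left; change g 4 = _; linarith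
        · left; change g 5 = _; linarith
        · left; change g 6 = _; linarith
      intro a
      have := all (σ.symm a)
      simpa [hg] using this
    · left
      have h1 : ∑ i, e i ^ 2 = 0 := by linarith
      intro a
      have := (Finset.sum_eq_zero_iff_of_nonneg (fun i _ => sq_nonneg (e i))).1 h1 a
        (Finset.mem_univ a)
      exact pow_eq_zero_iff (two_ne_zero) |>.1 this

end Pool.Agent.L5helper93.Ein
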