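import Mathlib
import Pool.Agent.L5helper93.Ein.Hom
import Pool.Agent.L5helper93.Ein.Sort

/-!
# The eigenvalue configuration of a Jacobi operator
-/

namespace Pool.Agent.L5helper93.Ein

open Finset Matrix

set_option linter.unusedSectionVars false
set_option linter.unusedVariables false
set_option linter.unusedSimpArgs false

variable {m : ℕ} {A : Fin (m + 1) → Fin (m + 1) → Fin (m + 1) → Fin (m + 1) → ℝ}

/-- The eigenvalue configuration of the Jacobi operator of a unit vector. -/
theorem config (h : IsCurv A) (hE : IsEin A) {t : ℝ} (hK : SecLE A (1 + t))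
    {x : Fin (m + 1) → ℝ} (hx : ∑ a, x a ^ 2 = 1) :
    ∃ (w : Fin m → Fin (m + 1) → ℝ) (e : Fin m → ℝ) (s : Fin m → Fin m → ℝ),
      (∀ i j, ∑ a, w i a * w j a = if i = j then 1 else 0) ∧
      (∀ i, ∑ a, w i a * x a = 0) ∧
      (∀ a b, (∑ i, w i a * w i b) + x a * x b = if a = b then 1 else 0) ∧
      (∀ a b, Jf A x a b = ∑ i, (1 + e i) * (w i a * w i b)) ∧
      (∀ i, 1 + e i = Kf A (w i) x) ∧
      (∀ i, e i ≤ t) ∧ (∀ a b, 0 ≤ s a b) ∧ (∀ a b, s a b = s b a) ∧ (∀ a, s a a = 0) ∧
      (∀ a, ∑ b, s a b = ((m : ℝ) - 1) * t + e a) ∧ ∑ i, e i = 0 ∧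
      5 * Phi A x = (3 * m + 5 * t) * ∑ i, e i ^ 2 - (m + 5) * ∑ i, e i ^ 3 +
        5 * ∑ a, ∑ b, s a b * (e a * e b) ∧
      Dev A x = ∑ i, e i ^ 2 := by
  obtain ⟨w, l, h1, h2, h3, h4⟩ := exists_frame (Matrix.of (fun a b => Jf A x a b))
    (by ext a b; exact Jf_symm h x b a) x hx (fun a => Jf_ker h x a)
  simp only [Matrix.of_apply] at h4
  -- unit vectors
  have hw : ∀ i, ∑ a, w i a ^ 2 = 1 := by
    intro i
    have := h1 i i
    rw [if_pos rfl] at this
    rw [← this]
    exact Finset.sum_congr rfl fun a _ => pow_two _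
  -- eigenvalues are sectional curvatures
  have hl : ∀ i, l i = Kf A (w i) x := by
    intro i
    rw [Kf_Jf]
    simp only [h4]
    have e : ∑ a, ∑ b, (∑ j, l j * (w j a * w j b)) * (w i a * w i b) =
        ∑ j, l j * ((∑ a, w j a * w i a) * (∑ b, w j b * w i b)) := by
      simp only [Finset.sum_mul_sum]
      simp only [Finset.mul_sum, Finset.sum_mul]
      have s : ∀ a : Fin (m + 1), ∑ b, ∑ j, l j * (w j a * w j b) * (w i a * w i b) =
          ∑ j, ∑ b, l j * (w j a * w j b) * (w i a * w i b) := fun b => Finset.sum_comm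
      simp only [s]
      rw [Finset.sum_comm]
      refine Finset.sum_congr rfl fun j _ => ?_
      refine Finset.sum_congr rfl fun a _ => Finset.sum_congr rfl fun b _ => ?_
      ring
    rw [e]
    have e2 : ∀ j, l j * ((∑ a, w j a * w i a) * (∑ b, w j b * w i b)) =
        l j * (if i = j then (1:ℝ) else 0) := by
      intro j
      rw [h1]
      by_cases hij : i = j
      · subst hij; simp
      · simp [hij, Ne.symm hij]
    simp only [e2]
    exact (sum_delta l i).symm
  have hle : ∀ i, l i ≤ 1 + t := by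
    intro i
    rw [hl]
    exact hK _ _ (hw i) hx (by rw [← h2 i])
  -- the pair curvatures
  set K : Fin m → Fin m → ℝ := fun i j => Kf A (w i) (w j) with hKd
  have hKs : ∀ i j, K i j = K j i := fun i j => Kf_symm h _ _
  have hKd0 : ∀ i, K i i = 0 := fun i => Kf_self h _
  have hKle : ∀ i j, i ≠ j → K i j ≤ 1 + t := by
    intro i j hij
    exact hK _ _ (hw i) (hw j) (by rw [h1, if_neg hij])
  have hKrow : ∀ i, ∑ j, K i j = m - l i := by
    intro i
    have e := Kf_rowsum h hE h3 (w i)
    rw [hw i, ← hl i] at e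
    linarith
  have hlsum : ∑ i, l i = m := by
    have e := Kf_rowsum h hE h3 x
    rw [hx, Kf_self h x] at e
    have e2 : ∑ i, l i = ∑ j, Kf A x (w j) := Finset.sum_congr rfl fun i _ => by
      rw [hl, Kf_symm h]
    rw [e2]
    linarith
  set e : Fin m → ℝ := fun i => l i - 1 with he
  set s : Fin m → Fin m → ℝ := fun i j => if i = j then 0 else 1 + t - K i j with hs
  have hm1 : (Finset.univ : Finset (Fin m)).card = m := by simp
  have hssum : ∀ (g : Fin m → ℝ) i, ∑ j, s i j * g j = (1 + t) * ((∑ j, g j) - g i) -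
      ∑ j, K i j * g j := by
    intro g i
    have e1 : ∀ j, s i j * g j = (1 + t) * g j - K i j * g j -
        (1 + t) * g j * (if i = j then (1:ℝ) else 0) := by
      intro j
      by_cases hij : i = j
      · subst hij
        simp only [hs, if_true, hKd0]
        ring
      · simp only [hs, hij, if_false]
        ring
    simp only [e1]
    rw [Finset.sum_sub_distrib, Finset.sum_sub_distrib, sum_delta (fun j => (1 + t) * g j) i,
      ← Finset.mul_sum]
    ring
  have hrow : ∀ a, ∑ b, s a b = ((m : ℝ) - 1) * t + e a := by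
    intro a
    have e1 := hssum (fun _ => 1) a
    simp only [mul_one] at e1
    rw [e1, hKrow a, Finset.sum_const, hm1, nsmul_eq_mul]
    simp only [he]
    ring
  -- moments
  have esum : ∑ i, e i = 0 := by
    simp only [he, Finset.sum_sub_distrib, hlsum, Finset.sum_const, hm1]
    simp
  have l2 : ∑ i, l i ^ 2 = m + ∑ i, e i ^ 2 := by
    have : ∀ i, l i ^ 2 = 1 + 2 * e i + e i ^ 2 := fun i => by simp only [he]; ring
    simp only [this, Finset.sum_add_distrib, ← Finset.mul_sum, esum, Finset.sum_const, hm1]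
    simp
  have l3 : ∑ i, l i ^ 3 = m + 3 * ∑ i, e i ^ 2 + ∑ i, e i ^ 3 := by
    have : ∀ i, l i ^ 3 = 1 + 3 * e i + 3 * e i ^ 2 + e i ^ 3 := fun i => by
      simp only [he]; ring
    simp only [this, Finset.sum_add_distrib, ← Finset.mul_sum, esum, Finset.sum_const, hm1]
    simp
  have hW : ∑ i, ∑ j, l i * l j * K i j = (m:ℝ) * (m - 1) - (3 + t) * ∑ i, e i ^ 2 -
      ∑ a, ∑ b, s a b * (e a * e b) := by
    have q1 : ∑ a, ∑ b, s a b * (e a * e b) = - (1 + t) * ∑ i, e i ^ 2 -
        ∑ i, ∑ j, e i * e j * K i j := by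
      have q0 : ∀ a, ∑ b, s a b * (e a * e b) = - (1 + t) * e a ^ 2 - ∑ j, e a * e j * K a j := by
        intro a
        have := hssum e a
        have r : ∑ b, s a b * (e a * e b) = e a * ∑ b, s a b * e b := by
          rw [Finset.mul_sum]; exact Finset.sum_congr rfl fun b _ => by ring
        rw [r, this, esum, mul_sub, Finset.mul_sum]
        congr 1
        · ring
        · exact Finset.sum_congr rfl fun b _ => by ring
      simp only [q0, Finset.sum_sub_distrib, ← Finset.mul_sum]
    have q2 : ∑ i, ∑ j, l i * l j * K i j = ∑ i, ∑ j, K i j + 2 * ∑ i, e i * ∑ j, K i j +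
        ∑ i, ∑ j, e i * e j * K i j := by
      have r1 : ∀ i j, l i * l j * K i j = K i j + e i * K i j + e j * K i j +
          e i * e j * K i j := by
        intro i j; simp only [he]; ring
      simp only [r1, Finset.sum_add_distrib]
      have r2 : ∑ i, ∑ j, e j * K i j = ∑ i, ∑ j, e i * K i j := by
        rw [Finset.sum_comm]
        exact Finset.sum_congr rfl fun i _ => Finset.sum_congr rfl fun j _ => by rw [hKs]
      rw [r2]
      simp only [Finset.mul_sum]
      have r3 : ∑ i, ∑ j, 2 * (e i * K i j) = ∑ i, ∑ j, e i * K i j +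
          ∑ i, ∑ j, e i * K i j := by
        simp only [← Finset.sum_add_distrib]
        exact Finset.sum_congr rfl fun i _ => Finset.sum_congr rfl fun j _ => by ring
      rw [r3]
      ring
    have q3 : ∑ i, ∑ j, K i j = (m:ℝ) * (m - 1) := by
      simp only [hKrow, Finset.sum_sub_distrib, hlsum, Finset.sum_const, hm1, nsmul_eq_mul]
      ring
    have q4 : ∑ i, e i * ∑ j, K i j = - ∑ i, e i ^ 2 := by
      have r : ∀ i, e i * ∑ j, K i j = (m - 1) * e i - e i ^ 2 := by
        intro i
        rw [hKrow]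
        simp only [he]
        ring
      simp only [r, Finset.sum_sub_distrib, ← Finset.mul_sum, esum]
      ring
    rw [q2, q3, q4, q1]
    ring
  have hn2 : n2 x = 1 := hx
  have hcard : (Fintype.card (Fin (m + 1)) : ℝ) = m + 1 := by simp
  refine ⟨w, e, s, h1, h2, h3, ?_, ?_, ?_, ?_, ?_, ?_, hrow, esum, ?_, ?_⟩
  · intro a b
    rw [h4]
    exact Finset.sum_congr rfl fun i _ => by simp only [he]; ring
  · intro i
    rw [← hl]
    simp only [he]; ring
  · intro i
    simp only [he]
    linarith [hle i]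
  · intro a b
    by_cases hab : a = b
    · simp [hs, hab]
    · simp only [hs, hab, if_false]; linarith [hKle a b hab]
  · intro a b
    by_cases hab : a = b
    · simp [hs, hab]
    · simp only [hs, hab, Ne.symm hab, if_false, hKs a b]
  · intro a
    simp [hs]
  · unfold Phi
    rw [tJ2_frame h1 h4, tJ3_frame h1 h4, WJ_frame h4, hn2, hcard, l2, l3]
    change 5 * (6 / 5 * ((m:ℝ) + 1 - 1) * (1 * ((m:ℝ) + ∑ i, e i ^ 2)) -
      ((m:ℝ) + 1 + 4) / 5 * ((m:ℝ) + 3 * ∑ i, e i ^ 2 + ∑ i, e i ^ 3) -
      1 * ∑ i, ∑ j, l i * l j * K i j) = _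
    rw [hW]
    ring
  · unfold Dev
    rw [tJ2_frame h1 h4, hn2, hcard, l2]
    ring

end Pool.Agent.L5helper93.Ein
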