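import Mathlib
import Pool.Agent.L5helper93.Ein.QF

/-!
# A three-point product cubature with the Gaussian moments up to order five

Its nodes contain the multiples of the coordinate vectors.
-/

namespace Pool.Agent.L5helper93.Ein

open Finset

set_option linter.unusedSectionVars false
set_option linter.unusedVariables false
set_option linter.unusedSimpArgs false

/-- The three nodes. -/
noncomputable def nd3 : Fin 3 → ℝ := ![0, Real.sqrt 3, - Real.sqrt 3]

/-- The three weights. -/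
noncomputable def wt3 : Fin 3 → ℝ := ![2 / 3, 1 / 6, 1 / 6]

theorem wt3_pos (j : Fin 3) : 0 < wt3 j := by
  fin_cases j <;> simp [wt3]

/-- The moments of the rule. -/
noncomputable def mom3 (k : ℕ) : ℝ := ∑ j, wt3 j * nd3 j ^ k

theorem sqrt3_sq : Real.sqrt 3 ^ 2 = 3 := Real.sq_sqrt (by norm_num)

theorem mom3_zero : mom3 0 = 1 := by
  simp [mom3, Fin.sum_univ_three, wt3]
  norm_num

theorem mom3_one : mom3 1 = 0 := by
  simp [mom3, Fin.sum_univ_three, wt3, nd3]

theorem mom3_two : mom3 2 = 1 := by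
  simp only [mom3, Fin.sum_univ_three, wt3, nd3]
  simp only [Matrix.cons_val_zero, Matrix.cons_val_one, Matrix.cons_val]
  rw [neg_sq, sqrt3_sq]
  norm_num

theorem mom3_three : mom3 3 = 0 := by
  simp only [mom3, Fin.sum_univ_three, wt3, nd3]
  simp only [Matrix.cons_val_zero, Matrix.cons_val_one, Matrix.cons_val]
  ring

theorem mom3_four : mom3 4 = 3 := by
  simp only [mom3, Fin.sum_univ_three, wt3, nd3]
  simp only [Matrix.cons_val_zero, Matrix.cons_val_one, Matrix.cons_val]
  have h := sqrt3_sq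
  have e1 : Real.sqrt 3 ^ 4 = 9 := by
    rw [show Real.sqrt 3 ^ 4 = (Real.sqrt 3 ^ 2) ^ 2 by ring, h]
    norm_num
  have e2 : (-Real.sqrt 3) ^ 4 = 9 := by
    rw [← e1]; ring
  rw [e1, e2]
  norm_num

theorem mom3_succ (k : ℕ) (hk : k ≤ 3) : mom3 (k + 1) = k * mom3 (k - 1) := by
  interval_cases k
  · rw [mom3_one]; simp
  · rw [mom3_two, mom3_zero]; simp
  · rw [mom3_three, mom3_one]; simp
  · rw [mom3_four, mom3_two]; norm_num

variable {ι : Type*} [Fintype ι] [DecidableEq ι]

/-- The product cubature. -/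
noncomputable def E3 (F : (ι → ℝ) → ℝ) : ℝ :=
  ∑ σ : ι → Fin 3, (∏ i, wt3 (σ i)) * F (fun i => nd3 (σ i))

theorem E3_nonneg (F : (ι → ℝ) → ℝ) (hF : ∀ x, 0 ≤ F x) : 0 ≤ E3 F :=
  Finset.sum_nonneg fun σ _ => mul_nonneg (Finset.prod_nonneg fun i _ => (wt3_pos _).le) (hF _)

theorem E3_add (F G : (ι → ℝ) → ℝ) : E3 (fun x => F x + G x) = E3 F + E3 G := by
  simp only [E3, mul_add, Finset.sum_add_distrib]

theorem E3_smul (c : ℝ) (F : (ι → ℝ) → ℝ) : E3 (fun x => c * F x) = c * E3 F := by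
  simp only [E3, Finset.mul_sum]
  exact Finset.sum_congr rfl fun σ _ => by ring

theorem E3_sub (F G : (ι → ℝ) → ℝ) : E3 (fun x => F x - G x) = E3 F - E3 G := by
  simp only [E3, mul_sub, Finset.sum_sub_distrib]

theorem E3_sum {κ : Type*} (s : Finset κ) (F : κ → (ι → ℝ) → ℝ) :
    E3 (fun x => ∑ a ∈ s, F a x) = ∑ a ∈ s, E3 (F a) := by
  simp only [E3, Finset.mul_sum]
  rw [Finset.sum_comm]

theorem E3_zero {F : (ι → ℝ) → ℝ} (hF : ∀ x, 0 ≤ F x) (hE : E3 F ≤ 0) (σ : ι → Fin 3) :
    F (fun i => nd3 (σ i)) = 0 := by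
  have h1 : ∀ σ : ι → Fin 3, 0 ≤ (∏ i, wt3 (σ i)) * F (fun i => nd3 (σ i)) := fun σ =>
    mul_nonneg (Finset.prod_nonneg fun i _ => (wt3_pos _).le) (hF _)
  have h2 : E3 F = 0 := le_antisymm hE (E3_nonneg F hF)
  have h3 := (Finset.sum_eq_zero_iff_of_nonneg fun σ _ => h1 σ).1 h2 σ (Finset.mem_univ σ)
  rcases mul_eq_zero.1 h3 with h4 | h4
  · exact absurd h4 (Finset.prod_pos fun i _ => wt3_pos _).ne'
  · exact h4

/-- The node on a coordinate axis. -/
theorem E3_zero_axis {F : (ι → ℝ) → ℝ} (hF : ∀ x, 0 ≤ F x) (hE : E3 F ≤ 0) (i : ι) :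
    F (fun j => Real.sqrt 3 * dl j i) = 0 := by
  have h := E3_zero hF hE (fun j => if j = i then 1 else 0)
  have e : (fun j => nd3 (if j = i then 1 else 0)) = fun j => Real.sqrt 3 * dl j i := by
    ext j
    by_cases hj : j = i
    · simp [hj, nd3, dl]
    · simp [hj, nd3, dl]
  rw [← e]
  exact h

/-- The moment of the multi-index `c`. -/
noncomputable def mm3 (c : ι → ℕ) : ℝ := ∏ r, mom3 (c r)

theorem E3_monomial (c : ι → ℕ) : E3 (fun x : ι → ℝ => ∏ r, x r ^ c r) = mm3 c := by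
  unfold E3 mm3 mom3
  rw [Finset.prod_univ_sum]
  simp only [Fintype.piFinset_univ]
  refine Finset.sum_congr rfl fun σ _ => ?_
  rw [Finset.prod_mul_distrib]

theorem mm3_zero : mm3 (0 : ι → ℕ) = 1 := by
  simp [mm3, mom3_zero]

theorem mm3_stein (a : ι) (c : ι → ℕ) (h : c a ≤ 3) :
    mm3 (ev a + c) = c a * mm3 (c - ev a) := by
  unfold mm3
  rw [← Finset.mul_prod_erase Finset.univ _ (Finset.mem_univ a),
    ← Finset.mul_prod_erase Finset.univ (fun r => mom3 ((c - ev a) r)) (Finset.mem_univ a)]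
  have h1 : (ev a + c) a = c a + 1 := by simp [ev, add_comm]
  have h2 : (c - ev a) a = c a - 1 := by simp [ev]
  rw [h1, h2, mom3_succ _ h, mul_assoc]
  congr 2
  refine Finset.prod_congr rfl fun r hr => ?_
  have hr' : r ≠ a := (Finset.mem_erase.1 hr).1
  have e1 : (ev a + c) r = c r := by simp [ev, hr']
  have e2 : (c - ev a) r = c r := by simp [ev, hr']
  rw [e1, e2]

theorem mm3_two (a b : ι) : mm3 (ev a + ev b) = dl a b := by
  have h := mm3_stein a (ev b) (by simp only [ev, Pi.single_apply]; split_ifs <;> norm_num)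
  rw [h, ev_apply]
  by_cases hab : a = b
  · subst hab
    have : ev a - ev a = (0 : ι → ℕ) := by ext r; simp
    rw [this, mm3_zero, mul_one]
  · simp [dl, hab, Ne.symm hab]

theorem dl_mm3 (a j : ι) (c d : ι → ℕ) (h : c = ev j + d) :
    dl j a * mm3 (c - ev a) = dl a j * mm3 d := by
  by_cases hja : a = j
  · subst hja
    have : c - ev a = d := by
      rw [h]; ext r; simp
    rw [this]
  · simp [dl, hja, Ne.symm hja]

theorem mm3_four (a b c d : ι) : mm3 (ev a + (ev b + ev c + ev d)) =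
    dl a b * dl c d + dl a c * dl b d + dl a d * dl b c := by
  have h := mm3_stein a (ev b + ev c + ev d)
    (by simp only [ev, Pi.add_apply, Pi.single_apply]; split_ifs <;> norm_num)
  rw [h]
  have e1 := dl_mm3 a b (ev b + ev c + ev d) (ev c + ev d) (by abel)
  have e2 := dl_mm3 a c (ev b + ev c + ev d) (ev b + ev d) (by abel)
  have e3 := dl_mm3 a d (ev b + ev c + ev d) (ev b + ev c) (by abel)
  rw [mm3_two] at e1 e2 e3
  rw [← e1, ← e2, ← e3]
  simp only [Pi.add_apply, Nat.cast_add, ev_apply]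
  ring

theorem E3_four (a b c d : ι) : E3 (fun x : ι → ℝ => x a * x b * (x c * x d)) =
    dl a b * dl c d + dl a c * dl b d + dl a d * dl b c := by
  rw [← mm3_four, ← E3_monomial]
  congr 1
  ext x
  simp only [prod_add', prod_ev]
  ring

/-- The expectation of a quartic form. -/
theorem E3_quartic (T : ι → ι → ι → ι → ℝ) :
    E3 (fun x => ∑ a, ∑ b, ∑ c, ∑ d, T a b c d * (x a * x b * (x c * x d))) =
      (∑ a, ∑ c, T a a c c) + (∑ a, ∑ b, T a b a b) + ∑ a, ∑ b, T a b b a := by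
  simp only [E3_sum, E3_smul, E3_four]
  have h : ∀ a b c d : ι, T a b c d * (dl a b * dl c d + dl a c * dl b d + dl a d * dl b c) =
      T a b c d * dl c d * dl a b + T a b c d * dl b d * dl a c + T a b c d * dl a d * dl b c := by
    intro a b c d; ring
  simp only [h, Finset.sum_add_distrib]
  have h1 : ∑ a, ∑ b, ∑ c, ∑ d, T a b c d * dl c d * dl a b = ∑ a, ∑ c, T a a c c := by
    refine Finset.sum_congr rfl fun a _ => ?_
    have : ∀ b, ∑ c, ∑ d, T a b c d * dl c d * dl a b = (∑ c, T a b c c) * dl a b := by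
      intro b
      rw [Finset.sum_mul]
      refine Finset.sum_congr rfl fun c _ => ?_
      rw [← Finset.sum_mul, sum_dl (fun d => T a b c d) c]
    simp only [this]
    rw [sum_dl (fun b => ∑ c, T a b c c) a]
  have h2 : ∑ a, ∑ b, ∑ c, ∑ d, T a b c d * dl b d * dl a c = ∑ a, ∑ b, T a b a b := by
    refine Finset.sum_congr rfl fun a _ => Finset.sum_congr rfl fun b _ => ?_
    have : ∀ c, ∑ d, T a b c d * dl b d * dl a c = T a b c b * dl a c := by
      intro c
      rw [← Finset.sum_mul, sum_dl (fun d => T a b c d) b]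
    simp only [this]
    rw [sum_dl (fun c => T a b c b) a]
  have h3 : ∑ a, ∑ b, ∑ c, ∑ d, T a b c d * dl a d * dl b c = ∑ a, ∑ b, T a b b a := by
    refine Finset.sum_congr rfl fun a _ => Finset.sum_congr rfl fun b _ => ?_
    have : ∀ c, ∑ d, T a b c d * dl a d * dl b c = T a b c a * dl b c := by
      intro c
      rw [← Finset.sum_mul, sum_dl (fun d => T a b c d) a]
    simp only [this]
    rw [sum_dl (fun c => T a b c a) b]
  rw [h1, h2, h3]

end Pool.Agent.L5helper93.Ein
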