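import Mathlib
import Pool.Agent.L5helper93.Ein.Quad3
import Pool.Agent.L5helper93.Ein.Alg

/-!
# Algebra of two-forms and curvature tensors
-/

namespace Pool.Agent.L5helper93.Ein

open Finset

set_option linter.unusedSectionVars false
set_option linter.unusedVariables false
set_option linter.unusedSimpArgs false

variable {ι : Type*} [Fintype ι] [DecidableEq ι]

/-- The curvature tensor on a two-form. -/
def Wt (A : ι → ι → ι → ι → ℝ) (w : ι → ι → ℝ) : ℝ :=
  ∑ a, ∑ b, ∑ c, ∑ d, A a b c d * (w a b * w c d)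

/-- Ricci. -/
def Rc (A : ι → ι → ι → ι → ℝ) (a b : ι) : ℝ := ∑ i, A a i b i

/-- The Ricci term. -/
def Pt (A : ι → ι → ι → ι → ℝ) (w : ι → ι → ℝ) : ℝ := ∑ a, ∑ b, Rc A a b * ∑ c, w a c * w b c

/-- The squared norm. -/
def w2 (w : ι → ι → ℝ) : ℝ := ∑ a, ∑ b, w a b ^ 2

/-- Application of a matrix. -/
def ap (w : ι → ι → ℝ) (v : ι → ℝ) (a : ι) : ℝ := ∑ b, w a b * v b

/-- The numerator of the sectional curvature. -/
def KF (A : ι → ι → ι → ι → ℝ) (u v : ι → ℝ) : ℝ :=
  ∑ a, ∑ b, ∑ c, ∑ d, A a b c d * (u a * v b * (u c * v d))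

theorem sw12 (f : ι → ι → ι → ι → ℝ) :
    ∑ a, ∑ b, ∑ c, ∑ d, f a b c d = ∑ a, ∑ b, ∑ c, ∑ d, f b a c d := by
  rw [Finset.sum_comm]

theorem sw23 (f : ι → ι → ι → ι → ℝ) :
    ∑ a, ∑ b, ∑ c, ∑ d, f a b c d = ∑ a, ∑ b, ∑ c, ∑ d, f a c b d :=
  Finset.sum_congr rfl fun a _ => by rw [Finset.sum_comm]

theorem sw34 (f : ι → ι → ι → ι → ℝ) :
    ∑ a, ∑ b, ∑ c, ∑ d, f a b c d = ∑ a, ∑ b, ∑ c, ∑ d, f a b d c :=
  Finset.sum_congr rfl fun a _ => Finset.sum_congr rfl fun b _ => by rw [Finset.sum_comm]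

variable {A : ι → ι → ι → ι → ℝ} {w : ι → ι → ℝ}

theorem UW (h : IsCurv A) (hw : ∀ a b, w a b = - w b a) :
    ∑ a, ∑ b, ∑ c, ∑ d, A a b c d * (w a c * w b d) = Wt A w / 2 := by
  have h1 : ∑ a, ∑ b, ∑ c, ∑ d, (A a b c d + A b c a d + A c a b d) * (w a b * w c d) = 0 := by
    refine Finset.sum_eq_zero fun a _ => Finset.sum_eq_zero fun b _ =>
      Finset.sum_eq_zero fun c _ => Finset.sum_eq_zero fun d _ => ?_
    rw [h.bi, zero_mul]
  simp only [add_mul, Finset.sum_add_distrib] at h1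
  have h2 : ∑ a, ∑ b, ∑ c, ∑ d, A b c a d * (w a b * w c d) =
      - ∑ a, ∑ b, ∑ c, ∑ d, A a b c d * (w a c * w b d) := by
    rw [sw12, sw23]
    simp only [← Finset.sum_neg_distrib]
    refine Finset.sum_congr rfl fun a _ => Finset.sum_congr rfl fun b _ =>
      Finset.sum_congr rfl fun c _ => Finset.sum_congr rfl fun d _ => ?_
    rw [hw c a]
    ring
  have h3 : ∑ a, ∑ b, ∑ c, ∑ d, A c a b d * (w a b * w c d) =
      - ∑ a, ∑ b, ∑ c, ∑ d, A a b c d * (w a c * w b d) := by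
    rw [sw23, sw12]
    simp only [← Finset.sum_neg_distrib]
    rw [show (∑ a, ∑ b, ∑ c, ∑ d, A a b c d * (w b c * w a d)) =
      ∑ a, ∑ b, ∑ c, ∑ d, A a b d c * (w b d * w a c) from sw34 _]
    refine Finset.sum_congr rfl fun a _ => Finset.sum_congr rfl fun b _ =>
      Finset.sum_congr rfl fun c _ => Finset.sum_congr rfl fun d _ => ?_
    rw [h.a2 a b d c]
    ring
  rw [h2, h3] at h1
  unfold Wt
  linarith

theorem VW (h : IsCurv A) (hw : ∀ a b, w a b = - w b a) :
    ∑ a, ∑ b, ∑ c, ∑ d, A a b c d * (w a d * w b c) = - (Wt A w / 2) := by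
  rw [← UW h hw, sw34]
  simp only [← Finset.sum_neg_distrib]
  refine Finset.sum_congr rfl fun a _ => Finset.sum_congr rfl fun b _ =>
      Finset.sum_congr rfl fun c _ => Finset.sum_congr rfl fun d _ => ?_
  rw [h.a2 a b d c]
  ring

theorem Rc_eq (h : IsCurv A) (l q : ι) : ∑ a, A a l a q = Rc A l q := by
  unfold Rc
  refine Finset.sum_congr rfl fun a _ => ?_
  rw [h.a1 a l a q, h.a2 l a a q]
  ring

theorem KF_quartic (v : ι → ℝ) : KF A v (ap w v) =
    ∑ a, ∑ b, ∑ c, ∑ d, (∑ l, ∑ q, A a l c q * (w l b * w q d)) * (v a * v b * (v c * v d)) := by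
  unfold KF ap
  refine Finset.sum_congr rfl fun a _ => ?_
  have e1 : ∀ l c q, A a l c q * (v a * (∑ b, w l b * v b) * (v c * ∑ d, w q d * v d)) =
      ∑ b, ∑ d, A a l c q * (w l b * w q d) * (v a * v b * (v c * v d)) := by
    intro l c q
    rw [Finset.mul_sum, Finset.mul_sum, Finset.sum_mul_sum, Finset.mul_sum]
    refine Finset.sum_congr rfl fun b _ => ?_
    rw [Finset.mul_sum]
    refine Finset.sum_congr rfl fun d _ => ?_
    ring
  simp only [e1, Finset.sum_mul]
  calc ∑ l, ∑ c, ∑ q, ∑ b, ∑ d, A a l c q * (w l b * w q d) * (v a * v b * (v c * v d))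
      = ∑ c, ∑ l, ∑ q, ∑ b, ∑ d, A a l c q * (w l b * w q d) * (v a * v b * (v c * v d)) :=
        Finset.sum_comm
    _ = ∑ c, ∑ l, ∑ b, ∑ q, ∑ d, A a l c q * (w l b * w q d) * (v a * v b * (v c * v d)) :=
        Finset.sum_congr rfl fun c _ => Finset.sum_congr rfl fun l _ => Finset.sum_comm
    _ = ∑ c, ∑ b, ∑ l, ∑ q, ∑ d, A a l c q * (w l b * w q d) * (v a * v b * (v c * v d)) :=
        Finset.sum_congr rfl fun c _ => Finset.sum_comm
    _ = ∑ b, ∑ c, ∑ l, ∑ q, ∑ d, A a l c q * (w l b * w q d) * (v a * v b * (v c * v d)) :=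
        Finset.sum_comm
    _ = ∑ b, ∑ c, ∑ l, ∑ d, ∑ q, A a l c q * (w l b * w q d) * (v a * v b * (v c * v d)) :=
        Finset.sum_congr rfl fun b _ => Finset.sum_congr rfl fun c _ =>
          Finset.sum_congr rfl fun l _ => Finset.sum_comm
    _ = ∑ b, ∑ c, ∑ d, ∑ l, ∑ q, A a l c q * (w l b * w q d) * (v a * v b * (v c * v d)) :=
        Finset.sum_congr rfl fun b _ => Finset.sum_congr rfl fun c _ => Finset.sum_comm

/-- The average of the sectional curvatures of the planes spanned by `v` and `w v`. -/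
theorem E3_KF (h : IsCurv A) (hw : ∀ a b, w a b = - w b a) :
    E3 (fun v => KF A v (ap w v)) = 3 / 2 * Wt A w + Pt A w := by
  simp only [KF_quartic]
  rw [E3_quartic]
  have h1 : ∑ a, ∑ c, ∑ l, ∑ q, A a l c q * (w l a * w q c) = Wt A w := by
    unfold Wt
    rw [sw23]
    refine Finset.sum_congr rfl fun a _ => Finset.sum_congr rfl fun b _ =>
      Finset.sum_congr rfl fun c _ => Finset.sum_congr rfl fun d _ => ?_
    rw [hw b a, hw d c]
    ring
  have h2 : ∑ a, ∑ b, ∑ l, ∑ q, A a l a q * (w l b * w q b) = Pt A w := by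
    unfold Pt
    have e1 : ∀ l q, Rc A l q * ∑ c, w l c * w q c = ∑ a, ∑ b, A a l a q * (w l b * w q b) := by
      intro l q
      rw [← Rc_eq h, Finset.sum_mul_sum]
    simp only [e1]
    calc ∑ a, ∑ b, ∑ l, ∑ q, A a l a q * (w l b * w q b)
        = ∑ a, ∑ l, ∑ b, ∑ q, A a l a q * (w l b * w q b) := sw23 _
      _ = ∑ l, ∑ a, ∑ b, ∑ q, A a l a q * (w l b * w q b) := Finset.sum_comm
      _ = ∑ l, ∑ a, ∑ q, ∑ b, A a l a q * (w l b * w q b) := sw34 _
      _ = ∑ l, ∑ q, ∑ a, ∑ b, A a l a q * (w l b * w q b) := sw23 _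
  have h3 : ∑ a, ∑ b, ∑ l, ∑ q, A a l b q * (w l b * w q a) = Wt A w / 2 := by
    have := VW h hw
    rw [sw23]
    have e : ∑ a, ∑ l, ∑ b, ∑ q, A a l b q * (w l b * w q a) =
        - ∑ a, ∑ b, ∑ c, ∑ d, A a b c d * (w a d * w b c) := by
      simp only [← Finset.sum_neg_distrib]
      refine Finset.sum_congr rfl fun a _ => Finset.sum_congr rfl fun b _ =>
        Finset.sum_congr rfl fun c _ => Finset.sum_congr rfl fun d _ => ?_
      rw [hw d a]
      ring
    rw [e, this]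
    ring
  rw [h1, h2, h3]
  ring

/-- The average of the products of the squared norms. -/
theorem E3_norm : E3 (fun v => (∑ a, v a ^ 2) * ∑ l, ap w v l ^ 2) =
    ((Fintype.card ι : ℝ) + 2) * w2 w := by
  have e1 : ∀ v : ι → ℝ, (∑ a, v a ^ 2) * ∑ l, ap w v l ^ 2 =
      ∑ a, ∑ b, ∑ c, ∑ d, (dl a b * ∑ l, w l c * w l d) * (v a * v b * (v c * v d)) := by
    intro v
    have e2 : ∀ a, v a ^ 2 = ∑ b, dl a b * (v a * v b) := by
      intro a
      have := sum_dl (fun b => v a * v b) a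
      rw [pow_two, ← this]
      exact Finset.sum_congr rfl fun b _ => mul_comm _ _
    have e3 : ∑ l, ap w v l ^ 2 = ∑ c, ∑ d, (∑ l, w l c * w l d) * (v c * v d) := by
      have e4 : ∀ l, ap w v l ^ 2 = ∑ c, ∑ d, (w l c * w l d) * (v c * v d) := by
        intro l
        unfold ap
        rw [pow_two, Finset.sum_mul_sum]
        refine Finset.sum_congr rfl fun c _ => Finset.sum_congr rfl fun d _ => ?_
        ring
      simp only [e4, Finset.sum_mul]
      rw [Finset.sum_comm]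
      refine Finset.sum_congr rfl fun c _ => ?_
      rw [Finset.sum_comm]
    rw [e3]
    simp only [e2]
    rw [Finset.sum_mul]
    refine Finset.sum_congr rfl fun a _ => ?_
    rw [Finset.sum_mul]
    refine Finset.sum_congr rfl fun b _ => ?_
    rw [Finset.mul_sum]
    refine Finset.sum_congr rfl fun c _ => ?_
    rw [Finset.mul_sum]
    refine Finset.sum_congr rfl fun d _ => ?_
    ring
  simp only [e1]
  rw [E3_quartic]
  have hw2 : ∑ c, ∑ l, w l c * w l c = w2 w := by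
    unfold w2
    rw [Finset.sum_comm]
    refine Finset.sum_congr rfl fun l _ => Finset.sum_congr rfl fun c _ => ?_
    rw [pow_two]
  have h1 : ∑ a : ι, ∑ c, dl a a * ∑ l, w l c * w l c = (Fintype.card ι : ℝ) * w2 w := by
    simp only [dl_self, one_mul]
    rw [Finset.sum_const, hw2, Finset.card_univ, nsmul_eq_mul]
  have h2 : ∑ a, ∑ b, dl a b * ∑ l, w l a * w l b = w2 w := by
    rw [← hw2]
    refine Finset.sum_congr rfl fun a _ => ?_
    have := sum_dl (fun b => ∑ l, w l a * w l b) a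
    rw [← this]
    exact Finset.sum_congr rfl fun b _ => mul_comm _ _
  have h3 : ∑ a, ∑ b, dl a b * ∑ l, w l b * w l a = w2 w := by
    rw [← h2]
    refine Finset.sum_congr rfl fun a _ => Finset.sum_congr rfl fun b _ => ?_
    congr 1
    exact Finset.sum_congr rfl fun l _ => mul_comm _ _
  rw [h1, h2, h3]
  ring

/-- The defect of the sectional curvature of the plane of `v` and `w v`. -/
def Ff (A : ι → ι → ι → ι → ℝ) (w : ι → ι → ℝ) (k : ℝ) (v : ι → ℝ) : ℝ :=
  k * ((∑ a, v a ^ 2) * ∑ l, ap w v l ^ 2) - KF A v (ap w v)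

theorem E3_Ff (h : IsCurv A) (hw : ∀ a b, w a b = - w b a) (k : ℝ) :
    E3 (Ff A w k) = k * (((Fintype.card ι : ℝ) + 2) * w2 w) - (3 / 2 * Wt A w + Pt A w) := by
  have e : Ff A w k = fun v => k * ((∑ a, v a ^ 2) * ∑ l, ap w v l ^ 2) - KF A v (ap w v) := rfl
  rw [e, E3_sub (fun v => k * ((∑ a, v a ^ 2) * ∑ l, ap w v l ^ 2)) (fun v => KF A v (ap w v)),
    E3_smul, E3_norm, E3_KF h hw]

/-- The Bochner term. -/
theorem bochner_term (h : IsCurv A) (hw : ∀ a b, w a b = - w b a) (k : ℝ) :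
    2 * Pt A w - Wt A w = 8 / 3 * Pt A w - 2 / 3 * (k * (((Fintype.card ι : ℝ) + 2) * w2 w)) +
      2 / 3 * E3 (Ff A w k) := by
  rw [E3_Ff h hw]
  ring

/-- The Bochner formula for closed and coclosed two-forms, algebraic part. -/
theorem bochner_alg (h : IsCurv A) (hw : ∀ a b, w a b = - w b a) (D : ι → ι → ι → ι → ℝ)
    (hs : ∀ i j k l, D i j k l = - D i j l k)
    (hc : ∀ i j k l, D i j k l + D i k l j + D i l j k = 0)
    (hd : ∀ j l, ∑ i, D j i i l = 0)
    (hr : ∀ i j k l, D i j k l - D j i k l = ∑ s, (A i j k s * w s l + A i j l s * w k s)) :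
    ∑ k, ∑ l, (∑ i, D i i k l) * w k l = 2 * Pt A w - Wt A w := by
  have h1 : ∀ k l, ∑ i, D i i k l = - ∑ i, ∑ s, (A i k l s * w s i + A i k i s * w l s +
      (A i l i s * w s k + A i l k s * w i s)) := by
    intro k l
    have e1 : ∀ i, D i i k l = - (D k i l i + D l i i k) - ∑ s, (A i k l s * w s i +
        A i k i s * w l s + (A i l i s * w s k + A i l k s * w i s)) := by
      intro i
      have a1 := hc i i k l
      have a2 := hr i k l i
      have a3 := hr i l i k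
      rw [Finset.sum_add_distrib]
      linarith
    simp only [e1, Finset.sum_sub_distrib, Finset.sum_neg_distrib, Finset.sum_add_distrib (f := fun
      i => D k i l i)]
    have a1 : ∑ i, D k i l i = 0 := by
      rw [← neg_eq_zero, ← Finset.sum_neg_distrib, ← hd k l]
      exact Finset.sum_congr rfl fun i _ => by rw [hs k i i l]
    rw [a1, hd l k]
    ring
  simp only [h1]
  have h2 : ∀ k l, -(∑ i, ∑ s, (A i k l s * w s i + A i k i s * w l s +
      (A i l i s * w s k + A i l k s * w i s))) * w k l =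
      (∑ i, ∑ s, A i k l s * (w i s * w k l)) + (∑ i, ∑ s, A i k i s * (w s l * w k l)) +
      (∑ i, ∑ s, A i l i s * (w s k * w l k)) + (∑ i, ∑ s, A i l k s * (w i s * w l k)) := by
    intro k l
    rw [← Finset.sum_neg_distrib, Finset.sum_mul]
    simp only [← Finset.sum_add_distrib]
    refine Finset.sum_congr rfl fun i _ => ?_
    rw [← Finset.sum_neg_distrib, Finset.sum_mul]
    refine Finset.sum_congr rfl fun s _ => ?_
    rw [hw s i, hw l s, hw l k]
    ring
  rw [Finset.sum_congr rfl fun k _ => Finset.sum_congr rfl fun l _ => h2 k l]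
  simp only [Finset.sum_add_distrib]
  have t1 : ∑ k, ∑ l, ∑ i, ∑ s, A i k l s * (w i s * w k l) = - (Wt A w / 2) := by
    rw [← VW h hw, sw23, sw12]
  have t4 : ∑ k, ∑ l, ∑ i, ∑ s, A i l k s * (w i s * w l k) = - (Wt A w / 2) := by
    rw [← t1, sw12]
  have t2 : ∑ k, ∑ l, ∑ i, ∑ s, A i k i s * (w s l * w k l) = Pt A w := by
    unfold Pt
    have e1 : ∀ k s, Rc A k s * ∑ c, w k c * w s c = ∑ i, ∑ l, A i k i s * (w s l * w k l) := by
      intro k s
      rw [← Rc_eq h, Finset.sum_mul_sum]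
      refine Finset.sum_congr rfl fun i _ => Finset.sum_congr rfl fun l _ => ?_
      ring
    simp only [e1]
    calc ∑ k, ∑ l, ∑ i, ∑ s, A i k i s * (w s l * w k l)
        = ∑ k, ∑ i, ∑ l, ∑ s, A i k i s * (w s l * w k l) := sw23 _
      _ = ∑ k, ∑ i, ∑ s, ∑ l, A i k i s * (w s l * w k l) := sw34 _
      _ = ∑ k, ∑ s, ∑ i, ∑ l, A i k i s * (w s l * w k l) := sw23 _
  have t3 : ∑ k, ∑ l, ∑ i, ∑ s, A i l i s * (w s k * w l k) = Pt A w := by
    rw [← t2, sw12]
  rw [t1, t2, t3, t4]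
  ring

end Pool.Agent.L5helper93.Ein
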