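import Mathlib
import Pool.Agent.L5helper93.Ein.Alg

/-!
# The algebra of the Bochner formula for Einstein metrics
-/

namespace Pool.Agent.L5helper93.Ein

open Finset

set_option linter.unusedSectionVars false
set_option linter.unusedVariables false
set_option linter.unusedSimpArgs false

variable {ι : Type*} [Fintype ι] [DecidableEq ι]

/-- The action of the curvature on a four-tensor (Ricci identity). -/
def rid (A : ι → ι → ι → ι → ℝ) (i j k l m p : ι) : ℝ :=
  ∑ q, (A i j k q * A q l m p + A i j l q * A k q m p + A i j m q * A k l q p +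
    A i j p q * A k l m q)

theorem swap12 (f : ι → ι → ι → ι → ℝ) :
    ∑ a, ∑ b, ∑ c, ∑ d, f a b c d = ∑ a, ∑ b, ∑ c, ∑ d, f b a c d := by
  rw [Finset.sum_comm]

/-- The first cubic contraction. -/
theorem X1_eq {A : ι → ι → ι → ι → ℝ} (h : IsCurv A) :
    ∑ k, ∑ l, ∑ m, ∑ p, ∑ i, ∑ q, A k l m p * (A i k l q * A q i m p) =
      2 * X3 A - 2 * Y3 A := by
  have hM : ∀ a b c d, (Pm A - Pm A * Tm : Matrix (ι × ι) (ι × ι) ℝ) (a, b) (c, d) =
      A a b c d := by
    intro a b c d
    rw [Matrix.sub_apply, mul_T]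
    simp only [Pm, Matrix.of_apply, Prod.swap, Prod.fst_swap, Prod.snd_swap]
    have b1 := h.bi a b c d
    have i1 := h.a1 c a b d
    have i2 := h.pair b c a d
    linarith
  set M1 : Matrix (ι × ι) (ι × ι) ℝ := Pm A - Pm A * Tm with hM1
  have hMs : ∀ p q, M1 p q = M1 q p := by
    rintro ⟨a, b⟩ ⟨c, d⟩
    rw [hM, hM]; exact h.pair a b c d
  have e1 : ∑ k, ∑ l, ∑ m, ∑ p, ∑ i, ∑ q, A k l m p * (A i k l q * A q i m p) =
      - (M1 * M1 * (Tm * Pm A)).trace := by
    have e2 : (M1 * M1 * (Tm * Pm A)).trace = ∑ x : ι × ι, ∑ y : ι × ι, ∑ z : ι × ι,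
        M1 x y * M1 y z * (Tm * Pm A : Matrix (ι × ι) (ι × ι) ℝ) z x := by
      rw [Matrix.trace]
      refine Finset.sum_congr rfl fun x _ => ?_
      rw [Matrix.diag_apply, Matrix.mul_apply]
      have e3 : ∀ z, (M1 * M1 : Matrix (ι × ι) (ι × ι) ℝ) x z *
          (Tm * Pm A : Matrix (ι × ι) (ι × ι) ℝ) z x =
          ∑ y, M1 x y * M1 y z * (Tm * Pm A : Matrix (ι × ι) (ι × ι) ℝ) z x := by
        intro z
        rw [Matrix.mul_apply, Finset.sum_mul]
      simp only [e3]
      rw [Finset.sum_comm]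
    rw [e2]
    simp only [Fintype.sum_prod_type, ← Finset.sum_neg_distrib]
    refine Finset.sum_congr rfl fun k _ => Finset.sum_congr rfl fun l _ =>
      Finset.sum_congr rfl fun m _ => Finset.sum_congr rfl fun p _ => ?_
    rw [Finset.sum_comm]
    refine Finset.sum_congr rfl fun q _ => Finset.sum_congr rfl fun i _ => ?_
    rw [hM, hMs (m, p) (q, i), hM, T_mul]
    simp only [Pm, Matrix.of_apply, Prod.swap, Prod.fst_swap, Prod.snd_swap]
    rw [h.pair i k l q, h.pair i k q l, h.a1 l q i k]
    ring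
  have e4 : M1 * M1 * (Tm * Pm A) = 2 • (Pm A * Pm A * Pm A * Tm) - 2 • (Pm A * Pm A * Pm A) := by
    have c := P_comm h
    have t := T_sq (ι := ι)
    have e1 : ∀ B : Matrix (ι × ι) (ι × ι) ℝ, B * Tm * Pm A = B * Pm A * Tm := by
      intro B
      rw [mul_assoc, ← c, mul_assoc]
    have e2 : ∀ B : Matrix (ι × ι) (ι × ι) ℝ, B * Tm * Tm = B := by
      intro B
      rw [mul_assoc, t, mul_one]
    rw [hM1, ← c]
    simp only [sub_mul, mul_sub, ← mul_assoc, e1, e2]
    abel
  rw [e1, e4, Matrix.trace_sub, Matrix.trace_smul, Matrix.trace_smul]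
  unfold X3 Y3
  simp only [nsmul_eq_mul, Nat.cast_ofNat]
  ring

/-- The second cubic contraction. -/
theorem X2_eq {A : ι → ι → ι → ι → ℝ} (h : IsCurv A) :
    ∑ k, ∑ l, ∑ m, ∑ p, ∑ i, ∑ q, A k l m p * (A i k m q * A l i q p) = X3 A := by
  have e1 : X3 A = ∑ x : ι × ι, ∑ y : ι × ι, ∑ z : ι × ι, Pm A x y * Pm A y z * Pm A z x := by
    unfold X3
    rw [Matrix.trace]
    refine Finset.sum_congr rfl fun x _ => ?_
    rw [Matrix.diag_apply, Matrix.mul_apply]
    have e3 : ∀ z, (Pm A * Pm A : Matrix (ι × ι) (ι × ι) ℝ) x z * Pm A z x =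
        ∑ y, Pm A x y * Pm A y z * Pm A z x := by
      intro z
      rw [Matrix.mul_apply, Finset.sum_mul]
    simp only [e3]
    rw [Finset.sum_comm]
  rw [e1]
  simp only [Fintype.sum_prod_type]
  -- LHS order k l m p i q ;  RHS x = (k,m), y = (i,q), z = (l,p)
  refine Finset.sum_congr rfl fun k _ => ?_
  rw [Finset.sum_comm]
  refine Finset.sum_congr rfl fun m _ => ?_
  have r1 : ∀ l, ∑ p, ∑ i, ∑ q, A k l m p * (A i k m q * A l i q p) =
      ∑ i, ∑ q, ∑ p, A k l m p * (A i k m q * A l i q p) := by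
    intro l
    rw [Finset.sum_comm]
    exact Finset.sum_congr rfl fun i _ => Finset.sum_comm
  simp only [r1]
  rw [Finset.sum_comm]
  refine Finset.sum_congr rfl fun i _ => ?_
  rw [Finset.sum_comm]
  refine Finset.sum_congr rfl fun q _ => Finset.sum_congr rfl fun l _ =>
    Finset.sum_congr rfl fun p _ => ?_
  simp only [Pm, Matrix.of_apply]
  rw [h.a1 i k m q, h.a1 l i q p, h.a1 l k p m, h.a2 k l p m]
  ring

/-- The key algebraic identity behind the Bochner formula. -/
theorem lap_eq {A : ι → ι → ι → ι → ℝ} (h : IsCurv A) {c : ℝ}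
    (hE : ∀ a b, ∑ i, A a i b i = c * dl a b) (D : ι → ι → ι → ι → ι → ι → ℝ)
    (hD : ∀ i j, IsCurv (D i j))
    (hB : ∀ i j k l m p, D i j k l m p + D i k l j m p + D i l j k m p = 0)
    (hT : ∀ i j a b, ∑ k, D i j a k b k = 0)
    (hC : ∀ i j k l m p, D i j k l m p - D j i k l m p = rid A i j k l m p) :
    ∑ k, ∑ l, ∑ m, ∑ p, (∑ i, D i i k l m p) * A k l m p =
      2 * c * nS A - 8 * X3 A + 4 * Y3 A := by
  have d1 : ∀ k l m p, ∑ i, D i i k l m p = - ∑ i, (rid A i k l i m p + rid A i l i k m p) := by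
    intro k l m p
    have e1 : ∀ i, D i i k l m p = - (D k i l i m p + rid A i k l i m p) -
        (D l i i k m p + rid A i l i k m p) := by
      intro i
      have b := hB i i k l m p
      have c1 := hC i k l i m p
      have c2 := hC i l i k m p
      linarith
    have z1 : ∑ i, D k i l i m p = 0 := by
      have e2 : ∀ i, D k i l i m p = - D k m p i l i + D k p m i l i := by
        intro i
        have p1 := (hD k i).pair l i m p
        have b := hB k i m p l i
        have a1 := (hD k m).a1 p i l i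
        have a2 := (hD k m).a2 i p l i
        have a3 := (hD k p).a1 i m l i
        linarith
      simp only [e2, Finset.sum_add_distrib, Finset.sum_neg_distrib, hT]
      ring
    have z2 : ∑ i, D l i i k m p = 0 := by
      have e2 : ∀ i, D l i i k m p = D l m p i k i - D l p m i k i := by
        intro i
        have p1 := (hD l i).pair i k m p
        have b := hB l i m p i k
        have a1 := (hD l m).a1 p i i k
        have a2 := (hD l m).a2 p i i k
        have a3 := (hD l p).a1 i m i k
        have a4 := (hD l p).a2 m i i k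
        linarith
      simp only [e2, Finset.sum_sub_distrib, hT]
      ring
    simp only [e1]
    rw [Finset.sum_sub_distrib, Finset.sum_neg_distrib, Finset.sum_add_distrib,
      Finset.sum_add_distrib, z1, z2, Finset.sum_add_distrib]
    ring
  have ridanti : ∀ i j k l m p, rid A i j k l m p = - rid A i j l k m p := by
    intro i j k l m p
    unfold rid
    rw [← Finset.sum_neg_distrib]
    refine Finset.sum_congr rfl fun q _ => ?_
    rw [h.a1 q l m p, h.a1 k q m p, h.a1 k l q p, h.a1 k l m q]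
    ring
  have d2 : ∑ k, ∑ l, ∑ m, ∑ p, (∑ i, D i i k l m p) * A k l m p =
      -2 * ∑ k, ∑ l, ∑ m, ∑ p, ∑ i, A k l m p * rid A i k l i m p := by
    have s1 : ∑ k, ∑ l, ∑ m, ∑ p, (∑ i, D i i k l m p) * A k l m p =
        -(∑ k, ∑ l, ∑ m, ∑ p, ∑ i, A k l m p * rid A i k l i m p) -
        ∑ k, ∑ l, ∑ m, ∑ p, ∑ i, A k l m p * rid A i l i k m p := by
      simp only [← Finset.sum_neg_distrib, ← Finset.sum_sub_distrib]
      refine Finset.sum_congr rfl fun k _ => Finset.sum_congr rfl fun l _ =>
        Finset.sum_congr rfl fun m _ => Finset.sum_congr rfl fun p _ => ?_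
      rw [d1, neg_mul, Finset.sum_mul, ← Finset.sum_neg_distrib]
      exact Finset.sum_congr rfl fun i _ => by ring
    have s2 : ∑ k, ∑ l, ∑ m, ∑ p, ∑ i, A k l m p * rid A i l i k m p =
        ∑ k, ∑ l, ∑ m, ∑ p, ∑ i, A k l m p * rid A i k l i m p := by
      rw [swap12 (fun k l m p => ∑ i, A k l m p * rid A i l i k m p)]
      refine Finset.sum_congr rfl fun k _ => Finset.sum_congr rfl fun l _ =>
        Finset.sum_congr rfl fun m _ => Finset.sum_congr rfl fun p _ =>
        Finset.sum_congr rfl fun i _ => ?_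
      rw [h.a1 l k m p, ridanti i k i l m p]
      ring
    rw [s1, s2]; ring
  have d3 : ∑ k, ∑ l, ∑ m, ∑ p, ∑ i, A k l m p * rid A i k l i m p =
      (2 * X3 A - 2 * Y3 A) - c * nS A + 2 * X3 A := by
    have e1 : ∀ k l m p i, A k l m p * rid A i k l i m p =
        ∑ q, (A k l m p * (A i k l q * A q i m p)) + A k l m p * ∑ q, A i k i q * A l q m p +
        ∑ q, (A k l m p * (A i k m q * A l i q p)) +
        ∑ q, (A k l m p * (A i k p q * A l i m q)) := by
      intro k l m p i
      unfold rid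
      rw [Finset.mul_sum, Finset.mul_sum, ← Finset.sum_add_distrib, ← Finset.sum_add_distrib,
        ← Finset.sum_add_distrib]
      exact Finset.sum_congr rfl fun q _ => by ring
    simp only [e1, Finset.sum_add_distrib]
    rw [X1_eq h, X2_eq h]
    have f1 : ∑ k, ∑ l, ∑ m, ∑ p, ∑ i, A k l m p * ∑ q, A i k i q * A l q m p =
        - c * nS A := by
      have g1 : ∀ k l m p, ∑ i, A k l m p * ∑ q, A i k i q * A l q m p =
          - c * A k l m p ^ 2 := by
        intro k l m p
        rw [← Finset.mul_sum, Finset.sum_comm]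
        have g2 : ∀ q, ∑ i, A i k i q * A l q m p = (c * A l q m p) * dl k q := by
          intro q
          rw [← Finset.sum_mul]
          have g3 : ∑ i, A i k i q = ∑ i, A k i q i := Finset.sum_congr rfl fun i _ => by
            rw [h.a1 i k i q, h.a2 k i i q, neg_neg]
          rw [g3, hE k q]
          ring
        simp only [g2]
        rw [sum_dl (fun q => c * A l q m p) k, h.a1 l k m p]
        ring
      simp only [g1]
      unfold nS
      simp only [Finset.mul_sum]
    have f2 : ∑ k, ∑ l, ∑ m, ∑ p, ∑ i, ∑ q, A k l m p * (A i k p q * A l i m q) = X3 A := by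
      rw [← X2_eq h]
      refine Finset.sum_congr rfl fun k _ => Finset.sum_congr rfl fun l _ => ?_
      rw [Finset.sum_comm]
      refine Finset.sum_congr rfl fun p _ => Finset.sum_congr rfl fun m _ =>
        Finset.sum_congr rfl fun i _ => Finset.sum_congr rfl fun q _ => ?_
      rw [h.a2 k l m p, h.a2 l i m q]
      ring
    rw [f1, f2]
    ring
  rw [d2, d3]
  ring

end Pool.Agent.L5helper93.Ein
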