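import Mathlib
import Pool.Agent.L5helper93.Ein.Config

/-!
# The sharp algebraic theorem in dimension eight
-/

namespace Pool.Agent.L5helper93.Ein

open Finset Matrix

set_option linter.unusedSectionVars false
set_option linter.unusedVariables false
set_option linter.unusedSimpArgs false

section

variable {ι : Type*} [Fintype ι] [DecidableEq ι]

theorem wt_pos (j : Fin 4) : 0 < wt j := by
  have h1 := sqrt6_lt
  have h2 : 0 < Real.sqrt 6 := Real.sqrt_pos.2 (by norm_num)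
  fin_cases j <;> simp [wt] <;> nlinarith

theorem Ex_zero {F : (ι → ℝ) → ℝ} (hF : ∀ x, 0 ≤ F x) (hE : Ex F ≤ 0) (σ : ι → Fin 4) :
    F (fun i => node (σ i)) = 0 := by
  have h1 : ∀ σ : ι → Fin 4, 0 ≤ (∏ i, wt (σ i)) * F (fun i => node (σ i)) := fun σ =>
    mul_nonneg (Finset.prod_nonneg fun i _ => (wt_pos _).le) (hF _)
  have h2 : Ex F = 0 := le_antisymm hE (Ex_nonneg F hF)
  have h3 := (Finset.sum_eq_zero_iff_of_nonneg fun σ _ => h1 σ).1 h2 σ (Finset.mem_univ σ)
  rcases mul_eq_zero.1 h3 with h4 | h4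
  · exact absurd h4 (Finset.prod_pos fun i _ => wt_pos _).ne'
  · exact h4

theorem Ex_eq_zero {G : (ι → ℝ) → ℝ} (h : ∀ σ : ι → Fin 4, G (fun i => node (σ i)) = 0) :
    Ex G = 0 := by
  unfold Ex
  refine Finset.sum_eq_zero fun σ _ => ?_
  rw [h, mul_zero]

end

variable {m : ℕ}

theorem exists_unit (x : Fin (m + 1) → ℝ) : ∃ (r : ℝ) (u : Fin (m + 1) → ℝ),
    ∑ a, u a ^ 2 = 1 ∧ x = fun i => r * u i := by
  by_cases h0 : ∑ a, x a ^ 2 = 0
  · refine ⟨0, fun i => if i = 0 then 1 else 0, ?_, ?_⟩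
    · simp
    · ext i
      have := (Finset.sum_eq_zero_iff_of_nonneg (fun a _ => sq_nonneg (x a))).1 h0 i
        (Finset.mem_univ i)
      simpa using this
  · have hpos : 0 < ∑ a, x a ^ 2 := lt_of_le_of_ne (Finset.sum_nonneg fun a _ => sq_nonneg _)
      (Ne.symm h0)
    have hs : 0 < Real.sqrt (∑ a, x a ^ 2) := Real.sqrt_pos.2 hpos
    refine ⟨Real.sqrt (∑ a, x a ^ 2), fun i => x i / Real.sqrt (∑ a, x a ^ 2), ?_, ?_⟩
    · simp only [div_pow, Real.sq_sqrt hpos.le]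
      rw [← Finset.sum_div, div_self h0]
    · ext i
      field_simp

variable {A : Fin (7 + 1) → Fin (7 + 1) → Fin (7 + 1) → Fin (7 + 1) → ℝ}

/-- The configuration in dimension eight, with the sharp inequality. -/
theorem config7 (h : IsCurv A) (hE : IsEin A) (hK : SecLE A (7 / 4))
    {x : Fin (7 + 1) → ℝ} (hx : ∑ a, x a ^ 2 = 1) :
    0 ≤ Phi A x ∧ (Phi A x = 0 →
      ∃ (w : Fin 7 → Fin (7 + 1) → ℝ) (e : Fin 7 → ℝ),
        (∀ i j, ∑ a, w i a * w j a = if i = j then 1 else 0) ∧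
        (∀ i, ∑ a, w i a * x a = 0) ∧
        (∀ a b, Jf A x a b = ∑ i, (1 + e i) * (w i a * w i b)) ∧
        (∀ i, 1 + e i = Kf A (w i) x) ∧ ∑ i, e i = 0 ∧ Dev A x = ∑ i, e i ^ 2 ∧
        ((∀ i, e i = 0) ∨ Pat7 e)) := by
  have hK' : SecLE A (1 + 3 / 4) := by
    have : (1 : ℝ) + 3 / 4 = 7 / 4 := by norm_num
    rw [this]; exact hK
  obtain ⟨w, e, s, h1, h2, h3, h4, h5, h6, h7, h8, h9, h10, h11, h12, h13⟩ := config h hE hK' hx
  have hrow : ∀ a, ∑ b, s a b = 9 / 2 + e a := by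
    intro a
    rw [h10]
    norm_num
  obtain ⟨i1, i2⟩ := ineq7 e h11 (T := 3 / 4) h6 le_rfl s h7 h8 h9 hrow
  have e1 : 5 * Phi A x = 99 / 4 * ∑ i, e i ^ 2 - 12 * ∑ i, e i ^ 3 +
      5 * ∑ a, ∑ b, s a b * (e a * e b) := by
    rw [h12]
    norm_num
  rw [← e1] at i1 i2
  constructor
  · linarith
  · intro h0
    exact ⟨w, e, h1, h2, h4, h5, h11, h13, i2 (by linarith)⟩

theorem Phi_nonneg7 (h : IsCurv A) (hE : IsEin A) (hK : SecLE A (7 / 4))
    (x : Fin (7 + 1) → ℝ) : 0 ≤ Phi A x := by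
  obtain ⟨r, u, hu, hx⟩ := exists_unit x
  rw [hx, Phi_smul]
  exact mul_nonneg (by positivity) (config7 h hE hK hu).1

/-- The sharp inequality in dimension eight. -/
theorem Qp_nonneg7 (h : IsCurv A) (hE : IsEin A) (hK : SecLE A (7 / 4)) : 0 ≤ Qp A := by
  have h1 := Ex_nonneg _ (Phi_nonneg7 h hE hK)
  rw [Ex_Phi h hE] at h1
  have hn : (0:ℝ) < (Fintype.card (Fin (7 + 1)) : ℝ) + 4 := by positivity
  have h3 := nonneg_of_mul_nonneg_right h1 hn
  linarith

/-- The strict case. -/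
theorem nS_of_strict7 (h : IsCurv A) (hE : IsEin A) (hK : SecLE A (7 / 4))
    (hK' : ∀ u v : Fin (7 + 1) → ℝ, ∑ a, u a ^ 2 = 1 → ∑ a, v a ^ 2 = 1 →
      ∑ a, u a * v a = 0 → Kf A u v < 7 / 4) (hQ : Qp A ≤ 0) : nS A = 2 * 8 * 7 := by
  have hEx : Ex (Phi A) ≤ 0 := by
    rw [Ex_Phi h hE]
    have hn : (0:ℝ) < (Fintype.card (Fin (7 + 1)) : ℝ) + 4 := by positivity
    exact mul_nonpos_of_nonneg_of_nonpos hn.le (by linarith)
  have hz := Ex_zero (Phi_nonneg7 h hE hK) hEx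
  have hD : ∀ σ : Fin (7 + 1) → Fin 4, Dev A (fun i => node (σ i)) = 0 := by
    intro σ
    have h0 := hz σ
    obtain ⟨r, u, hu, hx⟩ := exists_unit (fun i => node (σ i))
    rw [hx, Phi_smul] at h0
    rw [hx, Dev_smul]
    rcases mul_eq_zero.1 h0 with h1 | h1
    · rw [h1, zero_mul]
    · obtain ⟨w, e, g1, g2, g3, g4, g5, g7, h2 | g6⟩ := (config7 h hE hK hu).2 h1
      · rw [g7, Finset.sum_eq_zero fun i _ => by rw [h2]; ring, mul_zero]
      · exfalso
        have : ∀ i, e i = - (9 / 16) := by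
          intro i
          rcases g6 i with h7 | h7
          · exfalso
            have h8 := hK' (w i) u (by
              have := g1 i i
              rw [if_pos rfl] at this
              rw [← this]
              exact Finset.sum_congr rfl fun a _ => pow_two _) hu (g2 i)
            rw [← g4 i, h7] at h8
            norm_num at h8
          · exact h7
        rw [Finset.sum_congr rfl fun i _ => this i] at g5
        norm_num at g5
  have hE2 := Ex_eq_zero hD
  rw [Ex_Dev h hE] at hE2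
  have hcard : (Fintype.card (Fin (7 + 1)) : ℝ) = 8 := by simp
  rw [hcard] at hE2
  linarith

/-- The equality case: the configuration of the vector `(1, ..., 1)`. -/
theorem eq_case7 (h : IsCurv A) (hE : IsEin A) (hK : SecLE A (7 / 4)) (hQ : Qp A ≤ 0)
    {u : Fin (7 + 1) → ℝ} (hu : ∀ i, u i = (Real.sqrt 8)⁻¹) : Phi A u = 0 := by
  have hEx : Ex (Phi A) ≤ 0 := by
    rw [Ex_Phi h hE]
    have hn : (0:ℝ) < (Fintype.card (Fin (7 + 1)) : ℝ) + 4 := by positivity
    exact mul_nonpos_of_nonneg_of_nonpos hn.le (by linarith)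
  have hz := Ex_zero (Phi_nonneg7 h hE hK) hEx (fun _ => 0)
  have h8 : Real.sqrt 8 ≠ 0 := (Real.sqrt_pos.2 (by norm_num)).ne'
  have hx : (fun i : Fin (7 + 1) => node 0) = fun i => (node 0 * Real.sqrt 8) * u i := by
    ext i
    rw [hu]
    field_simp
  rw [hx, Phi_smul] at hz
  rcases mul_eq_zero.1 hz with h1 | h1
  · exfalso
    have h2 := pow_eq_zero_iff (by norm_num) |>.1 h1
    rcases mul_eq_zero.1 h2 with h3 | h3
    · have h4 := sqrt6_lt
      have h5 : 0 < Real.sqrt (3 - Real.sqrt 6) := Real.sqrt_pos.2 (by linarith)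
      have h6 : 0 < Real.sqrt (3 + Real.sqrt 6) := Real.sqrt_pos.2 (by
        have := Real.sqrt_nonneg 6
        linarith)
      simp [node] at h3
      exact h5.ne' h3
    · exact h8 h3
  · exact h1

end Pool.Agent.L5helper93.Ein
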